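import Pool.Agent.Lib.MP_1a0ddd_nt.W.Defs
import Pool.Agent.Lib.MP_1a0ddd_nt.Quad.TDefs

/-! Point counts: the average of the traces and the numbers of points of the components. -/

set_option autoImplicit false

namespace Pool.Agent.Lib.MP_1a0ddd_nt.W

open Polynomial Filter Topology

theorem finite_hom (R : Type) [CommRing R] [Algebra.FiniteType ℤ R] (p : ℕ) (hp : p.Prime) :
    Finite (R →+* ZMod p) := by
  have : Fact p.Prime := ⟨hp⟩
  obtain ⟨n, f, hf⟩ := Algebra.FiniteType.iff_quotient_mvPolynomial''.1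
    (inferInstance : Algebra.FiniteType ℤ R)
  refine Finite.of_injective (fun (φ : R →+* ZMod p) (i : Fin n) => φ (f (MvPolynomial.X i))) ?_
  intro φ ψ h
  have h1 : φ.comp f.toRingHom = ψ.comp f.toRingHom := by
    refine MvPolynomial.ringHom_ext (fun a => ?_) (fun i => ?_)
    · simp
    · exact congrFun h i
  refine RingHom.ext fun x => ?_
  obtain ⟨y, rfl⟩ := hf x
  exact RingHom.congr_fun h1 y

/-- ring maps from `R[x, y]` are pairs `(z, (x, y))` -/
private noncomputable def homEquiv (R : Type) [CommRing R] (p : ℕ) :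
    (R →+* ZMod p) × (ZMod p × ZMod p) ≃ (R[X][X] →+* ZMod p) where
  toFun a := val a.1 a.2
  invFun φ := ((φ.comp C).comp C, (φ (C X), φ X))
  left_inv a := by
    refine Prod.ext ?_ (Prod.ext ?_ ?_)
    · refine RingHom.ext fun r => ?_
      simp [val]
    · simp [val]
    · simp [val]
  right_inv φ := by
    refine Polynomial.ringHom_ext' (Polynomial.ringHom_ext' ?_ ?_) ?_
    · refine RingHom.ext fun r => ?_
      simp [val]
    · simp [val]
    · simp [val]

private theorem card_hom {R : Type} [CommRing R] (p : ℕ) [Fact p.Prime]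
    [Fintype (R →+* ZMod p)] (Q : (R[X][X] →+* ZMod p) → Prop) :
    Nat.card {φ : R[X][X] →+* ZMod p // Q φ} =
      ∑ z : R →+* ZMod p, Nat.card {q : ZMod p × ZMod p // Q (val z q)} := by
  classical
  have e : {φ : R[X][X] →+* ZMod p // Q φ} ≃
      Σ z : R →+* ZMod p, {q : ZMod p × ZMod p // Q (val z q)} :=
    ((Equiv.subtypeEquiv (homEquiv R p) (p := fun a => Q (val a.1 a.2)) (q := Q)
      (fun a => Iff.rfl)).symm).trans
      (Equiv.subtypeProdEquivSigmaSubtype (fun z q => Q (val z q)))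
  rw [Nat.card_congr e, Nat.card_sigma]

private theorem lin_count {p : ℕ} [Fact p.Prime] (a b : ZMod p) :
    (Finset.univ.filter fun t : ZMod p => a + t * b = 0).card =
      (if b = 0 then 0 else 1) + p * (if a = 0 ∧ b = 0 then 1 else 0) := by
  classical
  by_cases hb : b = 0
  · subst hb
    by_cases ha : a = 0
    · subst ha
      simp [ZMod.card]
    · simp [ha]
  · rw [if_neg hb, if_neg (fun h => hb h.2), mul_zero, add_zero, Finset.card_eq_one]
    refine ⟨-a / b, ?_⟩
    ext t
    rw [Finset.mem_filter, Finset.mem_singleton]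
    constructor
    · rintro ⟨-, h⟩
      rw [eq_div_iff hb]
      linear_combination h
    · rintro rfl
      refine ⟨Finset.mem_univ _, ?_⟩
      rw [div_mul_cancel₀ _ hb]
      ring

private theorem fibre_sum {p : ℕ} [Fact p.Prime] (f g : ZMod p × ZMod p → ZMod p) :
    ∑ t : ZMod p, ((p : ℝ) - (Nat.card {q : ZMod p × ZMod p // f q + t * g q = 0} : ℝ)) =
      (Nat.card {q : ZMod p × ZMod p // g q = 0} : ℝ) -
        p * (Nat.card {q : ZMod p × ZMod p // f q = 0 ∧ g q = 0} : ℝ) := by
  classical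
  have h1 : ∑ t : ZMod p, Nat.card {q : ZMod p × ZMod p // f q + t * g q = 0} =
      ∑ q : ZMod p × ZMod p, ((if g q = 0 then 0 else 1) +
        p * (if f q = 0 ∧ g q = 0 then 1 else 0)) := by
    calc ∑ t : ZMod p, Nat.card {q : ZMod p × ZMod p // f q + t * g q = 0}
        = ∑ t : ZMod p, ∑ q : ZMod p × ZMod p, (if f q + t * g q = 0 then 1 else 0) := by
          refine Finset.sum_congr rfl fun t _ => ?_
          rw [Nat.card_eq_fintype_card, Fintype.card_subtype, Finset.card_filter]
      _ = ∑ q : ZMod p × ZMod p, ∑ t : ZMod p, (if f q + t * g q = 0 then 1 else 0) :=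
          Finset.sum_comm
      _ = _ := by
          refine Finset.sum_congr rfl fun q _ => ?_
          rw [← Finset.card_filter]
          exact lin_count (f q) (g q)
  have h2 : (∑ q : ZMod p × ZMod p, (if g q = 0 then 0 else 1)) +
      Nat.card {q : ZMod p × ZMod p // g q = 0} = p * p := by
    rw [Nat.card_eq_fintype_card, Fintype.card_subtype, Finset.card_filter,
      ← Finset.sum_add_distrib]
    calc _ = ∑ q : ZMod p × ZMod p, 1 := by
          refine Finset.sum_congr rfl fun q _ => ?_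
          by_cases h : g q = 0 <;> simp [h]
      _ = p * p := by simp [ZMod.card]
  have h3 : (∑ q : ZMod p × ZMod p, p * (if f q = 0 ∧ g q = 0 then 1 else 0)) =
      p * Nat.card {q : ZMod p × ZMod p // f q = 0 ∧ g q = 0} := by
    rw [Nat.card_eq_fintype_card, Fintype.card_subtype, Finset.card_filter, Finset.mul_sum]
  rw [Finset.sum_add_distrib, h3] at h1
  have h4 : (∑ t : ZMod p, (Nat.card {q : ZMod p × ZMod p // f q + t * g q = 0} : ℝ)) =
      ((∑ q : ZMod p × ZMod p, (if g q = 0 then 0 else 1) : ℕ) : ℝ) +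
        p * (Nat.card {q : ZMod p × ZMod p // f q = 0 ∧ g q = 0} : ℝ) := by
    have := congrArg (Nat.cast : ℕ → ℝ) h1
    push_cast at this ⊢
    exact this
  have h5 : ((∑ q : ZMod p × ZMod p, (if g q = 0 then 0 else 1) : ℕ) : ℝ) =
      (p : ℝ) * p - (Nat.card {q : ZMod p × ZMod p // g q = 0} : ℝ) := by
    have := congrArg (Nat.cast : ℕ → ℝ) h2
    push_cast at this ⊢
    linarith
  rw [Finset.sum_sub_distrib, h4, h5]
  simp only [Finset.sum_const, Finset.card_univ, ZMod.card, nsmul_eq_mul]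
  ring

/-- proof: `∑_t #{F + t G = 0} = #{G ≠ 0} + p #{F = G = 0}` for fixed `z`; ring maps
`R[x, y] → F_p` are pairs `(z, (x, y))` -/
theorem avg_eq {R : Type} [CommRing R] (F G : R[X][X]) (d p : ℕ) (hp : p.Prime)
    [Finite (R →+* ZMod p)] :
    avg F G d p = (Nat.card {φ : R[X][X] →+* ZMod p // φ G = 0} : ℝ) / (p : ℝ) ^ (d + 1) -
      (Nat.card {φ : R[X][X] →+* ZMod p // φ F = 0 ∧ φ G = 0} : ℝ) / (p : ℝ) ^ d := by
  classical
  have : Fact p.Prime := ⟨hp⟩
  have := Fintype.ofFinite (R →+* ZMod p)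
  have hp0 : (p : ℝ) ≠ 0 := by exact_mod_cast hp.ne_zero
  rw [card_hom p (fun φ => φ G = 0), card_hom p (fun φ => φ F = 0 ∧ φ G = 0)]
  have h1 : (∑ᶠ z : R →+* ZMod p, ∑ᶠ t : ZMod p, (trc F G p z t : ℝ)) =
      ∑ z : R →+* ZMod p, ((Nat.card {q : ZMod p × ZMod p // val z q G = 0} : ℝ) -
        p * (Nat.card {q : ZMod p × ZMod p // val z q F = 0 ∧ val z q G = 0} : ℝ)) := by
    rw [finsum_eq_sum_of_fintype]
    refine Finset.sum_congr rfl fun z _ => ?_
    rw [finsum_eq_sum_of_fintype, ← fibre_sum]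
    refine Finset.sum_congr rfl fun t _ => ?_
    unfold trc
    push_cast
    rfl
  rw [avg, h1, Finset.sum_sub_distrib, ← Finset.mul_sum]
  push_cast
  field_simp
  ring

private theorem card_quot {S : Type} [CommRing S] (J : Ideal S) (D : S) (p : ℕ) :
    Nat.card {z : S ⧸ J →+* ZMod p // z (Ideal.Quotient.mk J D) ≠ 0} =
      Nat.card {φ : S →+* ZMod p // (∀ u ∈ J, φ u = 0) ∧ φ D ≠ 0} := by
  refine Nat.card_congr
    { toFun := fun z => ⟨z.1.comp (Ideal.Quotient.mk J), fun u hu => ?_, z.2⟩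
      invFun := fun φ => ⟨Ideal.Quotient.lift J φ.1 φ.2.1, ?_⟩
      left_inv := fun z => ?_
      right_inv := fun φ => ?_ }
  · rw [RingHom.comp_apply, Ideal.Quotient.eq_zero_iff_mem.2 hu, map_zero]
  · rw [Ideal.Quotient.lift_mk]
    exact φ.2.2
  · refine Subtype.ext (Ideal.Quotient.ringHom_ext (RingHom.ext fun u => ?_))
    simp
  · refine Subtype.ext (RingHom.ext fun u => ?_)
    simp

private theorem between {c l u : ℕ → ℝ} {γ : ℝ} (hl : Quad.TauMean l γ) (hu : Quad.TauMean u γ)
    (h : ∀ p : ℕ, p.Prime → l p ≤ c p ∧ c p ≤ u p) : Quad.TauMean c γ := by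
  have h1 : Quad.TauMean (fun p => u p - l p) 0 := by
    have := hu.sub hl
    rwa [sub_self] at this
  have h2 : Quad.TauMean (fun p => c p - l p) 0 := by
    refine Quad.TauMean.of_abs_le h1 1 0 fun p _ hp => ?_
    obtain ⟨h3, h4⟩ := h p hp
    rw [abs_of_nonneg (by linarith), one_mul]
    linarith
  have h3 := h2.add hl
  rw [zero_add] at h3
  exact h3.congr' 0 fun p _ _ => by ring

/-- proof: a map `φ` to `F_p` which kills `I` kills some `P i` (`h.pow`), and conversely. Choose
`D i ∉ P i` with `D i ∈ P j` for all `j ≠ i` (`h.inc`, `h.prime`). The maps with `φ(P i) = 0`,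
`φ(D i) ≠ 0` are disjoint for different `i`. Each of the two families has the mean `1` for every
`i` after division by `p^e`, by `h.count` with `D = D i` and with `D = 1`; so the sum over `i` of
the first is a lower bound and the sum of the second an upper bound, and
`TauMean.squeeze` or a direct squeeze gives the claim -/
theorem comps_count {R : Type} [CommRing R] [Algebra.FiniteType ℤ R] {I : Ideal R[X][X]}
    {e n : ℕ} {P : Fin n → Ideal R[X][X]} (h : Comps I e P) :
    Quad.TauMean (fun p : ℕ => (Nat.card {φ : R[X][X] →+* ZMod p // ∀ u ∈ I, φ u = 0} : ℝ) /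
      (p : ℝ) ^ e) (n : ℝ) := by
  classical
  have hD : ∀ i, ∃ D : R[X][X], D ∉ P i ∧ ∀ j, j ≠ i → D ∈ P j := by
    intro i
    have h1 : ¬ (∏ j ∈ Finset.univ.erase i, P j) ≤ P i := by
      intro h2
      obtain ⟨j, hj, h3⟩ := (Ideal.IsPrime.prod_le (h.prime i)).1 h2
      exact (Finset.mem_erase.1 hj).1 (h.inc j i h3)
    obtain ⟨D, hD, hD'⟩ := SetLike.not_le_iff_exists.1 h1
    refine ⟨D, hD', fun j hj => ?_⟩
    have h2 : (∏ j ∈ Finset.univ.erase i, P j) ≤ P j :=
      Ideal.prod_le_inf.trans (Finset.inf_le (Finset.mem_erase.2 ⟨hj, Finset.mem_univ j⟩))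
    exact h2 hD
  choose D hD1 hD2 using hD
  set b : (i : Fin n) → R[X][X] → ℕ → ℝ := fun i E p =>
    (Nat.card {φ : R[X][X] →+* ZMod p // (∀ u ∈ P i, φ u = 0) ∧ φ E ≠ 0} : ℝ) / (p : ℝ) ^ e
    with hb
  have hmean : ∀ i (E : R[X][X]), E ∉ P i → Quad.TauMean (b i E) 1 := by
    intro i E hE
    have h1 := h.count i (Ideal.Quotient.mk (P i) E)
      (fun h2 => hE (Ideal.Quotient.eq_zero_iff_mem.1 h2))
    refine h1.congr' 0 fun p _ _ => ?_
    simp only [hb]
    rw [card_quot]
  have hone : ∀ i, (1 : R[X][X]) ∉ P i := fun i h1 =>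
    (h.prime i).ne_top ((Ideal.eq_top_iff_one _).2 h1)
  have hl : Quad.TauMean (fun p => ∑ i, b i (D i) p) (n : ℝ) := by
    have := Quad.TauMean.sum Finset.univ (fun i => b i (D i)) (fun _ => 1)
      (fun i _ => hmean i (D i) (hD1 i))
    simpa using this
  have hu : Quad.TauMean (fun p => ∑ i, b i 1 p) (n : ℝ) := by
    have := Quad.TauMean.sum Finset.univ (fun i => b i 1) (fun _ => 1)
      (fun i _ => hmean i 1 (hone i))
    simpa using this
  refine between hl hu fun p hp => ?_
  have : Fact p.Prime := ⟨hp⟩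
  have hfin0 : Finite (R →+* ZMod p) := finite_hom R p hp
  have hfin : Finite (R[X][X] →+* ZMod p) := Finite.of_equiv _ (homEquiv R p)
  have := Fintype.ofFinite (R[X][X] →+* ZMod p)
  have hp0 : (0 : ℝ) ≤ (p : ℝ) ^ e := by positivity
  have hcard : ∀ (Q : (R[X][X] →+* ZMod p) → Prop) [DecidablePred Q],
      Nat.card {φ : R[X][X] →+* ZMod p // Q φ} = (Finset.univ.filter Q).card := by
    intro Q _
    rw [Nat.card_eq_fintype_card, Fintype.card_subtype]
  simp only [hb]
  rw [← Finset.sum_div, ← Finset.sum_div]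
  constructor
  · refine div_le_div_of_nonneg_right ?_ hp0
    rw [hcard]
    have h1 : (Finset.univ.biUnion fun i : Fin n => Finset.univ.filter
        fun φ : R[X][X] →+* ZMod p => (∀ u ∈ P i, φ u = 0) ∧ φ (D i) ≠ 0) ⊆
        Finset.univ.filter fun φ : R[X][X] →+* ZMod p => ∀ u ∈ I, φ u = 0 := by
      intro φ hφ
      obtain ⟨i, -, hi⟩ := Finset.mem_biUnion.1 hφ
      refine Finset.mem_filter.2 ⟨Finset.mem_univ φ, fun u hu => ?_⟩
      exact (Finset.mem_filter.1 hi).2.1 u (h.le i hu)
    have h2 := Finset.card_le_card h1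
    rw [Finset.card_biUnion] at h2
    · calc _ = ((∑ i : Fin n, (Finset.univ.filter
            fun φ : R[X][X] →+* ZMod p => (∀ u ∈ P i, φ u = 0) ∧ φ (D i) ≠ 0).card : ℕ) : ℝ) := by
            push_cast
            refine Finset.sum_congr rfl fun i _ => ?_
            rw [hcard]
        _ ≤ _ := by exact_mod_cast h2
    · intro i _ j _ hij
      change Disjoint _ _
      rw [Finset.disjoint_left]
      intro φ h3 h4
      exact (Finset.mem_filter.1 h3).2.2 ((Finset.mem_filter.1 h4).2.1 _ (hD2 i j (Ne.symm hij)))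
  · refine div_le_div_of_nonneg_right ?_ hp0
    rw [hcard]
    have h1 : (Finset.univ.filter fun φ : R[X][X] →+* ZMod p => ∀ u ∈ I, φ u = 0) ⊆
        (Finset.univ.biUnion fun i : Fin n => Finset.univ.filter
        fun φ : R[X][X] →+* ZMod p => (∀ u ∈ P i, φ u = 0) ∧ φ 1 ≠ 0) := by
      intro φ hφ
      have h2 := (Finset.mem_filter.1 hφ).2
      obtain ⟨k, hk⟩ := h.pow
      have hker : (RingHom.ker φ).IsPrime := RingHom.ker_isPrime φ
      have h3 : (∏ i, P i) ^ k ≤ RingHom.ker φ := hk.trans fun u hu => h2 u hu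
      have h4 : (∏ i, P i) ≤ RingHom.ker φ := hker.le_of_pow_le h3
      obtain ⟨i, -, hi⟩ := (Ideal.IsPrime.prod_le hker).1 h4
      refine Finset.mem_biUnion.2 ⟨i, Finset.mem_univ i, Finset.mem_filter.2
        ⟨Finset.mem_univ φ, fun u hu => hi hu, ?_⟩⟩
      rw [map_one]
      exact one_ne_zero
    have h2 := (Finset.card_le_card h1).trans Finset.card_biUnion_le
    calc _ ≤ ((∑ i : Fin n, (Finset.univ.filter
            fun φ : R[X][X] →+* ZMod p => (∀ u ∈ P i, φ u = 0) ∧ φ 1 ≠ 0).card : ℕ) : ℝ) := by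
            exact_mod_cast h2
        _ = _ := by
            push_cast
            refine Finset.sum_congr rfl fun i _ => ?_
            rw [hcard]

theorem avg_mean {R : Type} [CommRing R] [Algebra.FiniteType ℤ R] {d : ℕ} (F G : R[X][X])
    {m N : ℕ} (P : Fin m → Ideal R[X][X]) (Q : Fin N → Ideal R[X][X])
    (hP : Comps (Ideal.span {G}) (d + 1) P) (hQ : Comps (Ideal.span {F, G}) d Q) :
    Quad.TauMean (avg F G d) ((m : ℝ) - N) := by
  refine ((comps_count hP).sub (comps_count hQ)).congr' 0 fun p _ hp => ?_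
  have : Finite (R →+* ZMod p) := finite_hom R p hp
  rw [avg_eq F G d p hp]
  have h1 : ∀ φ : R[X][X] →+* ZMod p, (∀ u ∈ Ideal.span {G}, φ u = 0) ↔ φ G = 0 := by
    intro φ
    constructor
    · intro h
      exact h G (Ideal.subset_span rfl)
    · intro h u hu
      have h2 : Ideal.span {G} ≤ RingHom.ker φ := by
        rw [Ideal.span_le]
        rintro x rfl
        exact h
      exact h2 hu
  have h2 : ∀ φ : R[X][X] →+* ZMod p,
      (∀ u ∈ Ideal.span {F, G}, φ u = 0) ↔ (φ F = 0 ∧ φ G = 0) := by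
    intro φ
    constructor
    · intro h
      exact ⟨h F (Ideal.subset_span (Or.inl rfl)), h G (Ideal.subset_span (Or.inr rfl))⟩
    · intro h u hu
      have h2 : Ideal.span {F, G} ≤ RingHom.ker φ := by
        rw [Ideal.span_le]
        rintro x (rfl | rfl)
        · exact h.1
        · exact h.2
      exact h2 hu
  simp only [h1, h2]

end Pool.Agent.Lib.MP_1a0ddd_nt.W
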