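import Pool.Agent.Lib.MP_1a0ddd_nt.W.Ovr

/-! From components over `R` to components over the fraction field of `R`. -/

set_option autoImplicit false

namespace Pool.Agent.Lib.MP_1a0ddd_nt.W

open Polynomial

section

attribute [local instance] Polynomial.algebra Polynomial.isLocalization

private theorem frc_loc {R : Type} [CommRing R] [IsDomain R] (K : Type) [Field K] [Algebra R K]
    [IsFractionRing R K] (P : Ideal R[X][X]) (hP : P.IsPrime)
    (hd : ∀ r : R, C (C r) ∈ P → r = 0) :
    (P.map (mapRingHom (mapRingHom (algebraMap R K)))).IsPrime ∧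
      (P.map (mapRingHom (mapRingHom (algebraMap R K)))).comap
        (mapRingHom (mapRingHom (algebraMap R K))) = P := by
  have halg : algebraMap R[X][X] K[X][X] = mapRingHom (mapRingHom (algebraMap R K)) := rfl
  let M : Submonoid R[X][X] := Submonoid.map C (Submonoid.map C (nonZeroDivisors R))
  have hloc : IsLocalization M K[X][X] := inferInstance
  have hdis : Disjoint (M : Set R[X][X]) (P : Set R[X][X]) := by
    rw [Set.disjoint_left]
    rintro _ ⟨_, ⟨r, hr, rfl⟩, rfl⟩ hmem
    exact nonZeroDivisors.ne_zero hr (hd r hmem)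
  rw [← halg]
  exact ⟨IsLocalization.isPrime_of_isPrime_disjoint M K[X][X] P hP hdis,
    IsLocalization.under_map_of_isPrime_disjoint M K[X][X] hP hdis⟩

end

/-- `G ↦ G.map (mapRingHom f)` as a ring homomorphism -/
private theorem frc_hom {R : Type} [CommRing R] (K : Type) [Field K] [Algebra R K] (G : R[X][X]) :
    mapRingHom (mapRingHom (algebraMap R K)) G = G.map (mapRingHom (algebraMap R K)) := by
  rw [coe_mapRingHom]

/-- a prime ideal with the ideal `I` contains the extension of one of the components -/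
private theorem frc_contains {R : Type} [CommRing R] {I : Ideal R[X][X]} {n e : ℕ}
    {P : Fin n → Ideal R[X][X]} (hP : Comps I e P) (K : Type) [Field K] [Algebra R K]
    (M : Ideal K[X][X]) (hM : M.IsPrime)
    (hI : I.map (mapRingHom (mapRingHom (algebraMap R K))) ≤ M) :
    ∃ i, (P i).map (mapRingHom (mapRingHom (algebraMap R K))) ≤ M := by
  obtain ⟨k, hk⟩ := hP.pow
  have h1 : ((∏ i, P i) ^ k).map (mapRingHom (mapRingHom (algebraMap R K))) ≤ M :=
    le_trans (Ideal.map_mono hk) hI
  rw [Ideal.map_pow] at h1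
  have h2 : (∏ i, P i).map (mapRingHom (mapRingHom (algebraMap R K))) ≤ M :=
    Ideal.IsPrime.le_of_pow_le h1
  have h3 : (∏ i, P i).map (mapRingHom (mapRingHom (algebraMap R K))) =
      ∏ i, (P i).map (mapRingHom (mapRingHom (algebraMap R K))) := by
    exact map_prod (Ideal.mapHom (mapRingHom (mapRingHom (algebraMap R K)))) P Finset.univ
  rw [h3, hM.prod_le] at h2
  obtain ⟨i, _, hi⟩ := h2
  exact ⟨i, hi⟩

/-- proof: let `P' i` be the extension of `P i` to `K[x, y]`. It is a prime ideal with
contraction `P i` (localisation at the nonzero elements of `R`, `hP.dom`). It contains `G` and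
hence a prime divisor `π` of `G`; by `hP.pow` some `P' j` is contained in `(π)`, hence in `P' i`,
so `j = i` and `P' i = (π)` -/
theorem frac_factors {R : Type} [CommRing R] [IsDomain R] {F G : R[X][X]}
    (h : Pencil F G) {m e : ℕ} {P : Fin m → Ideal R[X][X]}
    (hP : Comps (Ideal.span {G}) e P) (K : Type) [Field K] [Algebra R K] [IsFractionRing R K] :
    ∃ g : Fin m → K[X][X], (∀ j, Prime (g j)) ∧ (∀ i j, g i ∣ g j → i = j) ∧
      (∀ j, g j ∣ G.map (mapRingHom (algebraMap R K))) ∧
      ∀ π : K[X][X], Prime π → π ∣ G.map (mapRingHom (algebraMap R K)) → ∃ j, g j ∣ π := by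
  classical
  set φ : R[X][X] →+* K[X][X] := mapRingHom (mapRingHom (algebraMap R K)) with hφ
  have hGφ : G.map (mapRingHom (algebraMap R K)) = φ G := (frc_hom K G).symm
  have hinj : Function.Injective φ := by
    rw [hφ]
    exact Polynomial.map_injective _ (Polynomial.map_injective _ (IsFractionRing.injective R K))
  have hG0 : φ G ≠ 0 := (map_ne_zero_iff φ hinj).2 h.ne
  have hpr := fun i => frc_loc K (P i) (hP.prime i) (hP.dom i)
  -- comparison of the extensions
  have hcomp : ∀ i j, (P i).map φ ≤ (P j).map φ → i = j := by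
    intro i j hij
    apply hP.inc
    have h1 := Ideal.comap_mono (f := φ) hij
    rw [(hpr i).2, (hpr j).2] at h1
    exact h1
  have hspan : ∀ π : K[X][X], π ∣ φ G → (Ideal.span {G}).map φ ≤ Ideal.span {π} := by
    intro π hπ
    rw [Ideal.map_span, Set.image_singleton, Ideal.span_singleton_le_span_singleton]
    exact hπ
  -- every extension is principal
  have hprinc : ∀ i, ∃ π : K[X][X], Prime π ∧ π ∣ φ G ∧ (P i).map φ = Ideal.span {π} := by
    intro i
    have hGi : φ G ∈ (P i).map φ := Ideal.mem_map_of_mem φ (hP.le i (Ideal.subset_span rfl))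
    obtain ⟨π, hπ, hπG, hπi⟩ : ∃ π : K[X][X], Prime π ∧ π ∣ φ G ∧ π ∈ (P i).map φ := by
      obtain ⟨s, hs, u, hu⟩ := UniqueFactorizationMonoid.exists_prime_factors (φ G) hG0
      have h1 : s.prod ∈ (P i).map φ := by
        have h2 : s.prod = φ G * ↑u⁻¹ := by
          rw [← hu, mul_assoc, Units.mul_inv, mul_one]
        rw [h2]
        exact Ideal.mul_mem_right _ _ hGi
      rw [(hpr i).1.multiset_prod_mem_iff_exists_mem] at h1
      obtain ⟨π, hπs, hπ⟩ := h1
      exact ⟨π, hs π hπs, (Multiset.dvd_prod hπs).trans ⟨u, hu.symm⟩, hπ⟩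
    refine ⟨π, hπ, hπG, ?_⟩
    have hπprime : (Ideal.span {π}).IsPrime := (Ideal.span_singleton_prime hπ.ne_zero).2 hπ
    obtain ⟨j, hj⟩ := frc_contains hP K (Ideal.span {π}) hπprime (hspan π hπG)
    have hle : Ideal.span {π} ≤ (P i).map φ := by
      rw [Ideal.span_singleton_le_iff_mem]
      exact hπi
    have hij : j = i := hcomp j i (le_trans hj hle)
    rw [hij] at hj
    exact le_antisymm hj hle
  choose g hg hgG hgP using hprinc
  refine ⟨g, hg, ?_, ?_, ?_⟩
  · intro i j hij
    refine (hcomp j i ?_).symm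
    rw [hgP, hgP, Ideal.span_singleton_le_span_singleton]
    exact hij
  · intro j
    rw [hGφ]
    exact hgG j
  · intro π hπ hπG
    rw [hGφ] at hπG
    have hπprime : (Ideal.span {π}).IsPrime := (Ideal.span_singleton_prime hπ.ne_zero).2 hπ
    obtain ⟨j, hj⟩ := frc_contains hP K (Ideal.span {π}) hπprime (hspan π hπG)
    have hj' : (P j).map φ ≤ Ideal.span {π} := hj
    rw [hgP, Ideal.span_singleton_le_span_singleton] at hj'
    exact ⟨j, ((hπ.irreducible.dvd_symm (hg j).irreducible) hj')⟩

/-- proof: the extensions `Q' i` of the `Q i` to `K[x, y]` are the prime ideals which contain `F`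
and `G` (all of them are maximal by `base_maximal`), and these correspond to the primes of `A` which
contain `G` (`map_comap`, `exists_over`) -/
theorem frac_base {R : Type} [CommRing R] [IsDomain R] {F G : R[X][X]}
    (h : Pencil F G) {N e : ℕ} {Q : Fin N → Ideal R[X][X]}
    (hQ : Comps (Ideal.span {F, G}) e Q) (K : Type) [Field K] [Algebra R K]
    [IsFractionRing R K] {A : Type} [CommRing A] {ψ : (RatFunc K)[X][X] →+* A}
    (H : Cv (F.map (mapRingHom (algebraMap R K))) (G.map (mapRingHom (algebraMap R K))) A ψ) :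
    Nat.card {P : Ideal A // P.IsPrime ∧ ψ (up (G.map (mapRingHom (algebraMap R K)))) ∈ P} =
      N := by
  classical
  have h' := pencil_map (algebraMap R K) (IsFractionRing.injective R K) h
  set φ : R[X][X] →+* K[X][X] := mapRingHom (mapRingHom (algebraMap R K)) with hφ
  have hGφ : G.map (mapRingHom (algebraMap R K)) = φ G := (frc_hom K G).symm
  have hFφ : F.map (mapRingHom (algebraMap R K)) = φ F := (frc_hom K F).symm
  rw [hGφ, hFφ] at H h'
  rw [hGφ]
  have hpr := fun i => frc_loc K (Q i) (hQ.prime i) (hQ.dom i)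
  have hFi : ∀ i, φ F ∈ (Q i).map φ := fun i =>
    Ideal.mem_map_of_mem φ (hQ.le i (Ideal.subset_span (Set.mem_insert _ _)))
  have hGi : ∀ i, φ G ∈ (Q i).map φ := fun i =>
    Ideal.mem_map_of_mem φ (hQ.le i (Ideal.subset_span (Set.mem_insert_of_mem _ rfl)))
  -- the primes of `A` over the extensions
  have hex : ∀ i, ∃ P : Ideal A, P.IsPrime ∧ P.comap (ψ.comp up) = (Q i).map φ := fun i =>
    exists_over h' H ((Q i).map φ) (hpr i).1 (hFi i) (hGi i)
  choose P hP hPQ using hex
  have hPG : ∀ i, ψ (up (φ G)) ∈ P i := by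
    intro i
    have h1 : φ G ∈ (P i).comap (ψ.comp up) := by
      rw [hPQ i]
      exact hGi i
    exact h1
  let f : Fin N → {P : Ideal A // P.IsPrime ∧ ψ (up (φ G)) ∈ P} := fun i => ⟨P i, hP i, hPG i⟩
  have hf : Function.Bijective f := by
    constructor
    · intro i j hij
      have h1 : P i = P j := congrArg Subtype.val hij
      have h2 : (Q i).map φ = (Q j).map φ := by rw [← hPQ i, ← hPQ j, h1]
      have h3 : Q i = Q j := by
        have h4 := congrArg (Ideal.comap φ) h2
        rw [(hpr i).2, (hpr j).2] at h4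
        exact h4
      exact hQ.inc i j h3.le
    · rintro ⟨P₀, hP₀, hG₀⟩
      have hF₀ : ψ (up (φ F)) ∈ P₀ := by
        have h1 := cv_rel H
        have h2 : ψ (up (φ F)) = -(ψ (ct (RatFunc.X : RatFunc K)) * ψ (up (φ G))) :=
          eq_neg_of_add_eq_zero_left h1
        rw [h2]
        exact P₀.neg_mem (P₀.mul_mem_left _ hG₀)
      have hM : (P₀.comap (ψ.comp up)).IsPrime := hP₀.comap _
      have hI : (Ideal.span {F, G}).map φ ≤ P₀.comap (ψ.comp up) := by
        rw [Ideal.map_le_iff_le_comap, Ideal.span_le]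
        intro x hx
        rcases hx with rfl | hx
        · exact hF₀
        · rw [Set.mem_singleton_iff] at hx
          rw [hx]
          exact hG₀
      obtain ⟨i, hi⟩ := frc_contains hQ K _ hM hI
      have hmax : ((Q i).map φ).IsMaximal := base_maximal h' _ (hpr i).1 (hFi i) (hGi i)
      have heq : (Q i).map φ = P₀.comap (ψ.comp up) := hmax.eq_of_le hM.ne_top hi
      refine ⟨i, Subtype.ext ?_⟩
      show P i = P₀
      rw [← map_comap h' H (P i) (hP i) (hPG i), ← map_comap h' H P₀ hP₀ hG₀, hPQ i, heq]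
  rw [Nat.card_congr (Equiv.ofBijective f hf).symm, Nat.card_eq_fintype_card, Fintype.card_fin]

end Pool.Agent.Lib.MP_1a0ddd_nt.W
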