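import Pool.Agent.Lib.MP_1a0ddd_nt.W.Unt

/-! Elements of `L(t)[x, y]/(F + t G)` which divide a power of `G`. -/

set_option autoImplicit false

namespace Pool.Agent.Lib.MP_1a0ddd_nt.W

open Polynomial

variable {L : Type} [Field L]

private theorem idp_lft {F G : L[X][X]} {A : Type} [CommRing A]
    {ψ : (RatFunc L)[X][X] →+* A} (H : Cv F G A ψ) (c : L[X]) :
    ψ (up (hmg F G c.natDegree (lft c))) =
      ψ (up G) ^ c.natDegree * ψ (ct (algebraMap L[X] (RatFunc L) c)) := by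
  have h1 := up_hmg H c.natDegree (lft c)
    (show (lft c).natDegree ≤ c.natDegree from natDegree_map_le)
  rw [h1, tup_lft]

private theorem idp_hmg_one (F G : L[X][X]) : hmg F G 0 (1 : L[X][X][X]) = 1 := by
  simp [hmg]

private theorem idp_unit {F G : L[X][X]} {c : L[X]} (hc : IsUnit c) :
    IsUnit (hmg F G c.natDegree (lft c)) := by
  obtain ⟨d, hd⟩ := hc.exists_right_inv
  have hd' : IsUnit d := IsUnit.of_mul_eq_one c (by rw [mul_comm]; exact hd)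
  have h1 : c.natDegree = 0 := natDegree_eq_zero_of_isUnit hc
  have h2 : d.natDegree = 0 := natDegree_eq_zero_of_isUnit hd'
  have h3 := hmg_mul F G 0 0 (lft c) (lft d) (natDegree_map_le.trans h1.le)
    (natDegree_map_le.trans h2.le)
  rw [← map_mul, hd, map_one, add_zero, idp_hmg_one] at h3
  rw [h1]
  exact IsUnit.of_mul_eq_one _ h3.symm

private theorem idp_prime {F G π : L[X][X]} (hπ : Prime π) (c : L[X]) :
    c ≠ 0 → π ∣ hmg F G c.natDegree (lft c) →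
      ∃ q : L[X], Irreducible q ∧ π ∣ hmg F G q.natDegree (lft q) := by
  induction c using WfDvdMonoid.induction_on_irreducible with
  | zero => exact fun h => absurd rfl h
  | unit u hu => exact fun _ h => absurd (isUnit_of_dvd_unit h (idp_unit hu)) hπ.not_isUnit
  | mul a i ha hi ih =>
    intro _ h
    rw [natDegree_mul hi.ne_zero ha, map_mul,
      hmg_mul F G _ _ (lft i) (lft a) natDegree_map_le natDegree_map_le] at h
    rcases hπ.dvd_or_dvd h with h | h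
    · exact ⟨i, hi, h⟩
    · exact ih ha h

private def IdpGood (G : L[X][X]) {A : Type} [CommRing A] (ψ : (RatFunc L)[X][X] →+* A)
    (e : A) : Prop :=
  ∃ (c : RatFunc L) (r s : L[X][X]), c ≠ 0 ∧ (∃ n, r ∣ G ^ n) ∧ (∃ n, s ∣ G ^ n) ∧
      e * ψ (up s) = ψ (ct c) * ψ (up r)

private theorem idp_good_mul {G : L[X][X]} {A : Type} [CommRing A]
    {ψ : (RatFunc L)[X][X] →+* A} {e e' : A} (h : IdpGood G ψ e) (h' : IdpGood G ψ e') :
    IdpGood G ψ (e * e') := by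
  obtain ⟨c, r, s, hc, ⟨n, hr⟩, ⟨m, hs⟩, he⟩ := h
  obtain ⟨c', r', s', hc', ⟨n', hr'⟩, ⟨m', hs'⟩, he'⟩ := h'
  refine ⟨c * c', r * r', s * s', mul_ne_zero hc hc', ⟨n + n', ?_⟩, ⟨m + m', ?_⟩, ?_⟩
  · rw [pow_add]; exact mul_dvd_mul hr hr'
  · rw [pow_add]; exact mul_dvd_mul hs hs'
  · rw [map_mul, map_mul, map_mul, map_mul, map_mul, map_mul]
    linear_combination (e' * ψ (up s')) * he + (ψ (ct c) * ψ (up r)) * he'

private theorem idp_good_prime {F G : L[X][X]} (h : Pencil F G) (hm : IrrMembers F G) {A : Type}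
    [CommRing A] {ψ : (RatFunc L)[X][X] →+* A} (H : Cv F G A ψ) {π : L[X][X]} (hπ : Prime π)
    {M : ℕ} (hd : ψ (up π) ∣ ψ (up G) ^ M) : IdpGood G ψ (ψ (up π)) := by
  obtain ⟨e, he⟩ := hd
  obtain ⟨u, hu⟩ := H.surj e
  obtain ⟨c, T, hc, hT⟩ := clear_den u
  have h1 := up_hmg H T.natDegree T le_rfl
  rw [hT, map_mul, hu] at h1
  have h2 := idp_lft H c
  have h3 : ψ (up (π * hmg F G T.natDegree T * G ^ c.natDegree)) =
      ψ (up (G ^ (T.natDegree + M) * hmg F G c.natDegree (lft c))) := by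
    simp only [map_mul, map_pow]
    rw [h1, h2, pow_add]
    linear_combination (-(ψ (up G) ^ T.natDegree * ψ (ct (algebraMap L[X] (RatFunc L) c)) *
      ψ (up G) ^ c.natDegree)) * he
  have h4 := up_injective h H h3
  have h5 : π ∣ G ^ (T.natDegree + M) * hmg F G c.natDegree (lft c) := by
    rw [← h4, mul_assoc]
    exact dvd_mul_right _ _
  rcases hπ.dvd_or_dvd h5 with h6 | h6
  · refine ⟨1, π, 1, one_ne_zero, ⟨1, ?_⟩, ⟨0, by simp⟩, by simp⟩
    rw [pow_one]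
    exact hπ.dvd_of_dvd_pow h6
  · obtain ⟨q, hq, h7⟩ := idp_prime hπ c hc h6
    have h8 := (hπ.associated_of_dvd (prime_hmg h hm q hq) h7)
    obtain ⟨w, hw⟩ := h8
    have h9 := idp_lft H q
    rw [← hw, map_mul, map_mul] at h9
    refine ⟨algebraMap L[X] (RatFunc L) q, G ^ q.natDegree, w, ?_, ⟨q.natDegree, dvd_rfl⟩,
      ⟨0, ?_⟩, ?_⟩
    · exact (map_ne_zero_iff _ (RatFunc.algebraMap_injective L)).mpr hq.ne_zero
    · rw [pow_zero]; exact w.isUnit.dvd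
    · rw [h9, map_pow, map_pow]
      ring

private theorem idp_good_up {F G : L[X][X]} (h : Pencil F G) (hm : IrrMembers F G) {A : Type}
    [CommRing A] {ψ : (RatFunc L)[X][X] →+* A} (H : Cv F G A ψ) (b : L[X][X]) :
    (∃ M : ℕ, ψ (up b) ∣ ψ (up G) ^ M) → IdpGood G ψ (ψ (up b)) := by
  induction b using UniqueFactorizationMonoid.induction_on_prime with
  | h₁ =>
    rintro ⟨M, hM⟩
    exfalso
    rw [map_zero, map_zero, zero_dvd_iff, ← map_pow, ← map_pow] at hM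
    have h1 : G ^ M = 0 := up_injective h H (by
      show ψ (up (G ^ M)) = ψ (up 0)
      rw [hM, map_zero, map_zero])
    exact pow_ne_zero M h.ne h1
  | h₂ u hu =>
    intro _
    refine ⟨1, u, 1, one_ne_zero, ⟨0, ?_⟩, ⟨0, by simp⟩, by simp⟩
    rw [pow_zero]; exact hu.dvd
  | h₃ a p _ hp ih =>
    rintro ⟨M, hM⟩
    rw [map_mul, map_mul] at hM ⊢
    exact idp_good_mul (idp_good_prime h hm H hp (M := M) (dvd_of_mul_right_dvd hM))
      (ih ⟨M, dvd_of_mul_left_dvd hM⟩)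

/-- proof: first `e = ψ (up π)` with `π` prime in `L[x, y]`: `π e' = G^N`; with `exists_den` and
`clear_den` for `e'` one finds `c ∈ L[t]` nonzero with `π ∣ G^M hmg (lft c)` in `L[x, y]`
(`up_hmg`, `up_injective`), so `π ∣ G` or `π` is associated to `hmg (lft q)` for an irreducible
factor `q` of `c` (`hmg_mul`, `prime_hmg`), and `ψ (up (hmg (lft q))) = G^n q(t)`. The general
case: `exists_den`, and factorisation of the numerator and of the denominator in `L[x, y]` -/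
theorem unit_thm {F G : L[X][X]} (h : Pencil F G) (hm : IrrMembers F G) {A : Type} [CommRing A]
    {ψ : (RatFunc L)[X][X] →+* A} (H : Cv F G A ψ) (e : A) (N : ℕ) (he : e ∣ ψ (up G) ^ N) :
    ∃ (c : RatFunc L) (r s : L[X][X]), c ≠ 0 ∧ (∃ n, r ∣ G ^ n) ∧ (∃ n, s ∣ G ^ n) ∧
      e * ψ (up s) = ψ (ct c) * ψ (up r) := by
  obtain ⟨s₀, b, ⟨N₀, hs₀⟩, hb⟩ := exists_den H e
  have h1 : ψ (up b) ∣ ψ (up G) ^ (N₀ + N) := by
    rw [← hb, pow_add]
    exact mul_dvd_mul hs₀ he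
  obtain ⟨c₁, r₁, s₁, hc₁, ⟨n₁, hr₁⟩, ⟨m₁, hs₁⟩, h₁⟩ := idp_good_up h hm H b ⟨_, h1⟩
  obtain ⟨c₂, r₂, s₂, hc₂, ⟨n₂, hr₂⟩, ⟨m₂, hs₂⟩, h₂⟩ := idp_good_up h hm H s₀ ⟨_, hs₀⟩
  refine ⟨c₁ / c₂, r₁ * s₂, r₂ * s₁, div_ne_zero hc₁ hc₂, ⟨n₁ + m₂, ?_⟩, ⟨n₂ + m₁, ?_⟩, ?_⟩
  · rw [pow_add]; exact mul_dvd_mul hr₁ hs₂
  · rw [pow_add]; exact mul_dvd_mul hr₂ hs₁
  · have h3 : ψ (ct c₂) * ψ (ct (c₁ / c₂)) = ψ (ct c₁) := by
      rw [← map_mul, ← map_mul, mul_div_cancel₀ _ hc₂]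
    have hu : IsUnit (ψ (ct c₂)) := by
      have : IsUnit c₂ := IsUnit.mk0 _ hc₂
      exact (this.map ct).map ψ
    refine hu.mul_left_cancel ?_
    rw [map_mul, map_mul, map_mul, map_mul]
    linear_combination (-(e * ψ (up s₁))) * h₂ + (ψ (up s₂)) * h₁ +
      (ψ (up s₁) * ψ (up s₂)) * hb - (ψ (up r₁) * ψ (up s₂)) * h3

/-- proof: `e` is the image of some `c = c₁/c₂ ∈ L(t)` by `hu`. So
`hmg (lft c₂) P G^(deg c₁) = hmg (lft c₁) Q G^(deg c₂)` in `L[x, y]` (`up_hmg`, `up_injective`).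
As the `hmg (lft cᵢ)` are relatively prime to `G` one has `P G^(deg c₁) ∼ Q G^(deg c₂)` and
`hmg (lft c₂) ∼ hmg (lft c₁)`, and `hmg_lft_natDegree` gives `deg c₁ = deg c₂`. So `P ∼ Q`, and
these are relatively prime -/
theorem unit_indep {F G : L[X][X]} (h : Pencil F G) {A : Type} [CommRing A]
    {ψ : (RatFunc L)[X][X] →+* A} (H : Cv F G A ψ)
    (hu : ∀ u : A, IsUnit u → ∃ c : RatFunc L, u = ψ (ct c)) (P Q : L[X][X]) (n : ℕ)
    (hP : P ∣ G ^ n) (hQ : Q ∣ G ^ n) (hPQ : IsRelPrime P Q) (e : A) (he : IsUnit e)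
    (heq : ψ (up P) = e * ψ (up Q)) : IsUnit P ∧ IsUnit Q := by
  obtain ⟨c, hc⟩ := hu e he
  have := cv_domain h H
  have hc0 : c ≠ 0 := by
    rintro rfl
    rw [map_zero, map_zero] at hc
    rw [hc] at he
    exact not_isUnit_zero he
  have hn0 : c.num ≠ 0 := RatFunc.num_ne_zero hc0
  have hd0 : c.denom ≠ 0 := RatFunc.denom_ne_zero c
  have h1 : ψ (ct c) * ψ (ct (algebraMap L[X] (RatFunc L) c.denom)) =
      ψ (ct (algebraMap L[X] (RatFunc L) c.num)) := by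
    rw [← map_mul, ← map_mul]
    congr 2
    have h2 := RatFunc.num_div_denom c
    have h3 : algebraMap L[X] (RatFunc L) c.denom ≠ 0 :=
      (map_ne_zero_iff _ (RatFunc.algebraMap_injective L)).mpr hd0
    calc c * algebraMap L[X] (RatFunc L) c.denom
        = (algebraMap L[X] (RatFunc L) c.num / algebraMap L[X] (RatFunc L) c.denom) *
          algebraMap L[X] (RatFunc L) c.denom := by rw [h2]
      _ = _ := div_mul_cancel₀ _ h3
  set d₁ := c.num.natDegree with hd₁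
  set d₂ := c.denom.natDegree with hd₂
  set h₁ := hmg F G d₁ (lft c.num) with hh₁
  set h₂ := hmg F G d₂ (lft c.denom) with hh₂
  have e₁ : ψ (up h₁) = ψ (up G) ^ d₁ * ψ (ct (algebraMap L[X] (RatFunc L) c.num)) :=
    idp_lft H c.num
  have e₂ : ψ (up h₂) = ψ (up G) ^ d₂ * ψ (ct (algebraMap L[X] (RatFunc L) c.denom)) :=
    idp_lft H c.denom
  have key : h₂ * (G ^ d₁ * P) = h₁ * (G ^ d₂ * Q) := by
    refine up_injective h H ?_
    show ψ (up (h₂ * (G ^ d₁ * P))) = ψ (up (h₁ * (G ^ d₂ * Q)))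
    simp only [map_mul, map_pow]
    rw [e₁, e₂, heq, hc, ← h1]
    ring
  have hrel₁ : ∀ k, IsRelPrime h₁ (G ^ k) := fun k => hmg_lft_relPrime h c.num hn0 k
  have hrel₂ : ∀ k, IsRelPrime h₂ (G ^ k) := fun k => hmg_lft_relPrime h c.denom hd0 k
  have hrP : G ^ d₁ * P ∣ G ^ (d₁ + n) := by
    rw [pow_add]; exact mul_dvd_mul_left _ hP
  have hrQ : G ^ d₂ * Q ∣ G ^ (d₂ + n) := by
    rw [pow_add]; exact mul_dvd_mul_left _ hQ
  have a1 : h₂ ∣ h₁ := by
    have r1 : IsRelPrime h₂ (G ^ d₂ * Q) := fun d x y => hrel₂ _ x (y.trans hrQ)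
    exact r1.dvd_of_dvd_mul_right (Dvd.intro _ key)
  have a2 : h₁ ∣ h₂ := by
    have r1 : IsRelPrime h₁ (G ^ d₁ * P) := fun d x y => hrel₁ _ x (y.trans hrP)
    exact r1.dvd_of_dvd_mul_right (Dvd.intro _ key.symm)
  have a3 : h₁.natDegree = F.natDegree * d₁ := hmg_lft_natDegree h c.num hn0
  have a4 : h₂.natDegree = F.natDegree * d₂ := hmg_lft_natDegree h c.denom hd0
  have hG : G ≠ 0 := h.ne
  have hz₁ : h₁ ≠ 0 := by
    intro h0
    have := e₁
    rw [h0, map_zero, map_zero] at this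
    have h5 : ψ (ct (algebraMap L[X] (RatFunc L) c.num)) ≠ 0 := by
      have : IsUnit (algebraMap L[X] (RatFunc L) c.num) := IsUnit.mk0 _
        ((map_ne_zero_iff _ (RatFunc.algebraMap_injective L)).mpr hn0)
      exact ((this.map ct).map ψ).ne_zero
    have h6 : ψ (up G) ≠ 0 := by
      intro h7
      exact hG (up_injective h H (by
        show ψ (up G) = ψ (up 0)
        rw [h7, map_zero, map_zero]))
    exact (mul_ne_zero (pow_ne_zero _ h6) h5) this.symm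
  have hz₂ : h₂ ≠ 0 := fun h0 => hz₁ (by rw [h0] at a1; exact zero_dvd_iff.mp a1)
  have a5 : d₁ = d₂ := by
    have h6 : h₁.natDegree = h₂.natDegree :=
      le_antisymm (natDegree_le_of_dvd a2 hz₂) (natDegree_le_of_dvd a1 hz₁)
    rw [a3, a4] at h6
    have h7 : 0 < F.natDegree := lt_of_le_of_lt (Nat.zero_le _) h.lt
    exact Nat.eq_of_mul_eq_mul_left h7 h6
  have b1 : G ^ d₁ * P ∣ G ^ d₂ * Q := by
    have r1 : IsRelPrime (G ^ d₁ * P) h₁ := fun d x y => hrel₁ _ y (x.trans hrP)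
    exact r1.dvd_of_dvd_mul_left (Dvd.intro_left _ key)
  have b2 : G ^ d₂ * Q ∣ G ^ d₁ * P := by
    have r1 : IsRelPrime (G ^ d₂ * Q) h₂ := fun d x y => hrel₂ _ y (x.trans hrQ)
    exact r1.dvd_of_dvd_mul_left (Dvd.intro_left _ key.symm)
  rw [a5] at b1 b2
  have c1 : P ∣ Q := (mul_dvd_mul_iff_left (pow_ne_zero _ hG)).mp b1
  have c2 : Q ∣ P := (mul_dvd_mul_iff_left (pow_ne_zero _ hG)).mp b2
  exact ⟨hPQ dvd_rfl c1, hPQ c2 dvd_rfl⟩

end Pool.Agent.Lib.MP_1a0ddd_nt.W
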