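import Pool.Agent.Lib.MP_1a0ddd_nt.W.Ded
import Pool.Agent.Lib.MP_1a0ddd_nt.W.Idp

/-! The Picard group of `L(t)[x, y]/(F + t G)`.

Let `S` be the (finite) set of the primes of the Dedekind domain `A` which contain `G`. The map
`Φ : ℤ^S → Cl(A)`, `n ↦ ∑ n_P [P]`, is surjective by `gen` (see `pic_main` in
`MP_1a0ddd_nt/Pic.lean`, whose private lemmas on `cls` can be copied). Let
`Ψ : ℤ^κ → ℤ^S` be the map of the divisors of the `g j`. Then `range Ψ = ker Φ`: if `Φ(n) = 0`
then, `D` being the divisor of `G` and `k` large, `n + k D` is the divisor of some `e ∈ A`, `e`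
divides a power of `G`, and `unit_thm` applies. And `Ψ` is injective by `unit_indep`, because the
`g j` are pairwise non-associated primes. The ranks follow from
`LinearMap.finrank_range_add_finrank_ker`. -/

set_option autoImplicit false

namespace Pool.Agent.Lib.MP_1a0ddd_nt.W

open Polynomial nonZeroDivisors

section cls

variable {A : Type} [CommRing A] [IsDedekindDomain A]

/-- the class of an ideal, `0` for the zero ideal -/
private noncomputable def cls (I : Ideal A) : Additive (ClassGroup A) := by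
  classical
  exact if h : I ≠ ⊥ then Additive.ofMul (ClassGroup.mk0 ⟨I, mem_nonZeroDivisors_iff_ne_zero.2 h⟩)
    else 0

private theorem cls_of {I : Ideal A} (h : I ≠ ⊥) :
    cls I = Additive.ofMul (ClassGroup.mk0 ⟨I, mem_nonZeroDivisors_iff_ne_zero.2 h⟩) := by
  rw [cls, dif_pos h]

private theorem cls_mul {I J : Ideal A} (hI : I ≠ ⊥) (hJ : J ≠ ⊥) :
    cls (I * J) = cls I + cls J := by
  have hIJ : I * J ≠ ⊥ := mul_ne_zero hI hJ
  rw [cls_of hI, cls_of hJ, cls_of hIJ, ← ofMul_mul, ← map_mul]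
  rfl

private theorem cls_eq_zero {I : Ideal A} (hI : I ≠ ⊥) : cls I = 0 ↔ ∃ a, I = Ideal.span {a} := by
  rw [cls_of hI]
  have h1 : Additive.ofMul (ClassGroup.mk0 ⟨I, mem_nonZeroDivisors_iff_ne_zero.2 hI⟩) = 0 ↔
      ClassGroup.mk0 ⟨I, mem_nonZeroDivisors_iff_ne_zero.2 hI⟩ = 1 := Iff.rfl
  rw [h1, ClassGroup.mk0_eq_one_iff, Submodule.isPrincipal_iff]

private theorem cls_span {a : A} : cls (Ideal.span {a}) = 0 := by
  by_cases h : Ideal.span {a} = (⊥ : Ideal A)
  · rw [cls, dif_neg (not_not.2 h)]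
  · exact (cls_eq_zero h).2 ⟨a, rfl⟩

private theorem cls_top : cls (⊤ : Ideal A) = 0 := by
  rw [← Ideal.span_singleton_one]
  exact cls_span

private theorem cls_surj (c : Additive (ClassGroup A)) : ∃ I : Ideal A, I ≠ ⊥ ∧ cls I = c := by
  obtain ⟨I, hI⟩ := ClassGroup.mk0_surjective (Additive.toMul c)
  have h : (I : Ideal A) ≠ ⊥ := mem_nonZeroDivisors_iff_ne_zero.1 I.2
  refine ⟨I, h, ?_⟩
  rw [cls_of h]
  exact hI

private theorem cls_pow {I : Ideal A} (hI : I ≠ ⊥) (n : ℕ) : cls (I ^ n) = n • cls I := by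
  induction n with
  | zero => rw [pow_zero, zero_smul, Ideal.one_eq_top, cls_top]
  | succ n ih =>
    rw [pow_succ, cls_mul (pow_ne_zero n hI) hI, ih, succ_nsmul]

private theorem cls_prod {ι : Type} (s : Finset ι) (I : ι → Ideal A) (hI : ∀ i ∈ s, I i ≠ ⊥) :
    cls (∏ i ∈ s, I i) = ∑ i ∈ s, cls (I i) := by
  classical
  induction s using Finset.induction_on with
  | empty => rw [Finset.prod_empty, Finset.sum_empty, Ideal.one_eq_top, cls_top]
  | insert i s hi ih =>
    rw [Finset.prod_insert hi, Finset.sum_insert hi,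
      cls_mul (hI i (Finset.mem_insert_self i s))
        (Finset.prod_ne_zero_iff.2 fun j hj => hI j (Finset.mem_insert_of_mem hj)),
      ih fun j hj => hI j (Finset.mem_insert_of_mem hj)]

/-- if the classes of all primes containing `I` are in a subgroup then so is the class of `I` -/
private theorem cls_mem (S : AddSubgroup (Additive (ClassGroup A))) (I : Ideal A) (hI : I ≠ ⊥)
    (h : ∀ P : Ideal A, P.IsPrime → P ≠ ⊥ → I ≤ P → cls P ∈ S) : cls I ∈ S := by
  revert hI h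
  refine UniqueFactorizationMonoid.induction_on_prime
    (P := fun I : Ideal A => I ≠ ⊥ → (∀ P : Ideal A, P.IsPrime → P ≠ ⊥ → I ≤ P → cls P ∈ S) →
      cls I ∈ S) I ?_ ?_ ?_
  · intro h
    exact absurd rfl h
  · intro J hJ _ _
    rw [Ideal.isUnit_iff.1 hJ, cls_top]
    exact S.zero_mem
  · intro J P hJ hP ih _ h
    have hP1 : P.IsPrime := Ideal.isPrime_of_prime hP
    rw [cls_mul hP.ne_zero hJ]
    refine S.add_mem (h P hP1 hP.ne_zero Ideal.mul_le_left) (ih hJ fun Q hQ hQ0 hJQ => ?_)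
    exact h Q hQ hQ0 (Ideal.mul_le_right.trans hJQ)

/-- the exponent of `P` in `I` -/
private noncomputable def cnt (I P : Ideal A) : ℕ := by
  classical
  exact (UniqueFactorizationMonoid.normalizedFactors I).count P

private theorem cnt_mul {I J : Ideal A} (hI : I ≠ ⊥) (hJ : J ≠ ⊥) (P : Ideal A) :
    cnt (I * J) P = cnt I P + cnt J P := by
  classical
  rw [cnt, cnt, cnt, UniqueFactorizationMonoid.normalizedFactors_mul hI hJ, Multiset.count_add]

private theorem cnt_top (P : Ideal A) : cnt ⊤ P = 0 := by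
  classical
  rw [cnt, ← Ideal.one_eq_top, UniqueFactorizationMonoid.normalizedFactors_one,
    Multiset.count_zero]

private theorem cnt_pow {I : Ideal A} (hI : I ≠ ⊥) (n : ℕ) (P : Ideal A) :
    cnt (I ^ n) P = n * cnt I P := by
  induction n with
  | zero => rw [pow_zero, zero_mul, Ideal.one_eq_top, cnt_top]
  | succ n ih => rw [pow_succ, cnt_mul (pow_ne_zero n hI) hI, ih, Nat.succ_mul]

private theorem cnt_prod {ι : Type} (s : Finset ι) (I : ι → Ideal A) (hI : ∀ i ∈ s, I i ≠ ⊥)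
    (P : Ideal A) : cnt (∏ i ∈ s, I i) P = ∑ i ∈ s, cnt (I i) P := by
  classical
  induction s using Finset.induction_on with
  | empty => rw [Finset.prod_empty, Finset.sum_empty, Ideal.one_eq_top, cnt_top]
  | insert i s hi ih =>
    rw [Finset.prod_insert hi, Finset.sum_insert hi,
      cnt_mul (hI i (Finset.mem_insert_self i s))
        (Finset.prod_ne_zero_iff.2 fun j hj => hI j (Finset.mem_insert_of_mem hj)),
      ih fun j hj => hI j (Finset.mem_insert_of_mem hj)]

private theorem cnt_self {P : Ideal A} (hP : P.IsPrime) (h0 : P ≠ ⊥) : cnt P P = 1 := by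
  classical
  rw [cnt, UniqueFactorizationMonoid.normalizedFactors_irreducible
    ((Ideal.prime_iff_isPrime h0).2 hP).irreducible, normalize_eq, Multiset.count_singleton_self]

private theorem cnt_ne {P Q : Ideal A} (hP : P.IsPrime) (h0 : P ≠ ⊥) (h : Q ≠ P) :
    cnt P Q = 0 := by
  classical
  rw [cnt, UniqueFactorizationMonoid.normalizedFactors_irreducible
    ((Ideal.prime_iff_isPrime h0).2 hP).irreducible, normalize_eq, Multiset.count_singleton,
    if_neg h]

private theorem cnt_pos {I P : Ideal A} (hI : I ≠ ⊥) (hP : P.IsPrime) (h : I ≤ P) :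
    1 ≤ cnt I P := by
  classical
  rw [cnt, Multiset.one_le_count_iff_mem, Ideal.mem_normalizedFactors_iff hI]
  exact ⟨hP, h⟩

private theorem eq_prod {T : Ideal A → Prop} [Fintype {P // T P}] {I : Ideal A} (hI : I ≠ ⊥)
    (h : ∀ P : Ideal A, P.IsPrime → I ≤ P → T P) :
    I = ∏ P : {P // T P}, P.1 ^ cnt I P.1 := by
  classical
  have h1 := Ideal.prod_normalizedFactors_eq_self hI
  have h2 := Finset.prod_multiset_count_of_subset
    (UniqueFactorizationMonoid.normalizedFactors I)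
    (Finset.univ.map (Function.Embedding.subtype T)) (fun P hP => by
      rw [Multiset.mem_toFinset, Ideal.mem_normalizedFactors_iff hI] at hP
      exact Finset.mem_map.2 ⟨⟨P, h P hP.1 hP.2⟩, Finset.mem_univ _, rfl⟩)
  rw [h1, Finset.prod_map] at h2
  exact h2

end cls

section main

variable {L : Type} [Field L] {F G : L[X][X]} {A : Type} [CommRing A]
  {ψ : (RatFunc L)[X][X] →+* A}

private theorem upG_ne (h : Pencil F G) (H : Cv F G A ψ) {r : L[X][X]} (hr : r ≠ 0) :
    ψ (up r) ≠ 0 := by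
  intro h0
  refine hr (up_injective h H ?_)
  simp only [map_zero]
  exact h0

private theorem fin_S [IsDedekindDomain A] (h : Pencil F G) (H : Cv F G A ψ) :
    Finite {P : Ideal A // P.IsPrime ∧ ψ (up G) ∈ P} := by
  have hG := upG_ne h H h.ne
  have h1 : Ideal.span {ψ (up G)} ≠ (⊥ : Ideal A) := fun h0 =>
    hG (Ideal.span_singleton_eq_bot.1 h0)
  classical
  refine ((UniqueFactorizationMonoid.normalizedFactors
    (Ideal.span {ψ (up G)})).toFinset.finite_toSet.subset ?_).to_subtype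
  rintro P ⟨hP, hPG⟩
  rw [Finset.mem_coe, Multiset.mem_toFinset, Ideal.mem_normalizedFactors_iff h1]
  exact ⟨hP, (Ideal.span_singleton_le_iff_mem _).2 hPG⟩

private theorem S_ne [IsDedekindDomain A] (h : Pencil F G) (H : Cv F G A ψ)
    (P : {P : Ideal A // P.IsPrime ∧ ψ (up G) ∈ P}) : P.1 ≠ ⊥ := by
  intro h0
  have h1 := P.2.2
  rw [h0, Ideal.mem_bot] at h1
  exact upG_ne h H h.ne h1

/-- the class map -/
private noncomputable def Φ [IsDedekindDomain A] (ψ : (RatFunc L)[X][X] →+* A) (G : L[X][X])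
    [Fintype {P : Ideal A // P.IsPrime ∧ ψ (up G) ∈ P}] :
    ({P : Ideal A // P.IsPrime ∧ ψ (up G) ∈ P} → ℤ) →ₗ[ℤ] Additive (ClassGroup A) :=
  Fintype.linearCombination ℤ fun P => cls P.1

private theorem Φ_apply [IsDedekindDomain A]
    [Fintype {P : Ideal A // P.IsPrime ∧ ψ (up G) ∈ P}]
    (n : {P : Ideal A // P.IsPrime ∧ ψ (up G) ∈ P} → ℤ) :
    Φ ψ G n = ∑ P, n P • cls P.1 := Fintype.linearCombination_apply ..

private theorem Φ_surj [IsDedekindDomain A] (h : Pencil F G) (H : Cv F G A ψ)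
    [Fintype {P : Ideal A // P.IsPrime ∧ ψ (up G) ∈ P}] : Function.Surjective (Φ ψ G) := by
  classical
  have hover : ∀ P : Ideal A, P.IsPrime → ψ (up G) ∈ P →
      cls P ∈ (Φ ψ G).toAddMonoidHom.range := by
    intro P hP hg
    refine ⟨Pi.single ⟨P, hP, hg⟩ 1, ?_⟩
    rw [LinearMap.toAddMonoidHom_coe, Φ_apply, Finset.sum_eq_single ⟨P, hP, hg⟩]
    · rw [Pi.single_eq_same, one_smul]
    · intro j _ hj
      rw [Pi.single_eq_of_ne hj, zero_smul]
    · intro hi
      exact absurd (Finset.mem_univ _) hi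
  intro c
  obtain ⟨I, hI, rfl⟩ := cls_surj c
  have key : cls I ∈ (Φ ψ G).toAddMonoidHom.range := by
    refine cls_mem _ I hI fun P hP hP0 _ => ?_
    by_cases hg : ψ (up G) ∈ P
    · exact hover P hP hg
    · obtain ⟨J, a, ha, hPJ, N, hN⟩ := gen h H P hP hP0 hg
      have hJ0 : J ≠ ⊥ := by
        rintro rfl
        rw [Ideal.mul_bot] at hPJ
        exact ha (Ideal.span_singleton_eq_bot.1 hPJ.symm)
      have h1 := cls_mul hP0 hJ0
      rw [hPJ, cls_span] at h1
      have h2 : cls J ∈ (Φ ψ G).toAddMonoidHom.range := by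
        refine cls_mem _ J hJ0 fun Q hQ _ hJQ => hover Q hQ ?_
        exact hQ.mem_of_pow_mem N (hJQ hN)
      have h3 : cls P = -cls J := (neg_eq_of_add_eq_zero_left h1.symm).symm
      rw [h3]
      exact AddSubgroup.neg_mem _ h2
  obtain ⟨n, hn⟩ := key
  exact ⟨n, hn⟩

/-- the divisor of an ideal -/
private noncomputable def dv [IsDedekindDomain A] (ψ : (RatFunc L)[X][X] →+* A) (G : L[X][X])
    (I : Ideal A) : {P : Ideal A // P.IsPrime ∧ ψ (up G) ∈ P} → ℤ := fun P => cnt I P.1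

private theorem dv_mul [IsDedekindDomain A] {I J : Ideal A} (hI : I ≠ ⊥) (hJ : J ≠ ⊥) :
    dv ψ G (I * J) = dv ψ G I + dv ψ G J := by
  funext P
  rw [Pi.add_apply, dv, dv, dv, cnt_mul hI hJ]
  push_cast
  ring

private theorem prime_mem [IsDedekindDomain A] {I : Ideal A} {N : ℕ} (hN : ψ (up G) ^ N ∈ I)
    (P : Ideal A) (hP : P.IsPrime) (h : I ≤ P) : P.IsPrime ∧ ψ (up G) ∈ P :=
  ⟨hP, hP.mem_of_pow_mem N (h hN)⟩

private theorem dv_inj [IsDedekindDomain A]
    [Fintype {P : Ideal A // P.IsPrime ∧ ψ (up G) ∈ P}] {I J : Ideal A} (hI : I ≠ ⊥)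
    (hJ : J ≠ ⊥) {M N : ℕ} (hM : ψ (up G) ^ M ∈ I) (hN : ψ (up G) ^ N ∈ J)
    (h : dv ψ G I = dv ψ G J) : I = J := by
  rw [eq_prod (T := fun P => P.IsPrime ∧ ψ (up G) ∈ P) hI (prime_mem hM),
    eq_prod (T := fun P => P.IsPrime ∧ ψ (up G) ∈ P) hJ (prime_mem hN)]
  refine Finset.prod_congr rfl fun P _ => ?_
  have h1 := congrFun h P
  rw [dv, dv] at h1
  have h2 : cnt I P.1 = cnt J P.1 := by exact_mod_cast h1
  rw [h2]

private theorem Φ_dv [IsDedekindDomain A] (h : Pencil F G) (H : Cv F G A ψ)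
    [Fintype {P : Ideal A // P.IsPrime ∧ ψ (up G) ∈ P}] {I : Ideal A} (hI : I ≠ ⊥)
    {N : ℕ} (hN : ψ (up G) ^ N ∈ I) : Φ ψ G (dv ψ G I) = cls I := by
  conv_rhs => rw [eq_prod (T := fun P => P.IsPrime ∧ ψ (up G) ∈ P) hI (prime_mem hN)]
  rw [cls_prod _ _ fun P _ => pow_ne_zero _ (S_ne h H P), Φ_apply]
  refine Finset.sum_congr rfl fun P _ => ?_
  rw [cls_pow (S_ne h H P), dv, natCast_zsmul]

private theorem dv_prod [IsDedekindDomain A] (h : Pencil F G) (H : Cv F G A ψ)
    [Fintype {P : Ideal A // P.IsPrime ∧ ψ (up G) ∈ P}]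
    (m : {P : Ideal A // P.IsPrime ∧ ψ (up G) ∈ P} → ℕ) :
    dv ψ G (∏ P : {P : Ideal A // P.IsPrime ∧ ψ (up G) ∈ P}, P.1 ^ m P) = fun P => (m P : ℤ) := by
  funext Q
  rw [dv, cnt_prod _ _ fun P _ => pow_ne_zero _ (S_ne h H P), Finset.sum_eq_single Q]
  · rw [cnt_pow (S_ne h H Q), cnt_self Q.2.1 (S_ne h H Q), mul_one]
  · intro P _ hPQ
    rw [cnt_pow (S_ne h H P), cnt_ne P.2.1 (S_ne h H P) fun e => hPQ (Subtype.ext e).symm,
      mul_zero]
  · intro hi
    exact absurd (Finset.mem_univ _) hi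

/-- the divisor of an element -/
private noncomputable def w [IsDedekindDomain A] (ψ : (RatFunc L)[X][X] →+* A) (G r : L[X][X]) :
    {P : Ideal A // P.IsPrime ∧ ψ (up G) ∈ P} → ℤ := dv ψ G (Ideal.span {ψ (up r)})

private theorem sp_ne (h : Pencil F G) (H : Cv F G A ψ) {r : L[X][X]} (hr : r ≠ 0) :
    Ideal.span {ψ (up r)} ≠ (⊥ : Ideal A) := fun h0 =>
  upG_ne h H hr (Ideal.span_singleton_eq_bot.1 h0)

private theorem w_mul [IsDedekindDomain A] (h : Pencil F G) (H : Cv F G A ψ) {r s : L[X][X]}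
    (hr : r ≠ 0) (hs : s ≠ 0) : w ψ G (r * s) = w ψ G r + w ψ G s := by
  rw [w, w, w, ← dv_mul (sp_ne h H hr) (sp_ne h H hs), Ideal.span_singleton_mul_span_singleton,
    map_mul, map_mul]

private theorem w_unit [IsDedekindDomain A] {r : L[X][X]} (hr : IsUnit r) : w ψ G r = 0 := by
  have h1 : IsUnit (ψ (up r)) := (hr.map up).map ψ
  rw [w, Ideal.span_singleton_eq_top.2 h1]
  funext P
  rw [dv, cnt_top]
  rfl

private theorem w_pow [IsDedekindDomain A] (h : Pencil F G) (H : Cv F G A ψ) {r : L[X][X]}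
    (hr : r ≠ 0) (n : ℕ) : w ψ G (r ^ n) = (n : ℤ) • w ψ G r := by
  induction n with
  | zero => rw [pow_zero, w_unit isUnit_one, Nat.cast_zero, zero_smul]
  | succ n ih =>
    rw [pow_succ, w_mul h H (pow_ne_zero n hr) hr, ih, Nat.cast_succ, add_smul, one_smul]

private theorem w_prod [IsDedekindDomain A] (h : Pencil F G) (H : Cv F G A ψ) {ι : Type}
    (s : Finset ι) (r : ι → L[X][X]) (hr : ∀ i ∈ s, r i ≠ 0) :
    w ψ G (∏ i ∈ s, r i) = ∑ i ∈ s, w ψ G (r i) := by
  classical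
  induction s using Finset.induction_on with
  | empty => rw [Finset.prod_empty, Finset.sum_empty, w_unit isUnit_one]
  | insert i s hi ih =>
    rw [Finset.prod_insert hi, Finset.sum_insert hi,
      w_mul h H (hr i (Finset.mem_insert_self i s))
        (Finset.prod_ne_zero_iff.2 fun j hj => hr j (Finset.mem_insert_of_mem hj)),
      ih fun j hj => hr j (Finset.mem_insert_of_mem hj)]

private theorem w_assoc [IsDedekindDomain A] {r s : L[X][X]} (h : Associated r s) :
    w ψ G r = w ψ G s := by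
  have h1 : Associated (ψ (up r)) (ψ (up s)) := (h.map up).map ψ
  rw [w, w, Ideal.span_singleton_eq_span_singleton.2 h1]

private theorem up_dvd {r : L[X][X]} {n : ℕ} (hr : r ∣ G ^ n) :
    ψ (up G) ^ n ∈ Ideal.span {ψ (up r)} := by
  rw [Ideal.mem_span_singleton, ← map_pow, ← map_pow]
  exact map_dvd ψ (map_dvd up hr)

variable {κ : Type} [Fintype κ]

/-- the divisors of the `g j` -/
private noncomputable def Ψ [IsDedekindDomain A] (ψ : (RatFunc L)[X][X] →+* A) (G : L[X][X])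
    (g : κ → L[X][X]) :
    (κ → ℤ) →ₗ[ℤ] ({P : Ideal A // P.IsPrime ∧ ψ (up G) ∈ P} → ℤ) :=
  Fintype.linearCombination ℤ fun j => w ψ G (g j)

private theorem Ψ_apply [IsDedekindDomain A] (g : κ → L[X][X]) (x : κ → ℤ) :
    Ψ ψ G g x = ∑ j, x j • w ψ G (g j) := Fintype.linearCombination_apply ..

private theorem w_mem [IsDedekindDomain A] (h : Pencil F G) (H : Cv F G A ψ) (g : κ → L[X][X])
    (hcov : ∀ π : L[X][X], Prime π → π ∣ G → ∃ j, g j ∣ π) (hg : ∀ j, Prime (g j))
    (r : L[X][X]) (n : ℕ) (hr : r ∣ G ^ n) : w ψ G r ∈ LinearMap.range (Ψ ψ G g) := by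
  classical
  revert hr
  refine UniqueFactorizationMonoid.induction_on_prime
    (P := fun r : L[X][X] => r ∣ G ^ n → w ψ G r ∈ LinearMap.range (Ψ ψ G g)) r ?_ ?_ ?_
  · intro h0
    exact absurd (zero_dvd_iff.1 h0) (pow_ne_zero n h.ne)
  · intro u hu _
    rw [w_unit hu]
    exact Submodule.zero_mem _
  · intro a π ha hπ ih hd
    rw [w_mul h H hπ.ne_zero ha]
    refine Submodule.add_mem _ ?_ (ih (dvd_of_mul_left_dvd hd))
    obtain ⟨j, hj⟩ := hcov π hπ (hπ.dvd_of_dvd_pow (dvd_of_mul_right_dvd hd))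
    rw [← w_assoc ((hg j).irreducible.associated_of_dvd hπ.irreducible hj)]
    refine ⟨Pi.single j 1, ?_⟩
    rw [Ψ_apply, Finset.sum_eq_single j]
    · rw [Pi.single_eq_same, one_smul]
    · intro i _ hi
      rw [Pi.single_eq_of_ne hi, zero_smul]
    · intro hi
      exact absurd (Finset.mem_univ _) hi

private theorem Ψ_inj [IsDedekindDomain A] (h : Pencil F G) (H : Cv F G A ψ)
    [Fintype {P : Ideal A // P.IsPrime ∧ ψ (up G) ∈ P}]
    (hu : ∀ u : A, IsUnit u → ∃ c : RatFunc L, u = ψ (ct c)) (g : κ → L[X][X])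
    (hg : ∀ j, Prime (g j)) (hne : ∀ i j, g i ∣ g j → i = j) (hdvd : ∀ j, g j ∣ G) :
    Function.Injective (Ψ ψ G g) := by
  classical
  rw [injective_iff_map_eq_zero]
  intro x hx
  let p : L[X][X] := ∏ j, g j ^ (x j).toNat
  let q : L[X][X] := ∏ j, g j ^ (-x j).toNat
  have hp0 : p ≠ 0 := Finset.prod_ne_zero_iff.2 fun j _ => pow_ne_zero _ (hg j).ne_zero
  have hq0 : q ≠ 0 := Finset.prod_ne_zero_iff.2 fun j _ => pow_ne_zero _ (hg j).ne_zero
  have hwp : w ψ G p = ∑ j, ((x j).toNat : ℤ) • w ψ G (g j) := by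
    rw [w_prod h H _ _ fun j _ => pow_ne_zero _ (hg j).ne_zero]
    exact Finset.sum_congr rfl fun j _ => w_pow h H (hg j).ne_zero _
  have hwq : w ψ G q = ∑ j, ((-x j).toNat : ℤ) • w ψ G (g j) := by
    rw [w_prod h H _ _ fun j _ => pow_ne_zero _ (hg j).ne_zero]
    exact Finset.sum_congr rfl fun j _ => w_pow h H (hg j).ne_zero _
  have hw : w ψ G p = w ψ G q := by
    rw [← sub_eq_zero, hwp, hwq, ← Finset.sum_sub_distrib, ← hx, Ψ_apply]
    refine Finset.sum_congr rfl fun j _ => ?_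
    rw [← sub_smul, Int.toNat_sub_toNat_neg]
  have hdp : p ∣ G ^ (∑ j, ((x j).toNat + (-x j).toNat)) := by
    rw [← Finset.prod_pow_eq_pow_sum]
    refine Finset.prod_dvd_prod_of_dvd _ _ fun j _ => ?_
    exact (pow_dvd_pow_of_dvd (hdvd j) _).trans (pow_dvd_pow _ (Nat.le_add_right _ _))
  have hdq : q ∣ G ^ (∑ j, ((x j).toNat + (-x j).toNat)) := by
    rw [← Finset.prod_pow_eq_pow_sum]
    refine Finset.prod_dvd_prod_of_dvd _ _ fun j _ => ?_
    exact (pow_dvd_pow_of_dvd (hdvd j) _).trans (pow_dvd_pow _ (Nat.le_add_left _ _))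
  have hI := dv_inj (sp_ne h H hp0) (sp_ne h H hq0) (up_dvd hdp) (up_dvd hdq) hw
  obtain ⟨u, hu'⟩ := (Ideal.span_singleton_eq_span_singleton.1 hI).symm
  have hrel : IsRelPrime p q := by
    refine IsRelPrime.prod_left fun i _ => IsRelPrime.prod_right fun j _ => ?_
    by_cases hij : i = j
    · subst hij
      rcases le_total 0 (x i) with h1 | h1
      · rw [show (-x i).toNat = 0 by omega, pow_zero]
        exact isRelPrime_one_right
      · rw [show (x i).toNat = 0 by omega, pow_zero]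
        exact isRelPrime_one_left
    · refine IsRelPrime.pow ?_
      rw [(hg i).irreducible.isRelPrime_iff_not_dvd]
      exact fun h1 => hij (hne i j h1)
  have h2 := unit_indep h H hu p q _ hdp hdq hrel u u.isUnit (by rw [← hu', mul_comm])
  funext j
  have h3 : (x j).toNat = 0 := by
    by_contra h4
    have h5 : IsUnit (g j ^ (x j).toNat) :=
      isUnit_of_dvd_unit (Finset.dvd_prod_of_mem (fun j => g j ^ (x j).toNat)
        (Finset.mem_univ j)) h2.1
    exact (hg j).not_isUnit ((isUnit_pow_iff h4).1 h5)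
  have h4 : (-x j).toNat = 0 := by
    by_contra h4
    have h5 : IsUnit (g j ^ (-x j).toNat) :=
      isUnit_of_dvd_unit (Finset.dvd_prod_of_mem (fun j => g j ^ (-x j).toNat)
        (Finset.mem_univ j)) h2.2
    exact (hg j).not_isUnit ((isUnit_pow_iff h4).1 h5)
  rw [Pi.zero_apply]
  omega

private theorem ker_le [IsDedekindDomain A] (h : Pencil F G) (hm : IrrMembers F G)
    (H : Cv F G A ψ) [Fintype {P : Ideal A // P.IsPrime ∧ ψ (up G) ∈ P}] (g : κ → L[X][X])
    (hcov : ∀ π : L[X][X], Prime π → π ∣ G → ∃ j, g j ∣ π) (hg : ∀ j, Prime (g j)) :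
    LinearMap.ker (Φ ψ G) ≤ LinearMap.range (Ψ ψ G g) := by
  classical
  intro n hn
  rw [LinearMap.mem_ker] at hn
  let S : Type := {P : Ideal A // P.IsPrime ∧ ψ (up G) ∈ P}
  have hD : w ψ G G ∈ LinearMap.range (Ψ ψ G g) := w_mem h H g hcov hg G 1 (by rw [pow_one])
  have hDpos : ∀ P : S, 1 ≤ w ψ G G P := by
    intro P
    have h1 := cnt_pos (sp_ne h H h.ne) P.2.1 ((Ideal.span_singleton_le_iff_mem _).2 P.2.2)
    rw [w, dv]
    exact_mod_cast h1
  let k : ℕ := ∑ P : S, (n P).natAbs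
  have hk : ∀ P : S, 0 ≤ n P + k * w ψ G G P := by
    intro P
    have h1 : (n P).natAbs ≤ k :=
      Finset.single_le_sum (f := fun P : S => (n P).natAbs) (fun _ _ => Nat.zero_le _)
        (Finset.mem_univ P)
    have h2 : |n P| ≤ (k : ℤ) := by
      rw [Int.abs_eq_natAbs]
      exact_mod_cast h1
    have h3 := neg_abs_le (n P)
    have h4 := hDpos P
    have h5 : (k : ℤ) * 1 ≤ k * w ψ G G P := mul_le_mul_of_nonneg_left h4 (by positivity)
    linarith
  let m : S → ℕ := fun P => (n P + k * w ψ G G P).toNat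
  have hm' : ∀ P, (m P : ℤ) = n P + k * w ψ G G P := fun P => Int.toNat_of_nonneg (hk P)
  let I : Ideal A := ∏ P : S, P.1 ^ m P
  have hI0 : I ≠ ⊥ := Finset.prod_ne_zero_iff.2 fun P _ => pow_ne_zero _ (S_ne h H P)
  have hdvI : dv ψ G I = n + (k : ℤ) • w ψ G G := by
    rw [dv_prod h H m]
    funext P
    rw [hm' P, Pi.add_apply, Pi.smul_apply, smul_eq_mul]
  have hGI : ψ (up G) ^ (∑ P : S, m P) ∈ I := by
    rw [← Finset.prod_pow_eq_pow_sum]
    exact Ideal.prod_mem_prod fun P _ => Ideal.pow_mem_pow P.2.2 _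
  have hcls : cls I = 0 := by
    rw [← Φ_dv h H hI0 hGI, hdvI, map_add, map_smul, hn, zero_add]
    have h1 : Φ ψ G (w ψ G G) = cls (Ideal.span {ψ (up G)}) :=
      Φ_dv h H (sp_ne h H h.ne) (N := 1) (by rw [pow_one]; exact Ideal.mem_span_singleton_self _)
    rw [h1, cls_span, smul_zero]
  obtain ⟨e, he⟩ := (cls_eq_zero hI0).1 hcls
  rw [he, Ideal.mem_span_singleton] at hGI
  obtain ⟨c, r, s, hc, ⟨n1, hr⟩, ⟨n2, hs⟩, hers⟩ := unit_thm h hm H e _ hGI
  have hr0 : r ≠ 0 := fun h0 => pow_ne_zero n1 h.ne (zero_dvd_iff.1 (h0 ▸ hr))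
  have hs0 : s ≠ 0 := fun h0 => pow_ne_zero n2 h.ne (zero_dvd_iff.1 (h0 ▸ hs))
  have hcu : IsUnit (ψ (ct c)) := ((IsUnit.mk0 c hc).map ct).map ψ
  have h1 : Ideal.span {e} * Ideal.span {ψ (up s)} = Ideal.span {ψ (up r)} := by
    rw [Ideal.span_singleton_mul_span_singleton, hers,
      Ideal.span_singleton_mul_left_unit hcu]
  have h2 : dv ψ G I + w ψ G s = w ψ G r := by
    rw [w, w, ← dv_mul hI0 (sp_ne h H hs0), he, h1]
  have h3 : n = w ψ G r - w ψ G s - (k : ℤ) • w ψ G G := by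
    rw [← h2, hdvI]
    abel
  rw [h3]
  exact Submodule.sub_mem _ (Submodule.sub_mem _ (w_mem h H g hcov hg r n1 hr)
    (w_mem h H g hcov hg s n2 hs)) (Submodule.smul_mem _ _ hD)

private theorem range_le [IsDedekindDomain A] (h : Pencil F G)
    (H : Cv F G A ψ) [Fintype {P : Ideal A // P.IsPrime ∧ ψ (up G) ∈ P}] (g : κ → L[X][X])
    (hg : ∀ j, Prime (g j)) (hdvd : ∀ j, g j ∣ G) :
    LinearMap.range (Ψ ψ G g) ≤ LinearMap.ker (Φ ψ G) := by
  rintro - ⟨x, rfl⟩
  rw [LinearMap.mem_ker, Ψ_apply, map_sum]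
  refine Finset.sum_eq_zero fun j _ => ?_
  rw [map_smul]
  have h1 : Φ ψ G (w ψ G (g j)) = cls (Ideal.span {ψ (up (g j))}) :=
    Φ_dv h H (sp_ne h H (hg j).ne_zero) (N := 1) (up_dvd (by rw [pow_one]; exact hdvd j))
  rw [h1, cls_span, smul_zero]

end main

theorem pic_rank {L : Type} [Field L] {F G : L[X][X]} (h : Pencil F G) (hm : IrrMembers F G)
    {A : Type} [CommRing A] {ψ : (RatFunc L)[X][X] →+* A} (H : Cv F G A ψ)
    (hu : ∀ u : A, IsUnit u → ∃ c : RatFunc L, u = ψ (ct c)) {κ : Type}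
    [Fintype κ] (g : κ → L[X][X]) (hg : ∀ j, Prime (g j)) (hne : ∀ i j, g i ∣ g j → i = j)
    (hdvd : ∀ j, g j ∣ G) (hcov : ∀ π : L[X][X], Prime π → π ∣ G → ∃ j, g j ∣ π) :
    Module.Finite ℤ (Additive (CommRing.Pic A)) ∧
      Module.finrank ℤ (Additive (CommRing.Pic A)) + Fintype.card κ =
        Nat.card {P : Ideal A // P.IsPrime ∧ ψ (up G) ∈ P} := by
  classical
  have := cv_dedekind h H
  have := fin_S h H
  let _ : Fintype {P : Ideal A // P.IsPrime ∧ ψ (up G) ∈ P} := Fintype.ofFinite _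
  have e2 : Additive (ClassGroup A) ≃+ Additive (CommRing.Pic A) :=
    MulEquiv.toAdditive (ClassGroup.equivPic A)
  have e3 : Additive (ClassGroup A) ≃ₗ[ℤ] Additive (CommRing.Pic A) := e2.toIntLinearEquiv
  have hs := Φ_surj h H
  have hfin : Module.Finite ℤ (Additive (ClassGroup A)) := Module.Finite.of_surjective _ hs
  refine ⟨Module.Finite.equiv e3, ?_⟩
  have h1 := Submodule.finrank_quotient_add_finrank (LinearMap.ker (Φ ψ G))
  have h2 := (LinearMap.quotKerEquivOfSurjective (Φ ψ G) hs).finrank_eq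
  rw [h2, le_antisymm (ker_le h hm H g hcov hg) (range_le h H g hg hdvd),
    LinearMap.finrank_range_of_inj (Ψ_inj h H hu g hg hne hdvd), Module.finrank_fintype_fun_eq_card,
    Module.finrank_fintype_fun_eq_card] at h1
  rw [← e3.finrank_eq, h1, Nat.card_eq_fintype_card]

/-- proof: only the surjectivity of `Φ` and the finiteness of `S` -/
theorem pic_finite {L : Type} [Field L] {F G : L[X][X]} (h : Pencil F G)
    {A : Type} [CommRing A] {ψ : (RatFunc L)[X][X] →+* A} (H : Cv F G A ψ) :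
    Module.Finite ℤ (Additive (CommRing.Pic A)) := by
  classical
  have := cv_dedekind h H
  have := fin_S h H
  let _ : Fintype {P : Ideal A // P.IsPrime ∧ ψ (up G) ∈ P} := Fintype.ofFinite _
  have e2 : Additive (ClassGroup A) ≃+ Additive (CommRing.Pic A) :=
    MulEquiv.toAdditive (ClassGroup.equivPic A)
  have e3 : Additive (ClassGroup A) ≃ₗ[ℤ] Additive (CommRing.Pic A) := e2.toIntLinearEquiv
  have hfin : Module.Finite ℤ (Additive (ClassGroup A)) :=
    Module.Finite.of_surjective _ (Φ_surj h H)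
  exact Module.Finite.equiv e3

end Pool.Agent.Lib.MP_1a0ddd_nt.W
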