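import Pool.Agent.Lib.MP_1a0ddd_nt.W.Wt

/-! `C_{ab}` pencils are pencils with irreducible members and constant units. -/

set_option autoImplicit false

namespace Pool.Agent.Lib.MP_1a0ddd_nt.W

open Polynomial

/-- coprime over the fraction field: a constant lies in the ideal -/
private theorem cab_clear {A L : Type} [CommRing A] [IsDomain A] [Field L] [Algebra A L]
    [IsFractionRing A L] (F G : A[X])
    (h : IsCoprime (F.map (algebraMap A L)) (G.map (algebraMap A L))) :
    ∃ c : A, c ≠ 0 ∧ C c ∈ Ideal.span {F, G} := by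
  obtain ⟨u, v, huv⟩ := h
  obtain ⟨b1, hm1, hb1⟩ := IsLocalization.integerNormalization_spec (nonZeroDivisors A) u
  obtain ⟨b2, hm2, hb2⟩ := IsLocalization.integerNormalization_spec (nonZeroDivisors A) v
  set q1 := IsLocalization.integerNormalization (nonZeroDivisors A) u
  set q2 := IsLocalization.integerNormalization (nonZeroDivisors A) v
  have h1 : q1.map (algebraMap A L) = C (algebraMap A L b1) * u := by
    rw [hb1, Algebra.smul_def]
    rfl
  have h2 : q2.map (algebraMap A L) = C (algebraMap A L b2) * v := by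
    rw [hb2, Algebra.smul_def]
    rfl
  refine ⟨b1 * b2, mul_ne_zero (nonZeroDivisors.ne_zero hm1) (nonZeroDivisors.ne_zero hm2), ?_⟩
  rw [Ideal.mem_span_pair]
  refine ⟨C b2 * q1, C b1 * q2, ?_⟩
  apply Polynomial.map_injective (algebraMap A L) (IsFractionRing.injective A L)
  rw [Polynomial.map_add, Polynomial.map_mul, Polynomial.map_mul, Polynomial.map_mul,
    Polynomial.map_mul, h1, h2, Polynomial.map_C, Polynomial.map_C, Polynomial.map_C, map_mul,
    C_mul]
  linear_combination (C (algebraMap A L b1) * C (algebraMap A L b2)) * huv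

/-- denominators in `R` of a polynomial in `K[x][y]` -/
private theorem cab_den {R K : Type} [CommRing R] [IsDomain R] [Field K] [Algebra R K]
    [IsFractionRing R K] (P : K[X][X]) : ∃ d : R, d ≠ 0 ∧ ∃ Q : R[X][X],
      Q.map (mapRingHom (algebraMap R K)) = C (C (algebraMap R K d)) * P := by
  induction P using Polynomial.induction_on' with
  | add P1 P2 h1 h2 =>
    obtain ⟨d1, hd1, Q1, hQ1⟩ := h1
    obtain ⟨d2, hd2, Q2, hQ2⟩ := h2
    refine ⟨d1 * d2, mul_ne_zero hd1 hd2, C (C d2) * Q1 + C (C d1) * Q2, ?_⟩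
    simp only [Polynomial.map_add, Polynomial.map_mul, hQ1, hQ2, Polynomial.map_C,
      coe_mapRingHom, map_mul]
    ring
  | monomial n f =>
    induction f using Polynomial.induction_on' with
    | add P1 P2 h1 h2 =>
      obtain ⟨d1, hd1, Q1, hQ1⟩ := h1
      obtain ⟨d2, hd2, Q2, hQ2⟩ := h2
      refine ⟨d1 * d2, mul_ne_zero hd1 hd2, C (C d2) * Q1 + C (C d1) * Q2, ?_⟩
      simp only [Polynomial.map_add, Polynomial.map_mul, hQ1, hQ2, Polynomial.map_C,
        coe_mapRingHom, map_mul, map_add]
      ring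
    | monomial m k =>
      obtain ⟨r, s, hs, hrs⟩ := IsFractionRing.div_surjective (A := R) k
      have hs0 : s ≠ 0 := nonZeroDivisors.ne_zero hs
      have hs1 : algebraMap R K s ≠ 0 := by
        intro h0
        exact hs0 ((map_eq_zero_iff _ (IsFractionRing.injective R K)).mp h0)
      refine ⟨s, hs0, Polynomial.monomial n (Polynomial.monomial m r), ?_⟩
      rw [Polynomial.map_monomial, coe_mapRingHom, Polynomial.map_monomial,
        Polynomial.C_mul_monomial, Polynomial.C_mul_monomial]
      congr 2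
      rw [← hrs]
      field_simp

/-- proof: first over the fraction field `K` of `R`: `F` is irreducible (`cab_irreducible`,
`cab_map`) and monic in `y` of degree `a`, `G ≠ 0` has `y`-degree less than `a` (`low_natDegree`),
so `F` and `G` are coprime in `K(x)[y]` (Gauss). Then clear denominators. -/
theorem cab_cop {R : Type} [CommRing R] [IsDomain R] {a b : ℕ} (ha : 0 < a) (hb : 0 < b)
    (hab : a.Coprime b) {F G : R[X][X]} (hF : IsCab a b F) (hG : Low a b G) (h0 : G ≠ 0) :
    ∃ ρ : R[X], ρ ≠ 0 ∧ C ρ ∈ Ideal.span {F, G} := by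
  let K := FractionRing R
  have hinj : Function.Injective (algebraMap R K) := IsFractionRing.injective R K
  set φ := algebraMap R K with hφ
  set F1 := F.map (mapRingHom φ) with hF1
  set G1 := G.map (mapRingHom φ) with hG1
  have hmi : Function.Injective (mapRingHom φ) := Polynomial.map_injective φ hinj
  have hmi2 : Function.Injective (Polynomial.map (mapRingHom φ)) :=
    Polynomial.map_injective _ hmi
  have cF : IsCab a b F1 := cab_map φ hinj hF
  have cG : Low a b G1 := low_map φ hG
  have hG0 : G1 ≠ 0 := by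
    intro h
    apply h0
    apply hmi2
    rw [Polynomial.map_zero]
    exact h
  have hdeg : G1.natDegree < F1.natDegree := by
    rw [cF.deg]
    exact low_natDegree ha cG
  have hirr := cab_irreducible ha hb hab cF
  have hirr2 : Irreducible (F1.map (algebraMap K[X] (RatFunc K))) :=
    (cF.monic.irreducible_iff_irreducible_map_fraction_map (K := RatFunc K)).mp hirr
  have hcop : IsCoprime (F1.map (algebraMap K[X] (RatFunc K)))
      (G1.map (algebraMap K[X] (RatFunc K))) := by
    rw [hirr2.coprime_iff_not_dvd]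
    intro hd
    have hinj3 : Function.Injective (algebraMap K[X] (RatFunc K)) :=
      IsFractionRing.injective _ _
    have hne : G1.map (algebraMap K[X] (RatFunc K)) ≠ 0 := by
      intro h
      apply hG0
      apply Polynomial.map_injective _ hinj3
      rw [Polynomial.map_zero]
      exact h
    have := Polynomial.natDegree_le_of_dvd hd hne
    rw [Polynomial.natDegree_map_eq_of_injective hinj3,
      Polynomial.natDegree_map_eq_of_injective hinj3] at this
    omega
  obtain ⟨ρ, hρ, hmem⟩ := cab_clear F1 G1 hcop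
  rw [Ideal.mem_span_pair] at hmem
  obtain ⟨u, v, huv⟩ := hmem
  obtain ⟨d1, hd1, U, hU⟩ := cab_den (R := R) u
  obtain ⟨d2, hd2, V, hV⟩ := cab_den (R := R) v
  obtain ⟨d3, hd3, S, hS⟩ := cab_den (R := R) (C ρ)
  -- `S` is a constant in `y`
  have hSC : S = C (S.coeff 0) := by
    apply hmi2
    rw [Polynomial.map_C]
    have h1 : (S.map (mapRingHom φ)) = C (C (φ d3) * ρ) := by
      rw [hS, ← C_mul]
    rw [h1]
    congr 1
    have h2 : (S.map (mapRingHom φ)).coeff 0 = C (φ d3) * ρ := by
      rw [h1, Polynomial.coeff_C_zero]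
    rw [Polynomial.coeff_map] at h2
    exact h2.symm
  have hS0 : S ≠ 0 := by
    intro h
    rw [h, Polynomial.map_zero] at hS
    have h1 : C (C (φ d3)) * (C ρ : K[X][X]) ≠ 0 := by
      apply mul_ne_zero
      · rw [Ne, C_eq_zero, C_eq_zero]
        intro h2
        exact hd3 ((map_eq_zero_iff _ hinj).mp h2)
      · rw [Ne, C_eq_zero]
        exact hρ
    exact h1 hS.symm
  refine ⟨C (d1 * d2) * S.coeff 0, ?_, ?_⟩
  · apply mul_ne_zero
    · rw [Ne, C_eq_zero]
      exact mul_ne_zero hd1 hd2
    · intro h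
      apply hS0
      rw [hSC, h, C_0]
  · rw [Ideal.mem_span_pair]
    refine ⟨C (C (d2 * d3)) * U, C (C (d1 * d3)) * V, ?_⟩
    have hS1 : C (C (d1 * d2) * S.coeff 0) = C (C (d1 * d2)) * S := by
      conv_rhs => rw [hSC]
      exact C_mul
    rw [hS1]
    apply hmi2
    simp only [Polynomial.map_add, Polynomial.map_mul, Polynomial.map_C, coe_mapRingHom]
    rw [hU, hV, hS]
    simp only [map_mul]
    rw [← huv]
    ring

theorem cab_pencil {R : Type} [CommRing R] [IsDomain R] {a b : ℕ} (ha : 0 < a) (hb : 0 < b)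
    (hab : a.Coprime b) {F G : R[X][X]} (hF : IsCab a b F) (hG : Low a b G) (h0 : G ≠ 0)
    (hr : Regular F G) : Pencil F G :=
  ⟨hF.monic, by rw [hF.deg]; exact low_natDegree ha hG, h0, cab_cop ha hb hab hF hG h0, hr⟩

theorem cab_irrMembers {L : Type} [Field L] {a b : ℕ} (ha : 0 < a) (hb : 0 < b)
    (hab : a.Coprime b) {F G : L[X][X]} (hF : IsCab a b F) (hG : Low a b G) :
    IrrMembers F G := by
  intro q hq
  have : Fact (Irreducible q) := ⟨hq⟩
  exact cab_irreducible ha hb hab (cab_add ha hb
    (cab_map (AdjoinRoot.of q) (AdjoinRoot.of q).injective hF) (low_map (AdjoinRoot.of q) hG)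
    (AdjoinRoot.root q))

/-- proof: `cab_unit` for representatives modulo the monic polynomial `pen F G` -/
theorem cab_constUnits {L : Type} [Field L] {a b : ℕ} (ha : 0 < a) (hb : 0 < b)
    (hab : a.Coprime b) {F G : L[X][X]} (hF : IsCab a b F) (hG : Low a b G) :
    ConstUnits F G := by
  intro u hu
  have hpen : IsCab a b (pen F G) := cab_add ha hb
    (cab_map (RatFunc.C : L →+* RatFunc L) (RatFunc.C : L →+* RatFunc L).injective hF)
    (low_map (RatFunc.C : L →+* RatFunc L) hG) RatFunc.X
  have hdeg := hpen.deg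
  have hne : pen F G ≠ 1 := by
    intro h
    rw [h, natDegree_one] at hdeg
    omega
  obtain ⟨v, huv⟩ := hu.exists_right_inv
  have hred : ∀ w : Crv F G, ∃ W : (RatFunc L)[X][X], AdjoinRoot.mk (pen F G) W = w ∧
      W.natDegree < a := by
    intro w
    obtain ⟨W, hW⟩ := AdjoinRoot.mk_surjective (g := pen F G) w
    refine ⟨W %ₘ pen F G, ?_, ?_⟩
    · rw [← hW]
      symm
      rw [AdjoinRoot.mk_eq_mk]
      refine ⟨W /ₘ pen F G, ?_⟩
      have := Polynomial.modByMonic_add_div W (pen F G)
      linear_combination -this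
    · rw [← hdeg]
      exact Polynomial.natDegree_modByMonic_lt W hpen.monic hne
  obtain ⟨U, hU, hU2⟩ := hred u
  obtain ⟨V, hV, hV2⟩ := hred v
  have hdvd : pen F G ∣ U * V - 1 := by
    rw [← AdjoinRoot.mk_eq_zero, map_sub, map_mul, map_one, hU, hV]
    exact sub_eq_zero.mpr huv
  obtain ⟨c, hc⟩ := cab_unit ha hb hab hpen hU2 hV2 hdvd
  refine ⟨c, ?_⟩
  rw [← hU, hc]
  rfl

end Pool.Agent.Lib.MP_1a0ddd_nt.W
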