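import Pool.Agent.Lib.MP_1a0ddd_nt.W.State
import Pool.Agent.Lib.MP_1a0ddd_nt.W.Pic
import Pool.Agent.Lib.MP_1a0ddd_nt.W.Frc
import Pool.Agent.Lib.MP_1a0ddd_nt.W.Cnt
import Pool.Agent.Lib.MP_1a0ddd_nt.W.Cab
import Pool.Agent.Lib.MP_1a0ddd_nt.Quad.TowerT

/-! Assembly of `PlanePencils`. -/

set_option autoImplicit false

namespace Pool.Agent.Lib.MP_1a0ddd_nt.W

open Polynomial

theorem fin_finite {R : Type} [CommRing R] {F G : R[X][X]} (h : Pencil F G) {L : Type} [Field L]
    (φ : R →+* L) (hφ : Function.Injective φ) :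
    IsDedekindDomain (Crv (bc φ F) (bc φ G)) ∧
      Module.Finite ℤ (Additive (CommRing.Pic (Crv (bc φ F) (bc φ G)))) :=
  ⟨cv_dedekind (pencil_map φ hφ h) (cv_crv _ _), pic_finite (pencil_map φ hφ h) (cv_crv _ _)⟩

theorem fin_rank {R : Type} [CommRing R] [IsDomain R] {F G : R[X][X]} (h : Pencil F G)
    {d m N : ℕ} {P : Fin m → Ideal R[X][X]} {Q : Fin N → Ideal R[X][X]}
    (hP : Comps (Ideal.span {G}) (d + 1) P) (hQ : Comps (Ideal.span {F, G}) d Q)
    (K : Type) [Field K] [Algebra R K] [IsFractionRing R K]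
    (hm : IrrMembers (bc (algebraMap R K) F) (bc (algebraMap R K) G))
    (hu : ConstUnits (bc (algebraMap R K) F) (bc (algebraMap R K) G)) :
    Module.finrank ℤ
      (Additive (CommRing.Pic (Crv (bc (algebraMap R K) F) (bc (algebraMap R K) G)))) + m = N := by
  have h1 := pencil_map (algebraMap R K) (IsFractionRing.injective R K) h
  obtain ⟨g, hg, hne, hdvd, hcov⟩ := frac_factors h hP K
  have H := cv_crv (bc (algebraMap R K) F) (bc (algebraMap R K) G)
  obtain ⟨h2, h3⟩ := pic_rank h1 hm H (fun u hu' => hu u hu') g hg hne hdvd hcov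
  rw [Fintype.card_fin] at h3
  rw [h3]
  exact frac_base h hQ K H

theorem fin_nagao {R : Type} [CommRing R] [IsDomain R] [Algebra.FiniteType ℤ R] {F G : R[X][X]}
    (h : Pencil F G) {d m N : ℕ} {P : Fin m → Ideal R[X][X]} {Q : Fin N → Ideal R[X][X]}
    (hP : Comps (Ideal.span {G}) (d + 1) P) (hQ : Comps (Ideal.span {F, G}) d Q)
    (hK : ∀ (K : Type) [Field K] [Algebra R K] [IsFractionRing R K],
      IrrMembers (bc (algebraMap R K) F) (bc (algebraMap R K) G) ∧
      ConstUnits (bc (algebraMap R K) F) (bc (algebraMap R K) G)) :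
    ∃ r, r + m = N ∧ Nagao F G d r := by
  have key : ∀ (K : Type) [Field K] [Algebra R K] [IsFractionRing R K], Module.finrank ℤ
      (Additive (CommRing.Pic (Crv (bc (algebraMap R K) F) (bc (algebraMap R K) G)))) + m = N :=
    fun K _ _ _ => fin_rank h hP hQ K (hK K).1 (hK K).2
  have h1 := key (FractionRing R)
  refine ⟨_, h1, ?_, fun K _ _ _ => ?_, fun L _ φ hφ => fin_finite h φ hφ⟩
  · have h2 := avg_mean F G P Q hP hQ
    have h3 : (m : ℝ) - N = -((Module.finrank ℤ (Additive (CommRing.Pic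
        (Crv (bc (algebraMap R (FractionRing R)) F)
          (bc (algebraMap R (FractionRing R)) G)))) : ℕ) : ℝ) := by
      rw [← h1]
      push_cast
      ring
    rwa [h3] at h2
  · have h2 := key K
    omega

theorem fin_cab {R : Type} [CommRing R] [IsDomain R] [Algebra.FiniteType ℤ R] {F G : R[X][X]}
    {a b : ℕ} (h : CabPencil a b F G) {d m N : ℕ} {P : Fin m → Ideal R[X][X]}
    {Q : Fin N → Ideal R[X][X]} (hP : Comps (Ideal.span {G}) (d + 1) P)
    (hQ : Comps (Ideal.span {F, G}) d Q) : ∃ r, r + m = N ∧ Nagao F G d r := by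
  refine fin_nagao (cab_pencil h.apos h.bpos h.cop h.cab h.low h.ne h.reg) hP hQ
    fun K _ _ _ => ⟨?_, ?_⟩
  · exact cab_irrMembers h.apos h.bpos h.cop
      (cab_map (algebraMap R K) (IsFractionRing.injective R K) h.cab)
      (low_map (algebraMap R K) h.low)
  · exact cab_constUnits h.apos h.bpos h.cop
      (cab_map (algebraMap R K) (IsFractionRing.injective R K) h.cab)
      (low_map (algebraMap R K) h.low)

theorem fin_tower (R : Type) [CommRing R] (d : ℕ) (h : Quad.Tower R d) :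
    IsDomain R ∧ CharZero R ∧ Algebra.FiniteType ℤ R ∧ Quad.LangWeilT R d := by
  obtain ⟨h1, h2, h3, h4⟩ := Quad.tower_spec R d h
  exact ⟨h1, h2, h3, Quad.langWeilT_of R d h4⟩

end Pool.Agent.Lib.MP_1a0ddd_nt.W
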