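import Pool.Agent.Lib.MP_1a0ddd_nt.W.Den

/-! Ideals of `L[x, y]` with `F` and `G`. -/

set_option autoImplicit false

namespace Pool.Agent.Lib.MP_1a0ddd_nt.W

open Polynomial

variable {L : Type} [Field L]

private theorem comap_max (M : Ideal L[X][X]) (hM : M.IsPrime) (ρ : L[X]) (hρ : ρ ≠ 0) (hm : C ρ ∈ M) :
    (M.comap (C : L[X] →+* L[X][X])).IsMaximal := by
  have hp : (M.comap (C : L[X] →+* L[X][X])).IsPrime := Ideal.IsPrime.comap _
  refine IsPrime.to_maximal_ideal ?_
  intro h0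
  have h1 : ρ ∈ M.comap (C : L[X] →+* L[X][X]) := Ideal.mem_comap.2 hm
  rw [h0, Ideal.mem_bot] at h1
  exact hρ h1

private theorem red_surj (I : Ideal L[X]) :
    Function.Surjective (mapRingHom (Ideal.Quotient.mk I) : L[X][X] →+* (L[X] ⧸ I)[X]) := by
  rw [coe_mapRingHom]
  exact Polynomial.map_surjective _ Ideal.Quotient.mk_surjective

private theorem red_ker (I : Ideal L[X]) :
    RingHom.ker (mapRingHom (Ideal.Quotient.mk I) : L[X][X] →+* (L[X] ⧸ I)[X]) =
      I.map (C : L[X] →+* L[X][X]) := by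
  rw [Polynomial.ker_mapRingHom, Ideal.mk_ker]

private theorem ker_le (M : Ideal L[X][X]) :
    RingHom.ker (mapRingHom (Ideal.Quotient.mk (M.comap (C : L[X] →+* L[X][X]))) :
      L[X][X] →+* (L[X] ⧸ M.comap (C : L[X] →+* L[X][X]))[X]) ≤ M := by
  rw [red_ker]
  exact Ideal.map_comap_le

private theorem dx_coeff (P : L[X][X]) (i : ℕ) : (dx P).coeff i = derivative (P.coeff i) := by
  unfold dx
  rw [finsetSum_coeff]
  simp only [coeff_C_mul, coeff_X_pow]
  by_cases hi : i ∈ P.support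
  · rw [Finset.sum_eq_single i]
    · simp
    · intro j _ hj
      rw [if_neg (Ne.symm hj), mul_zero]
    · intro h
      exact absurd hi h
  · rw [Finset.sum_eq_zero]
    · rw [notMem_support_iff.1 hi, derivative_zero]
    · intro j hj
      rw [if_neg, mul_zero]
      rintro rfl
      exact hi hj

private theorem dx_add (P Q : L[X][X]) : dx (P + Q) = dx P + dx Q := by
  ext1 i
  simp only [coeff_add, dx_coeff, derivative_add]

private theorem dx_mul (P Q : L[X][X]) : dx (P * Q) = dx P * Q + P * dx Q := by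
  ext1 i
  rw [dx_coeff, coeff_add, coeff_mul, coeff_mul, coeff_mul, map_sum, ← Finset.sum_add_distrib]
  refine Finset.sum_congr rfl fun x _ => ?_
  rw [derivative_mul, dx_coeff, dx_coeff]

private theorem dx_sq (M : Ideal L[X][X]) (P : L[X][X]) (h : P ∈ M ^ 2) : dx P ∈ M := by
  rw [pow_two] at h
  refine Submodule.mul_induction_on h ?_ ?_
  · intro a ha b hb
    rw [dx_mul]
    exact M.add_mem (M.mul_mem_left _ hb) (M.mul_mem_right _ ha)
  · intro a b ha hb
    rw [dx_add]
    exact M.add_mem ha hb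

private theorem dy_sq (M : Ideal L[X][X]) (P : L[X][X]) (h : P ∈ M ^ 2) : derivative P ∈ M := by
  rw [pow_two] at h
  refine Submodule.mul_induction_on h ?_ ?_
  · intro a ha b hb
    rw [derivative_mul]
    exact M.add_mem (M.mul_mem_left _ hb) (M.mul_mem_right _ ha)
  · intro a b ha hb
    rw [derivative_add]
    exact M.add_mem ha hb

/-- proof: `M ∩ L[x] = (p)` with `p` irreducible, and `M / p` is principal in `(L[x]/p)[y]` -/
theorem two_gen (M : Ideal L[X][X]) (hM : M.IsPrime) (ρ : L[X]) (hρ : ρ ≠ 0) (hm : C ρ ∈ M) :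
    ∃ p q : L[X][X], M = Ideal.span {p, q} := by
  have hmax := comap_max M hM ρ hρ hm
  set I : Ideal L[X] := M.comap (C : L[X] →+* L[X][X]) with hI
  let : Field (L[X] ⧸ I) := Ideal.Quotient.field I
  obtain ⟨π, hπ⟩ := (IsPrincipalIdealRing.principal I).principal
  obtain ⟨g, hg⟩ := (IsPrincipalIdealRing.principal
    (M.map (mapRingHom (Ideal.Quotient.mk I) : L[X][X] →+* (L[X] ⧸ I)[X]))).principal
  obtain ⟨q, hq⟩ := red_surj I g
  refine ⟨C π, q, le_antisymm ?_ ?_⟩
  · intro x hx
    have h1 : mapRingHom (Ideal.Quotient.mk I) x ∈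
        M.map (mapRingHom (Ideal.Quotient.mk I) : L[X][X] →+* (L[X] ⧸ I)[X]) := Ideal.mem_map_of_mem _ hx
    rw [hg] at h1
    obtain ⟨c, hc⟩ := Submodule.mem_span_singleton.1 h1
    obtain ⟨c', hc'⟩ := red_surj I c
    have h2 : x - c' * q ∈ RingHom.ker (mapRingHom (Ideal.Quotient.mk I) : L[X][X] →+* (L[X] ⧸ I)[X]) := by
      rw [RingHom.mem_ker, map_sub, map_mul, hc', hq, ← hc, smul_eq_mul, sub_self]
    rw [red_ker, hπ, Ideal.submodule_span_eq, Ideal.map_span, Set.image_singleton] at h2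
    obtain ⟨d, hd⟩ := Ideal.mem_span_singleton'.1 h2
    rw [Ideal.mem_span_pair]
    exact ⟨d, c', by rw [hd]; ring⟩
  · rw [Ideal.span_le]
    intro x hx
    rcases hx with rfl | hx
    · have : π ∈ I := by rw [hπ]; exact Submodule.mem_span_singleton_self π
      exact Ideal.mem_comap.1 this
    · rw [Set.mem_singleton_iff.1 hx]
      have h3 : mapRingHom (Ideal.Quotient.mk I) q ∈
          M.map (mapRingHom (Ideal.Quotient.mk I) : L[X][X] →+* (L[X] ⧸ I)[X]) := by
        rw [hq, hg]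
        exact Submodule.mem_span_singleton_self g
      obtain ⟨z, hz, hzq⟩ := (Ideal.mem_map_iff_of_surjective _ (red_surj I)).1 h3
      have h4 : q - z ∈ RingHom.ker (mapRingHom (Ideal.Quotient.mk I) : L[X][X] →+* (L[X] ⧸ I)[X]) := by
        rw [RingHom.mem_ker, map_sub, hzq, sub_self]
      have h5 := ker_le M h4
      have h6 := M.add_mem h5 hz
      rwa [sub_add_cancel] at h6

/-- proof: derivations map `M ^ 2` into `M`; use `h.reg` -/
theorem not_sq_mem {F G : L[X][X]} (h : Pencil F G) (M : Ideal L[X][X])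
    (hM : M.IsPrime) (hF : F ∈ M) (hG : G ∈ M) : ¬ (F ∈ M ^ 2 ∧ G ∈ M ^ 2) := by
  rintro ⟨hF2, hG2⟩
  obtain ⟨D, hD, hmem⟩ := h.reg
  have hle : sing F ⊔ sing G ≤ M := by
    refine sup_le ?_ ?_
    · unfold sing
      rw [Ideal.span_le]
      intro x hx
      simp only [Set.mem_insert_iff, Set.mem_singleton_iff] at hx
      rcases hx with rfl | rfl | rfl
      · exact hF
      · exact dx_sq M F hF2
      · exact dy_sq M F hF2
    · unfold sing
      rw [Ideal.span_le]
      intro x hx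
      simp only [Set.mem_insert_iff, Set.mem_singleton_iff] at hx
      rcases hx with rfl | rfl | rfl
      · exact hG
      · exact dx_sq M G hG2
      · exact dy_sq M G hG2
  have h1 : C (C D) ∈ M := hle hmem
  have hu : IsUnit (C (C D) : L[X][X]) := (isUnit_iff_ne_zero.2 hD).map (C.comp C : L →+* L[X][X])
  exact hM.ne_top (Ideal.eq_top_of_isUnit_mem M h1 hu)

/-- a prime ideal with `F` and `G` is maximal: the quotient is algebraic over `L` -/
theorem base_maximal {F G : L[X][X]} (h : Pencil F G) (M : Ideal L[X][X]) (hM : M.IsPrime)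
    (hF : F ∈ M) (hG : G ∈ M) : M.IsMaximal := by
  obtain ⟨ρ, hρ, hmem⟩ := h.cop
  have hm : C ρ ∈ M := by
    refine (Ideal.span_le.2 ?_) hmem
    intro x hx
    rcases hx with rfl | hx
    · exact hF
    · rw [Set.mem_singleton_iff.1 hx]
      exact hG
  have hmax := comap_max M hM ρ hρ hm
  set I : Ideal L[X] := M.comap (C : L[X] →+* L[X][X]) with hI
  let : Field (L[X] ⧸ I) := Ideal.Quotient.field I
  have hprime : (M.map (mapRingHom (Ideal.Quotient.mk I) : L[X][X] →+* (L[X] ⧸ I)[X])).IsPrime :=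
    Ideal.map_isPrime_of_surjective (red_surj I) (ker_le M)
  have hne : M.map (mapRingHom (Ideal.Quotient.mk I) : L[X][X] →+* (L[X] ⧸ I)[X]) ≠ ⊥ := by
    intro h0
    have h1 : mapRingHom (Ideal.Quotient.mk I) F ∈
        M.map (mapRingHom (Ideal.Quotient.mk I) : L[X][X] →+* (L[X] ⧸ I)[X]) := Ideal.mem_map_of_mem _ hF
    rw [h0, Ideal.mem_bot, coe_mapRingHom] at h1
    exact (h.monic.map (Ideal.Quotient.mk I)).ne_zero h1
  have hmx : (M.map (mapRingHom (Ideal.Quotient.mk I) : L[X][X] →+* (L[X] ⧸ I)[X])).IsMaximal :=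
    IsPrime.to_maximal_ideal hne
  have hcm : (M.map (mapRingHom (Ideal.Quotient.mk I) : L[X][X] →+* (L[X] ⧸ I)[X])).comap
      (mapRingHom (Ideal.Quotient.mk I)) = M := by
    rw [Ideal.comap_map_of_surjective _ (red_surj I)]
    exact sup_eq_left.2 (ker_le M)
  rw [← hcm]
  exact Ideal.comap_isMaximal_of_surjective _ (red_surj I)

end Pool.Agent.Lib.MP_1a0ddd_nt.W
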