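import Pool.Agent.Lib.MP_1a0ddd_nt.W.Bas

/-! Primes of `L(t)[x, y]/(F + t G)` which contain `G`. -/

set_option autoImplicit false

namespace Pool.Agent.Lib.MP_1a0ddd_nt.W

open Polynomial

variable {L : Type} [Field L]

private theorem tup_sum (T : L[X][X][X]) : tup T =
    ∑ i ∈ Finset.range (T.natDegree + 1), up (T.coeff i) * (ct (RatFunc.X : RatFunc L)) ^ i := by
  unfold tup
  rw [coe_eval₂RingHom, eval₂_eq_sum_range]

private theorem up_CC (l : L) : up (C (C l)) = ct (RatFunc.C l) := by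
  simp [up, ct]

private theorem mem_F {F G : L[X][X]} {A : Type} [CommRing A]
    {ψ : (RatFunc L)[X][X] →+* A} (H : Cv F G A ψ) (P : Ideal A) (hG : ψ (up G) ∈ P) :
    ψ (up F) ∈ P := by
  have h1 := cv_rel H
  have h2 : ψ (up F) = -(ψ (ct (RatFunc.X : RatFunc L)) * ψ (up G)) := by
    linear_combination h1
  rw [h2]
  exact P.neg_mem (P.mul_mem_left _ hG)

private theorem finite_quot (M : Ideal L[X][X]) (hM : M.IsMaximal) :
    Module.Finite L (L[X][X] ⧸ M) := by
  let _ : Field (L[X][X] ⧸ M) := Ideal.Quotient.field M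
  have : Algebra.FiniteType L L[X][X] :=
    Algebra.FiniteType.trans (S := L[X]) inferInstance inferInstance
  have : Algebra.FiniteType L (L[X][X] ⧸ M) :=
    Algebra.FiniteType.of_surjective (Ideal.Quotient.mkₐ L M) (Ideal.Quotient.mkₐ_surjective L M)
  exact finite_of_finite_type_of_isJacobsonRing L (L[X][X] ⧸ M)

/-- proof: in the domain `A / P` the images of `x` and `y` are algebraic over `L` (`h.cop`, `F` is
monic in `y`, and `F = -t G ∈ P`), and `t` is transcendental over `L` (`L(t)` is a subfield), hence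
over the algebraic closure of `L` -/
theorem coeff_mem {F G : L[X][X]} (h : Pencil F G) {A : Type} [CommRing A]
    {ψ : (RatFunc L)[X][X] →+* A} (H : Cv F G A ψ) (P : Ideal A) (hP : P.IsPrime)
    (hG : ψ (up G) ∈ P) (T : L[X][X][X]) (hT : ψ (tup T) ∈ P) (i : ℕ) :
    ψ (up (T.coeff i)) ∈ P := by
  obtain ⟨M, hMdef⟩ : ∃ M, M = P.comap (ψ.comp up) := ⟨_, rfl⟩
  have hFM : F ∈ M := by
    rw [hMdef]
    exact mem_F H P hG
  have hGM : G ∈ M := by
    rw [hMdef]
    exact hG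
  have hMp : M.IsPrime := by
    rw [hMdef]
    exact Ideal.comap_isPrime _ _
  have hMm : M.IsMaximal := base_maximal h M hMp hFM hGM
  have := finite_quot M hMm
  have : Algebra.IsAlgebraic L (L[X][X] ⧸ M) := Algebra.IsAlgebraic.of_finite L _
  let φ : (L[X][X] ⧸ M) →+* A ⧸ P := Ideal.quotientMap P (ψ.comp up) hMdef.le
  have hφ : ∀ u, φ (Ideal.Quotient.mk M u) = Ideal.Quotient.mk P (ψ (up u)) := fun u => rfl
  let _ : Field (L[X][X] ⧸ M) := Ideal.Quotient.field M
  let a1 : Algebra (L[X][X] ⧸ M) (A ⧸ P) := φ.toAlgebra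
  let a2 : Algebra L (A ⧸ P) := (φ.comp (algebraMap L (L[X][X] ⧸ M))).toAlgebra
  have : IsScalarTower L (L[X][X] ⧸ M) (A ⧸ P) := IsScalarTower.of_algebraMap_eq fun _ => rfl
  have : IsDomain (A ⧸ P) := (Ideal.Quotient.isDomain_iff_prime P).2 hP
  obtain ⟨τ, hτ⟩ : ∃ τ, τ = Ideal.Quotient.mk P (ψ (ct (RatFunc.X : RatFunc L))) := ⟨_, rfl⟩
  have h1 : aeval τ (T.map (Ideal.Quotient.mk M)) = 0 := by
    rw [aeval_def, eval₂_map]
    have h2 : (algebraMap (L[X][X] ⧸ M) (A ⧸ P)).comp (Ideal.Quotient.mk M) =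
        ((Ideal.Quotient.mk P).comp ψ).comp up := rfl
    rw [h2, hτ]
    have h3 := hom_eval₂ T up ((Ideal.Quotient.mk P).comp ψ) (ct (RatFunc.X : RatFunc L))
    have h4 : eval₂ up (ct (RatFunc.X : RatFunc L)) T = tup T := rfl
    rw [h4] at h3
    have h5 : ((Ideal.Quotient.mk P).comp ψ) (tup T) = 0 := Ideal.Quotient.eq_zero_iff_mem.2 hT
    rw [h5] at h3
    exact h3.symm
  have h2 : T.map (Ideal.Quotient.mk M) = 0 := by
    by_contra hne
    have h3 : IsAlgebraic (L[X][X] ⧸ M) τ := ⟨_, hne, h1⟩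
    have h4 : IsAlgebraic L τ := h3.restrictScalars L
    obtain ⟨p, hp, hp0⟩ := h4
    let χ : RatFunc L →+* A ⧸ P := (Ideal.Quotient.mk P).comp (ψ.comp ct)
    have h5 : aeval τ p = χ (algebraMap L[X] (RatFunc L) p) := by
      rw [aeval_def]
      have h6 : algebraMap L (A ⧸ P) = (χ.comp (algebraMap L[X] (RatFunc L))).comp C := by
        ext l
        have h7 : (χ.comp (algebraMap L[X] (RatFunc L))).comp C l = χ (RatFunc.C l) := by
          simp only [RingHom.comp_apply, RatFunc.algebraMap_C]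
        rw [h7]
        change Ideal.Quotient.mk P (ψ (up (C (C l)))) = Ideal.Quotient.mk P (ψ (ct (RatFunc.C l)))
        rw [up_CC]
      have h8 : τ = (χ.comp (algebraMap L[X] (RatFunc L))) X := by
        rw [hτ]
        simp only [RingHom.comp_apply, RatFunc.algebraMap_X]
        rfl
      rw [h6, h8, ← hom_eval₂, eval₂_C_X]
      rfl
    rw [h5] at hp0
    have h6 : algebraMap L[X] (RatFunc L) p = 0 := by
      have := χ.injective
      exact this (by rw [hp0, map_zero])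
    exact hp ((map_eq_zero_iff _ (RatFunc.algebraMap_injective L)).1 h6)
  have h3 : T.coeff i ∈ M := by
    rw [← Ideal.Quotient.eq_zero_iff_mem, ← coeff_map, h2, coeff_zero]
  rw [hMdef] at h3
  exact h3

private theorem unit_ct {A : Type} [CommRing A] (ψ : (RatFunc L)[X][X] →+* A) (c : L[X])
    (hc : c ≠ 0) : IsUnit (ψ (ct (algebraMap L[X] (RatFunc L) c))) := by
  have h1 : algebraMap L[X] (RatFunc L) c ≠ 0 := fun h =>
    hc ((map_eq_zero_iff _ (RatFunc.algebraMap_injective L)).1 h)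
  exact (IsUnit.mk0 _ h1).map (ψ.comp ct)

/-- proof: `clear_den` and `coeff_mem` -/
theorem map_comap {F G : L[X][X]} (h : Pencil F G) {A : Type} [CommRing A]
    {ψ : (RatFunc L)[X][X] →+* A} (H : Cv F G A ψ) (P : Ideal A) (hP : P.IsPrime)
    (hG : ψ (up G) ∈ P) : (P.comap (ψ.comp up)).map (ψ.comp up) = P := by
  apply le_antisymm Ideal.map_comap_le
  intro a ha
  obtain ⟨u, rfl⟩ := H.surj a
  obtain ⟨c, T, hc, hT⟩ := clear_den u
  have h1 : ψ (tup T) = ψ (ct (algebraMap L[X] (RatFunc L) c)) * ψ u := by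
    rw [hT, map_mul]
  have h2 : ψ (tup T) ∈ P := by
    rw [h1]
    exact P.mul_mem_left _ ha
  have h3 := coeff_mem h H P hP hG T h2
  have h4 : ψ (tup T) ∈ (P.comap (ψ.comp up)).map (ψ.comp up) := by
    rw [tup_sum, map_sum]
    refine Ideal.sum_mem _ fun i _ => ?_
    rw [map_mul]
    exact Ideal.mul_mem_right _ _ (Ideal.mem_map_of_mem (ψ.comp up) (h3 i))
  rw [h1] at h4
  exact (Ideal.unit_mul_mem_iff_mem _ (unit_ct ψ c hc)).1 h4

private theorem pen_eq (F G : L[X][X]) : pen F G = up F + ct (RatFunc.X : RatFunc L) * up G := rfl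

/-- proof: `κ = L[x, y]/M` is a field (`base_maximal`); the map
`L(t)[x, y] → κ(t)` kills `pen F G` and `M`; so `M A` is proper, and `M` is maximal -/
theorem exists_over {F G : L[X][X]} (h : Pencil F G) {A : Type} [CommRing A]
    {ψ : (RatFunc L)[X][X] →+* A} (H : Cv F G A ψ) (M : Ideal L[X][X]) (hM : M.IsPrime)
    (hF : F ∈ M) (hG : G ∈ M) : ∃ P : Ideal A, P.IsPrime ∧ P.comap (ψ.comp up) = M := by
  have hMm : M.IsMaximal := base_maximal h M hM hF hG
  let _ : Field (L[X][X] ⧸ M) := Ideal.Quotient.field M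
  let c : L →+* (L[X][X] ⧸ M) := (Ideal.Quotient.mk M).comp (C.comp C)
  let φ : L[X] →+* RatFunc (L[X][X] ⧸ M) :=
    (algebraMap (L[X][X] ⧸ M)[X] (RatFunc (L[X][X] ⧸ M))).comp (mapRingHom c)
  have hφ : Function.Injective φ :=
    (RatFunc.algebraMap_injective _).comp (Polynomial.map_injective c c.injective)
  let ℓ : RatFunc L →+* RatFunc (L[X][X] ⧸ M) := RatFunc.liftRingHom φ
    (nonZeroDivisors_le_comap_nonZeroDivisors_of_injective _ hφ)
  have hℓC : ∀ l, ℓ (RatFunc.C l) = RatFunc.C (c l) := by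
    intro l
    have h1 : RatFunc.C l = algebraMap L[X] (RatFunc L) (C l) := (RatFunc.algebraMap_C l).symm
    rw [h1]
    have h2 : ℓ (algebraMap L[X] (RatFunc L) (C l)) = φ (C l) := RatFunc.liftRingHom_algebraMap _ _ _
    rw [h2]
    have h3 : φ (C l) = algebraMap (L[X][X] ⧸ M)[X] (RatFunc (L[X][X] ⧸ M)) (C (c l)) := by
      simp [φ]
    rw [h3, RatFunc.algebraMap_C]
  let θ : (RatFunc L)[X][X] →+* RatFunc (L[X][X] ⧸ M) :=
    eval₂RingHom (eval₂RingHom ℓ (RatFunc.C (Ideal.Quotient.mk M (C X))))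
      (RatFunc.C (Ideal.Quotient.mk M X))
  have hθ : θ.comp up = (RatFunc.C).comp (Ideal.Quotient.mk M) := by
    apply Polynomial.ringHom_ext'
    · apply Polynomial.ringHom_ext'
      · ext l
        have h1 := hℓC l
        simp [θ, up, h1, c]
      · simp [θ, up]
    · simp [θ, up]
  have hup : ∀ u, θ (up u) = RatFunc.C (Ideal.Quotient.mk M u) := fun u => RingHom.congr_fun hθ u
  have hpen : θ (pen F G) = 0 := by
    rw [pen_eq, map_add, map_mul, hup, hup, Ideal.Quotient.eq_zero_iff_mem.2 hF,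
      Ideal.Quotient.eq_zero_iff_mem.2 hG, map_zero, mul_zero, add_zero]
  have hker : RingHom.ker ψ ≤ RingHom.ker θ := by
    intro u hu
    obtain ⟨v, rfl⟩ := (H.ker u).1 hu
    rw [RingHom.mem_ker, map_mul, hpen, zero_mul]
  have hprime : (RingHom.ker θ).IsPrime := RingHom.ker_isPrime θ
  refine ⟨(RingHom.ker θ).map ψ, Ideal.map_isPrime_of_surjective H.surj hker, ?_⟩
  rw [← Ideal.comap_comap, Ideal.comap_map_of_surjective' ψ H.surj, sup_eq_left.2 hker]
  ext u
  rw [Ideal.mem_comap, RingHom.mem_ker, hup, ← Ideal.Quotient.eq_zero_iff_mem]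
  constructor
  · intro h1
    exact RatFunc.C_injective (h1.trans (map_zero _).symm)
  · intro h1
    exact (congrArg RatFunc.C h1).trans (map_zero _)

private theorem loc_aux {A : Type} [CommRing A] (P : Ideal A) (hP : P.IsPrime) (a b p q : A)
    (hgen : P = Ideal.span {p, q}) (hrel : a * p + b * q = 0) (ha : a ∉ P) :
    ∃ π ∈ P, ∀ w ∈ P, ∃ s, s ∉ P ∧ π ∣ s * w := by
  refine ⟨q, ?_, ?_⟩
  · rw [hgen]
    exact Ideal.subset_span (by simp)
  · intro w hw
    rw [hgen] at hw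
    obtain ⟨u, v, rfl⟩ := Ideal.mem_span_pair.1 hw
    exact ⟨a, ha, a * v - u * b, by linear_combination u * hrel⟩

/-- proof: `M = P ∩ L[x, y] = (p, q)` (`h.cop`, `two_gen`), `F = α p + β q`, `G = α' p + β' q`,
so `(α + t α') p + (β + t β') q = 0` in `A`; by `coeff_mem` and `not_sq_mem` one of the two
coefficients is not in `P`; and `P = (p, q) A` (`map_comap`) -/
theorem loc_base {F G : L[X][X]} (h : Pencil F G) {A : Type} [CommRing A]
    {ψ : (RatFunc L)[X][X] →+* A} (H : Cv F G A ψ) (P : Ideal A) (hP : P.IsPrime)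
    (hG : ψ (up G) ∈ P) : ∃ π ∈ P, ∀ w ∈ P, ∃ s, s ∉ P ∧ π ∣ s * w := by
  obtain ⟨M, hMdef⟩ : ∃ M, M = P.comap (ψ.comp up) := ⟨_, rfl⟩
  have hmem : ∀ u, u ∈ M ↔ ψ (up u) ∈ P := by
    intro u
    rw [hMdef]
    exact Iff.rfl
  have hFM : F ∈ M := (hmem F).2 (mem_F H P hG)
  have hGM : G ∈ M := (hmem G).2 hG
  have hMp : M.IsPrime := by
    rw [hMdef]
    exact Ideal.comap_isPrime _ _
  obtain ⟨ρ, hρ, hρ'⟩ := h.cop
  have hFG : Ideal.span {F, G} ≤ M := by
    rw [Ideal.span_le]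
    rintro u (rfl | rfl)
    · exact hFM
    · exact hGM
  obtain ⟨p, q, hpq⟩ := two_gen M hMp ρ hρ (hFG hρ')
  have hPgen : P = Ideal.span {ψ (up p), ψ (up q)} := by
    have h1 := map_comap h H P hP hG
    rw [← hMdef, hpq, Ideal.map_span, Set.image_pair] at h1
    exact h1.symm
  have hF2 := hFM
  have hG2 := hGM
  rw [hpq] at hF2 hG2
  obtain ⟨α, β, hαβ⟩ := Ideal.mem_span_pair.1 hF2
  obtain ⟨α', β', hαβ'⟩ := Ideal.mem_span_pair.1 hG2
  have hpM : p ∈ M := by
    rw [hpq]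
    exact Ideal.subset_span (by simp)
  have hqM : q ∈ M := by
    rw [hpq]
    exact Ideal.subset_span (by simp)
  have htup : ∀ u v : L[X][X], tup (C u + C v * X) =
      up u + up v * ct (RatFunc.X : RatFunc L) := by
    intro u v
    unfold tup
    simp
  have hrel : (ψ (up α) + ψ (up α') * ψ (ct (RatFunc.X : RatFunc L))) * ψ (up p) +
      (ψ (up β) + ψ (up β') * ψ (ct (RatFunc.X : RatFunc L))) * ψ (up q) = 0 := by
    have h1 := cv_rel H
    rw [← hαβ, ← hαβ'] at h1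
    simp only [map_add, map_mul] at h1
    linear_combination h1
  have hcase : ∀ u v : L[X][X],
      ψ (up u) + ψ (up v) * ψ (ct (RatFunc.X : RatFunc L)) ∈ P → u ∈ M ∧ v ∈ M := by
    intro u v huv
    have h1 : ψ (tup (C u + C v * X)) ∈ P := by
      rw [htup, map_add, map_mul]
      exact huv
    have h2 := coeff_mem h H P hP hG (C u + C v * X) h1
    have h3 := h2 0
    have h4 := h2 1
    rw [coeff_add, coeff_C_zero, coeff_C_mul, coeff_X_zero, mul_zero, add_zero] at h3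
    rw [coeff_add, coeff_C_mul, coeff_X_one, mul_one, coeff_C_succ, zero_add] at h4
    exact ⟨(hmem u).2 h3, (hmem v).2 h4⟩
  by_cases ha : ψ (up α) + ψ (up α') * ψ (ct (RatFunc.X : RatFunc L)) ∈ P
  · by_cases hb : ψ (up β) + ψ (up β') * ψ (ct (RatFunc.X : RatFunc L)) ∈ P
    · exfalso
      obtain ⟨a1, a2⟩ := hcase _ _ ha
      obtain ⟨b1, b2⟩ := hcase _ _ hb
      refine not_sq_mem h M hMp hFM hGM ⟨?_, ?_⟩
      · rw [← hαβ, sq]
        exact Ideal.add_mem _ (Ideal.mul_mem_mul a1 hpM) (Ideal.mul_mem_mul b1 hqM)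
      · rw [← hαβ', sq]
        exact Ideal.add_mem _ (Ideal.mul_mem_mul a2 hpM) (Ideal.mul_mem_mul b2 hqM)
    · refine loc_aux P hP _ (ψ (up α) + ψ (up α') * ψ (ct (RatFunc.X : RatFunc L)))
        (ψ (up q)) (ψ (up p)) ?_ ?_ hb
      · rw [hPgen, Set.pair_comm]
      · rw [← hrel, add_comm]
  · exact loc_aux P hP _ _ (ψ (up p)) (ψ (up q)) hPgen hrel ha

end Pool.Agent.Lib.MP_1a0ddd_nt.W
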