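import Pool.Agent.Lib.MP_1a0ddd_nt.W.Gen
import Pool.Agent.Lib.MP_1a0ddd_nt.W.Ovr

/-! `L(t)[x, y]/(F + t G)` is a Dedekind domain. -/

set_option autoImplicit false

namespace Pool.Agent.Lib.MP_1a0ddd_nt.W

open Polynomial

private theorem dvr_of_loc (A : Type) [CommRing A] [IsDomain A] [IsNoetherianRing A]
    (P : Ideal A) [hP : P.IsPrime] (h0 : P ≠ ⊥)
    (h : ∃ π ∈ P, ∀ w ∈ P, ∃ s, s ∉ P ∧ π ∣ s * w) :
    IsDiscreteValuationRing (Localization.AtPrime P) := by
  obtain ⟨π, hπ, hw⟩ := h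
  have hN : IsNoetherianRing (Localization.AtPrime P) :=
    IsLocalization.isNoetherianRing P.primeCompl _ inferInstance
  have hnf := IsLocalization.AtPrime.not_isField A h0 (Localization.AtPrime P)
  have key : (IsLocalRing.maximalIdeal (Localization.AtPrime P)).IsPrincipal →
      IsDiscreteValuationRing (Localization.AtPrime P) :=
    ((IsDiscreteValuationRing.TFAE (Localization.AtPrime P) hnf).out 0 4).mpr
  apply key
  refine ⟨algebraMap A (Localization.AtPrime P) π, ?_⟩
  rw [← IsLocalization.AtPrime.map_eq_maximalIdeal P (Localization.AtPrime P)]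
  apply le_antisymm
  · rw [Ideal.map_le_iff_le_comap]
    intro w hwP
    obtain ⟨s, hs, c, hc⟩ := hw w hwP
    have hu : IsUnit (algebraMap A (Localization.AtPrime P) s) :=
      IsLocalization.map_units (Localization.AtPrime P) (⟨s, hs⟩ : P.primeCompl)
    rw [Ideal.mem_comap]
    refine (Ideal.unit_mul_mem_iff_mem _ hu).mp ?_
    rw [← map_mul, hc, map_mul]
    exact Ideal.mul_mem_right _ _ (Ideal.mem_span_singleton_self _)
  · rw [Ideal.submodule_span_eq, Ideal.span_singleton_le_iff_mem]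
    exact Ideal.mem_map_of_mem _ hπ

/-- proof: `IsDedekindDomainDvr`; the maximal ideal of the localisation at `P` is principal
(`P` is finitely generated), `IsDiscreteValuationRing.TFAE` -/
theorem dedekind_of_loc (A : Type) [CommRing A] [IsDomain A] [IsNoetherianRing A]
    (h : ∀ P : Ideal A, P.IsPrime → P ≠ ⊥ → ∃ π ∈ P, ∀ w ∈ P, ∃ s, s ∉ P ∧ π ∣ s * w) :
    IsDedekindDomain A := by
  have hD : IsDedekindDomainDvr A :=
    { toIsNoetherian := inferInstance
      is_dvr_at_nonzero_prime := fun P h0 hP => dvr_of_loc A P h0 (h P hP h0) }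
  infer_instance

/-- proof: `loc_elt` with `exists_elt` if `G ∉ P`, `loc_base` if `G ∈ P` -/
theorem cv_dedekind {L : Type} [Field L] {F G : L[X][X]} (h : Pencil F G)
    {A : Type} [CommRing A] {ψ : (RatFunc L)[X][X] →+* A} (H : Cv F G A ψ) :
    IsDedekindDomain A := by
  have := cv_domain h H
  have := cv_noeth H
  refine dedekind_of_loc A fun P hP h0 => ?_
  by_cases hG : ψ (up G) ∈ P
  · exact loc_base h H P hP hG
  · obtain ⟨π, hπ, hm⟩ := exists_elt h H P hP h0 hG
    refine ⟨ψ (up π), hm, fun w hw => ?_⟩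
    obtain ⟨N, hN⟩ := loc_elt h H P hP hG π hπ hm w hw
    exact ⟨ψ (up G) ^ N, fun hc => hG (hP.mem_of_pow_mem N hc), hN⟩

end Pool.Agent.Lib.MP_1a0ddd_nt.W
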