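import Pool.Agent.Lib.MP_1a0ddd_nt.Quad.TBase

/-! Pencils `F + t G` of plane curves over arbitrary base rings: definitions. In `R[X][X]` the
inner variable is `x` and the outer variable is `y`. -/

set_option autoImplicit false

namespace Pool.Agent.Lib.MP_1a0ddd_nt.W

open Polynomial Filter Topology

/-- `P = y^a + ∑_{i < a} P_i(x) y^i` with `deg P_0 = b` and `a deg P_i + b i < a b` for `0 < i < a` -/
structure IsCab {R : Type} [CommRing R] (a b : ℕ) (P : R[X][X]) : Prop where
  monic : P.Monic
  deg : P.natDegree = a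
  zero : (P.coeff 0).natDegree = b
  lt : ∀ i, 0 < i → i < a → a * (P.coeff i).natDegree + b * i < a * b

/-- all monomials `x^j y^i` of `P` satisfy `a j + b i < a b` -/
def Low {R : Type} [CommRing R] (a b : ℕ) (P : R[X][X]) : Prop :=
  ∀ i, P.coeff i ≠ 0 → a * (P.coeff i).natDegree + b * i < a * b

/-- the partial derivative in `x`; the one in `y` is `derivative P` -/
noncomputable def dx {R : Type} [CommRing R] (P : R[X][X]) : R[X][X] :=
  ∑ i ∈ P.support, C (derivative (P.coeff i)) * X ^ i

/-- the ideal of `F` and its partial derivatives: the singular points of `F = 0` -/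
noncomputable def sing {R : Type} [CommRing R] (F : R[X][X]) : Ideal R[X][X] :=
  Ideal.span {F, dx F, derivative F}

/-- over the generic point of `Spec R` no point is singular on both curves `F = 0` and `G = 0` -/
def Regular {R : Type} [CommRing R] (F G : R[X][X]) : Prop :=
  ∃ D : R, D ≠ 0 ∧ C (C D) ∈ sing F ⊔ sing G

/-- change of coefficients -/
noncomputable def bc {R S : Type} [CommRing R] [CommRing S] (φ : R →+* S) (F : R[X][X]) :
    S[X][X] :=
  F.map (mapRingHom φ)

/-- `F + θ G` with coefficients in `S` -/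
noncomputable def lin {R S : Type} [CommRing R] [CommRing S] (φ : R →+* S) (θ : S)
    (F G : R[X][X]) : S[X][X] :=
  bc φ F + C (C θ) * bc φ G

/-- the pencil `F + t G`: `F` is monic in `y`, `G ≠ 0` has smaller degree in `y`, the two are
coprime, and no base point is singular on both curves -/
structure Pencil {R : Type} [CommRing R] (F G : R[X][X]) : Prop where
  monic : F.Monic
  lt : G.natDegree < F.natDegree
  ne : G ≠ 0
  cop : ∃ ρ : R[X], ρ ≠ 0 ∧ C ρ ∈ Ideal.span {F, G}
  reg : Regular F G

/-- the member of the pencil over every closed point of the affine line is irreducible: for all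
irreducible `q(t)`, the polynomial `F + θ G` over the field `L[t]/q(t)`, `θ` the class of `t` -/
def IrrMembers {L : Type} [Field L] (F G : L[X][X]) : Prop :=
  ∀ q : L[X], Irreducible q → Irreducible (lin (AdjoinRoot.of q) (AdjoinRoot.root q) F G)

/-- the polynomial `F + t G` over `L(t)` -/
noncomputable def pen {L : Type} [Field L] (F G : L[X][X]) : (RatFunc L)[X][X] :=
  lin RatFunc.C RatFunc.X F G

/-- the affine curve `F + t G = 0` over `L(t)`: the ring `L(t)[x, y]/(F + t G)` -/
def Crv {L : Type} [Field L] (F G : L[X][X]) : Type := AdjoinRoot (pen F G)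

noncomputable instance {L : Type} [Field L] (F G : L[X][X]) : CommRing (Crv F G) :=
  AdjoinRoot.instCommRing _

/-- the constants `S` in `S[x, y]/(P)` -/
noncomputable def cmap {S : Type} [CommRing S] (P : S[X][X]) : S →+* AdjoinRoot P :=
  (AdjoinRoot.mk P).comp (C.comp C)

/-- the constants `L(t)` in `L(t)[x, y]/(F + t G)` -/
noncomputable def cst {L : Type} [Field L] (F G : L[X][X]) : RatFunc L →+* Crv F G :=
  cmap (pen F G)

/-- every unit of `L(t)[x, y]/(F + t G)` is a constant -/
def ConstUnits {L : Type} [Field L] (F G : L[X][X]) : Prop :=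
  ∀ u : Crv F G, IsUnit u → ∃ c : RatFunc L, u = cst F G c

/-- the evaluation `P ↦ P_z(x, y)` in `F_p` -/
noncomputable def val {R : Type} [CommRing R] {p : ℕ} (z : R →+* ZMod p) (q : ZMod p × ZMod p) :
    R[X][X] →+* ZMod p :=
  eval₂RingHom (eval₂RingHom z q.1) q.2

/-- `p - #{(x, y) ∈ F_p² : F_z(x, y) + t G_z(x, y) = 0}`; this is the trace of Frobenius
`p + 1 - #C(F_p)` of the fibre over `(z, t)` if there is one point at infinity -/
noncomputable def trc {R : Type} [CommRing R] (F G : R[X][X]) (p : ℕ) (z : R →+* ZMod p)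
    (t : ZMod p) : ℤ :=
  (p : ℤ) - Nat.card {q : ZMod p × ZMod p // val z q F + t * val z q G = 0}

/-- the sum of the `trc` over the `F_p`-points of `Spec R × A¹`, divided by `p^(d+1)` -/
noncomputable def avg {R : Type} [CommRing R] (F G : R[X][X]) (d p : ℕ) : ℝ :=
  (∑ᶠ z : R →+* ZMod p, ∑ᶠ t : ZMod p, (trc F G p z t : ℝ)) / (p : ℝ) ^ (d + 1)

/-- the `P i` are the minimal primes over `I`; they have zero intersection with `R`, and the
quotients have the point count of dimension `e` -/
structure Comps {R : Type} [CommRing R] (I : Ideal R[X][X]) (e : ℕ) {n : ℕ}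
    (P : Fin n → Ideal R[X][X]) : Prop where
  le : ∀ i, I ≤ P i
  pow : ∃ k : ℕ, (∏ i, P i) ^ k ≤ I
  inc : ∀ i j, P i ≤ P j → i = j
  prime : ∀ i, (P i).IsPrime
  dom : ∀ i (r : R), C (C r) ∈ P i → r = 0
  count : ∀ i, Quad.LangWeilT (R[X][X] ⧸ P i) e

end Pool.Agent.Lib.MP_1a0ddd_nt.W
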