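import Pool.Agent.Lib.MP_1a0ddd_nt.W.Defs

/-! The ring `L(t)[x, y]/(F + t G)` and its elements with denominators. -/

set_option autoImplicit false

namespace Pool.Agent.Lib.MP_1a0ddd_nt.W

open Polynomial

variable {L : Type} [Field L]

/-- abstract form of `L(t)[x, y]/(F + t G)` -/
structure Cv (F G : L[X][X]) (A : Type) [CommRing A] (ψ : (RatFunc L)[X][X] →+* A) : Prop where
  surj : Function.Surjective ψ
  ker : ∀ u, ψ u = 0 ↔ pen F G ∣ u

/-- `L[x, y] → L(t)[x, y]` -/
noncomputable def up : L[X][X] →+* (RatFunc L)[X][X] := mapRingHom (mapRingHom RatFunc.C)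

/-- `L(t) → L(t)[x, y]` -/
noncomputable def ct : RatFunc L →+* (RatFunc L)[X][X] := C.comp C

/-- `L[x, y][t] → L(t)[x, y]` -/
noncomputable def tup : L[X][X][X] →+* (RatFunc L)[X][X] :=
  eval₂RingHom up (ct (RatFunc.X : RatFunc L))

/-- `L[t] → L[x, y][t]` -/
noncomputable def lft : L[X] →+* L[X][X][X] := mapRingHom (C.comp C)

/-- `G^n T(-F/G)` for `T ∈ L[x, y][t]` -/
noncomputable def hmg (F G : L[X][X]) (n : ℕ) (T : L[X][X][X]) : L[X][X] :=
  ∑ i ∈ Finset.range (n + 1), T.coeff i * (-F) ^ i * G ^ (n - i)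

private theorem Den_dx_coeff {R : Type} [CommRing R] (P : R[X][X]) (i : ℕ) :
    (dx P).coeff i = derivative (P.coeff i) := by
  unfold dx
  rw [finsetSum_coeff]
  simp only [coeff_C_mul_X_pow]
  rw [Finset.sum_ite_eq P.support i]
  split_ifs with h
  · rfl
  · rw [notMem_support_iff.1 h, derivative_zero]

theorem dx_map {R S : Type} [CommRing R] [CommRing S] (φ : R →+* S) (P : R[X][X]) :
    dx (P.map (mapRingHom φ)) = (dx P).map (mapRingHom φ) := by
  ext i : 1
  rw [coeff_map, Den_dx_coeff, Den_dx_coeff, coeff_map]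
  exact derivative_map _ _

theorem pencil_map {R S : Type} [CommRing R] [CommRing S] (φ : R →+* S)
    (hφ : Function.Injective φ) {F G : R[X][X]} (h : Pencil F G) :
    Pencil (F.map (mapRingHom φ)) (G.map (mapRingHom φ)) := by
  have hi : Function.Injective (mapRingHom φ) := map_injective φ hφ
  have hm : ∀ (P : R[X][X]) (s : Set R[X][X]), P ∈ Ideal.span s →
      P.map (mapRingHom φ) ∈ Ideal.span ((mapRingHom (mapRingHom φ)) '' s) := by
    intro P s hP
    have h1 := Ideal.mem_map_of_mem (mapRingHom (mapRingHom φ)) hP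
    rw [Ideal.map_span] at h1
    exact h1
  refine ⟨h.monic.map _, ?_, ?_, ?_, ?_⟩
  · rw [natDegree_map_eq_of_injective hi, natDegree_map_eq_of_injective hi]
    exact h.lt
  · exact (Polynomial.map_ne_zero_iff hi).2 h.ne
  · obtain ⟨ρ, hρ, hs⟩ := h.cop
    refine ⟨ρ.map φ, (Polynomial.map_ne_zero_iff hφ).2 hρ, ?_⟩
    have h1 := hm _ _ hs
    rw [map_C, Set.image_pair] at h1
    exact h1
  · obtain ⟨D, hD, hs⟩ := h.reg
    refine ⟨φ D, (map_ne_zero_iff φ hφ).2 hD, ?_⟩
    unfold sing at hs ⊢
    rw [← Ideal.span_union] at hs ⊢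
    have h1 := hm _ _ hs
    simp only [Set.image_union, Set.image_insert_eq, Set.image_singleton] at h1
    rw [map_C] at h1
    simp only [coe_mapRingHom, map_C] at h1
    rw [dx_map, dx_map, derivative_map, derivative_map]
    exact h1

/-- proof: a common divisor divides `ρ(x)` and the monic polynomial `F` -/
theorem rel_prime {F G : L[X][X]} (h : Pencil F G) : IsRelPrime F G := by
  intro d hF hG
  obtain ⟨ρ, hρ, hs⟩ := h.cop
  obtain ⟨a, b, hab⟩ := Ideal.mem_span_pair.1 hs
  have hd : d ∣ C ρ := by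
    rw [← hab]
    exact dvd_add (hF.mul_left a) (hG.mul_left b)
  have h0 : d.natDegree = 0 := by
    have h1 := natDegree_le_of_dvd hd (C_ne_zero.2 hρ)
    rw [natDegree_C] at h1
    omega
  rw [eq_C_of_natDegree_eq_zero h0] at hF ⊢
  exact isUnit_C.2 (h.monic.C_dvd_iff_isUnit.1 hF)

theorem pen_monic {F G : L[X][X]} (h : Pencil F G) :
    (pen F G).Monic ∧ (pen F G).natDegree = F.natDegree := by
  have hi : Function.Injective (mapRingHom (RatFunc.C : L →+* RatFunc L)) :=
    map_injective _ (RatFunc.C : L →+* RatFunc L).injective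
  have hF : (F.map (mapRingHom (RatFunc.C : L →+* RatFunc L))).natDegree = F.natDegree :=
    natDegree_map_eq_of_injective hi _
  have hG : (C (C (RatFunc.X : RatFunc L)) *
      G.map (mapRingHom (RatFunc.C : L →+* RatFunc L))).natDegree < F.natDegree := by
    refine lt_of_le_of_lt (natDegree_C_mul_le _ _) ?_
    rw [natDegree_map_eq_of_injective hi]
    exact h.lt
  unfold pen lin bc
  constructor
  · refine (h.monic.map _).add_of_left (degree_lt_degree ?_)
    rw [hF]
    exact hG
  · rw [natDegree_add_eq_left_of_natDegree_lt (by rw [hF]; exact hG), hF]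

private theorem Den_tup_lft (c : L[X]) : tup (lft c) = ct (algebraMap L[X] (RatFunc L) c) := by
  have h : (tup (L := L)).comp lft = ct.comp (algebraMap L[X] (RatFunc L)) := by
    ext
    · simp [tup, lft, up, ct, RatFunc.algebraMap_C]
    · simp [tup, lft, up, ct, RatFunc.algebraMap_X]
  exact RingHom.congr_fun h c

/-- common denominators -/
theorem clear_den (u : (RatFunc L)[X][X]) : ∃ (c : L[X]) (T : L[X][X][X]), c ≠ 0 ∧
    tup T = ct (algebraMap L[X] (RatFunc L) c) * u := by
  induction u using Polynomial.induction_on' with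
  | add u v hu hv =>
    obtain ⟨c, T, hc, hT⟩ := hu
    obtain ⟨c', T', hc', hT'⟩ := hv
    refine ⟨c * c', lft c' * T + lft c * T', mul_ne_zero hc hc', ?_⟩
    rw [map_add, map_mul, map_mul, Den_tup_lft, Den_tup_lft, hT, hT', map_mul, map_mul]
    ring
  | monomial n a =>
    induction a using Polynomial.induction_on' with
    | add u v hu hv =>
      obtain ⟨c, T, hc, hT⟩ := hu
      obtain ⟨c', T', hc', hT'⟩ := hv
      refine ⟨c * c', lft c' * T + lft c * T', mul_ne_zero hc hc', ?_⟩
      rw [map_add, map_mul, map_mul, Den_tup_lft, Den_tup_lft, hT, hT', map_mul, map_mul,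
        map_add (monomial n)]
      ring
    | monomial m r =>
      induction r using RatFunc.induction_on with
      | f p q hq =>
        refine ⟨q, lft p * C (C (X ^ m) * X ^ n), hq, ?_⟩
        have hq0 : algebraMap L[X] (RatFunc L) q ≠ 0 := RatFunc.algebraMap_ne_zero hq
        have e : ct (algebraMap L[X] (RatFunc L) q) *
            ct (algebraMap L[X] (RatFunc L) p / algebraMap L[X] (RatFunc L) q) =
            ct (algebraMap L[X] (RatFunc L) p) := by
          rw [← map_mul, mul_div_cancel₀ _ hq0]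
        have e2 : (monomial n (monomial m (algebraMap L[X] (RatFunc L) p /
            algebraMap L[X] (RatFunc L) q)) : (RatFunc L)[X][X]) =
            ct (algebraMap L[X] (RatFunc L) p / algebraMap L[X] (RatFunc L) q) *
              (C (X ^ m) * X ^ n) := by
          rw [← C_mul_X_pow_eq_monomial, ← C_mul_X_pow_eq_monomial, C_mul]
          simp only [ct, RingHom.coe_comp, Function.comp_apply]
          ring
        have e3 : tup (C (C (X ^ m) * X ^ n) : L[X][X][X]) =
            (C (X ^ m) * X ^ n : (RatFunc L)[X][X]) := by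
          simp only [tup, coe_eval₂RingHom, eval₂_C]
          simp [up]
        rw [map_mul, Den_tup_lft, e2, ← mul_assoc, e, e3]

theorem tup_lft (c : L[X]) : tup (lft c) = ct (algebraMap L[X] (RatFunc L) c) := by
  exact Den_tup_lft c

/-- `L[x][t] → L(t)[x]` is injective -/
private theorem Den_tmap_inj : Function.Injective
    (eval₂RingHom (mapRingHom (RatFunc.C : L →+* RatFunc L)) (C (RatFunc.X : RatFunc L))) := by
  have h : eval₂RingHom (mapRingHom (RatFunc.C : L →+* RatFunc L)) (C (RatFunc.X : RatFunc L)) =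
      (mapRingHom (algebraMap L[X] (RatFunc L))).comp
        ((Bivariate.swap (R := L)).toAlgHom.toRingHom) := by
    ext <;> simp [Bivariate.swap_apply]
  rw [h, RingHom.coe_comp]
  exact (map_injective _ (RatFunc.algebraMap_injective L)).comp (Bivariate.swap (R := L)).injective

theorem tup_inj : Function.Injective (tup (L := L)) := by
  have h : (tup (L := L)) = (mapRingHom (eval₂RingHom (mapRingHom (RatFunc.C : L →+* RatFunc L))
      (C (RatFunc.X : RatFunc L)))).comp
        ((Bivariate.swap (R := L[X])).toAlgHom.toRingHom) := by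
    ext <;> simp [Bivariate.swap_apply, tup, up, ct]
  rw [h, RingHom.coe_comp]
  exact (map_injective _ Den_tmap_inj).comp (Bivariate.swap (R := L[X])).injective

private theorem Den_tup_P (F G : L[X][X]) : tup (C G * X + C F) = pen F G := by
  simp [tup, up, ct, pen, lin, bc, add_comm, mul_comm]

private theorem Den_prime {F G : L[X][X]} (h : Pencil F G) : Prime (C G * X + C F) :=
  (irreducible_C_mul_X_add_C h.ne (rel_prime h).symm).prime

private theorem Den_ct_unit {c : L[X]} (hc : c ≠ 0) :
    IsUnit (ct (algebraMap L[X] (RatFunc L) c)) :=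
  (isUnit_iff_ne_zero.2 (RatFunc.algebraMap_ne_zero hc)).map ct

/-- proof: `C F + X C G` is prime in `L[x, y][t]` (`irreducible_C_mul_X_add_C`, `rel_prime`, UFD)
and is mapped to `pen F G`; clear the denominators of a factorisation (`clear_den`, `tup_inj`) -/
theorem pen_irreducible {F G : L[X][X]} (h : Pencil F G) : Irreducible (pen F G) := by
  have hP := Den_prime h
  have hpos : 0 < F.natDegree := lt_of_le_of_lt (Nat.zero_le _) h.lt
  have hmon := pen_monic h
  have hne : pen F G ≠ 0 := hmon.1.ne_zero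
  have key : ∀ u v : (RatFunc L)[X][X], pen F G = u * v → ∀ (c : L[X]) (U W : L[X][X][X]),
      c ≠ 0 → tup U = ct (algebraMap L[X] (RatFunc L) c) * u → (C G * X + C F) * W = U →
      IsUnit v := by
    intro u v huv c U W hc hU hW
    have h1 : pen F G ∣ u := by
      have h2 : pen F G ∣ ct (algebraMap L[X] (RatFunc L) c) * u := by
        rw [← hU, ← hW, map_mul, Den_tup_P]
        exact Dvd.intro _ rfl
      exact (Den_ct_unit hc).dvd_mul_left.1 h2
    have hu0 : u ≠ 0 := by
      rintro rfl
      exact hne (by rw [huv, zero_mul])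
    obtain ⟨w, hw⟩ := h1
    have h3 : u * (v * w) = u * 1 := by
      rw [← mul_assoc, ← huv, ← hw, mul_one]
    exact IsUnit.of_mul_eq_one _ (mul_left_cancel₀ hu0 h3)
  refine ⟨fun hu => ?_, fun u v huv => ?_⟩
  · have h1 := natDegree_eq_zero_of_isUnit hu
    rw [hmon.2] at h1
    omega
  · obtain ⟨c, U, hc, hU⟩ := clear_den u
    obtain ⟨c', V, hc', hV⟩ := clear_den v
    have h1 : (C G * X + C F) * lft (c * c') = U * V := by
      apply tup_inj
      rw [map_mul tup, Den_tup_P, tup_lft, map_mul tup U V, hU, hV, map_mul, map_mul, huv]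
      ring
    rcases hP.dvd_or_dvd (Dvd.intro _ h1) with ⟨W, hW⟩ | ⟨W, hW⟩
    · exact Or.inr (key u v huv c U W hc hU hW.symm)
    · exact Or.inl (key v u (by rw [huv, mul_comm]) c' V W hc' hV hW.symm)

theorem cv_domain {F G : L[X][X]} (h : Pencil F G) {A : Type} [CommRing A]
    {ψ : (RatFunc L)[X][X] →+* A} (H : Cv F G A ψ) : IsDomain A := by
  have hp : Prime (pen F G) := (pen_irreducible h).prime
  have hn : Nontrivial A := by
    refine ⟨⟨1, 0, fun h1 => ?_⟩⟩
    rw [← map_one ψ, H.ker] at h1
    exact hp.not_isUnit (isUnit_of_dvd_one h1)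
  have hz : NoZeroDivisors A := by
    refine ⟨fun {a b} hab => ?_⟩
    obtain ⟨u, rfl⟩ := H.surj a
    obtain ⟨v, rfl⟩ := H.surj b
    rw [← map_mul, H.ker] at hab
    rcases hp.dvd_or_dvd hab with h1 | h1
    · exact Or.inl ((H.ker u).2 h1)
    · exact Or.inr ((H.ker v).2 h1)
  exact NoZeroDivisors.to_isDomain A

theorem cv_rel {F G : L[X][X]} {A : Type} [CommRing A]
    {ψ : (RatFunc L)[X][X] →+* A} (H : Cv F G A ψ) :
    ψ (up F) + ψ (ct (RatFunc.X : RatFunc L)) * ψ (up G) = 0 := by
  rw [← map_mul, ← map_add, H.ker]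
  have e : up F + ct (RatFunc.X : RatFunc L) * up G = pen F G := by
    simp [up, ct, pen, lin, bc]
  rw [e]

theorem cv_crv (F G : L[X][X]) : Cv F G (Crv F G) (AdjoinRoot.mk (pen F G)) := by
  exact ⟨AdjoinRoot.mk_surjective, fun u => AdjoinRoot.mk_eq_zero⟩

theorem up_hmg {F G : L[X][X]} {A : Type} [CommRing A]
    {ψ : (RatFunc L)[X][X] →+* A} (H : Cv F G A ψ) (n : ℕ) (T : L[X][X][X])
    (hT : T.natDegree ≤ n) : ψ (up (hmg F G n T)) = ψ (up G) ^ n * ψ (tup T) := by
  have hr := cv_rel H
  have e : tup T = ∑ i ∈ Finset.range (n + 1), up (T.coeff i) * ct (RatFunc.X : RatFunc L) ^ i :=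
    eval₂_eq_sum_range' _ (Nat.lt_succ_of_le hT) _
  rw [e, hmg, map_sum, map_sum, map_sum, Finset.mul_sum]
  refine Finset.sum_congr rfl fun i hi => ?_
  have hi' : i ≤ n := Nat.lt_succ_iff.1 (Finset.mem_range.1 hi)
  have h2 : ψ (up (-F)) = ψ (ct (RatFunc.X : RatFunc L)) * ψ (up G) := by
    rw [map_neg, map_neg]
    linear_combination (-1 : A) * hr
  have h3 : ψ (up G) ^ n = ψ (up G) ^ i * ψ (up G) ^ (n - i) := by
    rw [← pow_add, Nat.add_sub_cancel' hi']
  simp only [map_mul, map_pow]
  rw [h2, h3, mul_pow]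
  ring

/-- proof: let `pen F G ∣ up r`. Clear denominators in the quotient:
`(F + t G) T = c(t) r` in `L[x, y][t]` with `c ≠ 0`. The element `F + t G` is prime there, so it
divides `c(t)` or `r`. The `t`-degree shows `r = 0` in the second case, and the first one
contradicts the `y`-degree of `F + t G` (for instance put `t = s ∈ L[x, y]` with `c(s) ≠ 0`).
Compare `biv_injective` in `MP_1a0ddd_nt/Gen.lean`. -/
theorem up_injective {F G : L[X][X]} (h : Pencil F G) {A : Type} [CommRing A]
    {ψ : (RatFunc L)[X][X] →+* A} (H : Cv F G A ψ) : Function.Injective fun u => ψ (up u) := by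
  have hinj : Function.Injective (ψ.comp up) := by
    rw [injective_iff_map_eq_zero]
    intro r hr
    by_contra hr0
    obtain ⟨q, hq⟩ := (H.ker _).1 hr
    obtain ⟨c, T, hc, hT⟩ := clear_den q
    have h1 : (C G * X + C F) * T = lft c * C r := by
      apply tup_inj
      have e : tup (C r) = up r := by simp [tup]
      rw [map_mul, map_mul, Den_tup_P, tup_lft, hT, e]
      rw [hq]
      ring
    have hpos : 0 < F.natDegree := lt_of_le_of_lt (Nat.zero_le _) h.lt
    rcases (Den_prime h).dvd_or_dvd (Dvd.intro _ h1) with h2 | h2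
    · have h3 := map_dvd (evalRingHom (C (X : L[X]))) h2
      have e1 : evalRingHom (C (X : L[X])) (C G * X + C F) = F + C X * G := by
        simp [add_comm, mul_comm]
      have e2 : evalRingHom (C (X : L[X])) (lft c) = C c := by
        have e3 : (evalRingHom (C (X : L[X]))).comp lft = (C : L[X] →+* L[X][X]) := by
          ext
          · simp [lft]
          · simp [lft]
        exact RingHom.congr_fun e3 c
      rw [e1, e2] at h3
      have h4 := natDegree_le_of_dvd h3 (C_ne_zero.2 hc)
      rw [natDegree_C, natDegree_add_eq_left_of_natDegree_lt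
        (lt_of_le_of_lt (natDegree_C_mul_le _ _) h.lt)] at h4
      omega
    · have h3 := natDegree_le_of_dvd h2 (C_ne_zero.2 hr0)
      rw [natDegree_C, natDegree_linear h.ne] at h3
      omega
  exact hinj

/-- proof: `clear_den` for a preimage, `c(t) a = ψ(T)`; multiply with `G^n` and use `up_hmg` for
`T` and for `lft c`; `ψ(ct c)` is a unit -/
theorem exists_den {F G : L[X][X]} {A : Type} [CommRing A]
    {ψ : (RatFunc L)[X][X] →+* A} (H : Cv F G A ψ) (a : A) :
    ∃ s b : L[X][X], (∃ N : ℕ, ψ (up s) ∣ ψ (up G) ^ N) ∧ ψ (up s) * a = ψ (up b) := by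
  obtain ⟨u, rfl⟩ := H.surj a
  obtain ⟨c, T, hc, hT⟩ := clear_den u
  obtain ⟨n, hn⟩ : ∃ n, n = max T.natDegree (lft c).natDegree := ⟨_, rfl⟩
  have h1 := up_hmg H n (lft c) (by rw [hn]; exact le_max_right _ _)
  have h2 := up_hmg H n T (by rw [hn]; exact le_max_left _ _)
  refine ⟨hmg F G n (lft c), hmg F G n T, ⟨n, ?_⟩, ?_⟩
  · rw [h1, tup_lft]
    exact (((Den_ct_unit hc).map ψ).mul_right_dvd).2 dvd_rfl
  · rw [h1, h2, tup_lft, hT, map_mul]
    ring

end Pool.Agent.Lib.MP_1a0ddd_nt.W
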