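import Pool.Agent.Lib.MP_1a0ddd_nt.W.Den

/-! Primes of `L(t)[x, y]/(F + t G)` which do not contain `G`. Compare `MP_1a0ddd_nt/Gen.lean`. -/

set_option autoImplicit false

namespace Pool.Agent.Lib.MP_1a0ddd_nt.W

open Polynomial

variable {L : Type} [Field L]

theorem cv_noeth {F G : L[X][X]} {A : Type} [CommRing A]
    {ψ : (RatFunc L)[X][X] →+* A} (H : Cv F G A ψ) : IsNoetherianRing A :=
  isNoetherianRing_of_surjective _ _ ψ H.surj

private theorem cv_int {F G : L[X][X]} (h : Pencil F G) {A : Type} [CommRing A]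
    {ψ : (RatFunc L)[X][X] →+* A} (H : Cv F G A ψ) : (ψ.comp C).IsIntegral := by
  intro a
  obtain ⟨u, rfl⟩ := H.surj a
  have hX : (ψ.comp C).IsIntegralElem (ψ X) := by
    refine ⟨pen F G, (pen_monic h).1, ?_⟩
    rw [← hom_eval₂, eval₂_C_X]
    exact (H.ker _).2 dvd_rfl
  have hC : ∀ c : (RatFunc L)[X], (ψ.comp C).IsIntegralElem (ψ (C c)) := fun c =>
    (ψ.comp C).isIntegralElem_map (x := c)
  induction u using Polynomial.induction_on' with
  | add p q hp hq =>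
    rw [map_add]
    exact hp.add _ hq
  | monomial n c =>
    rw [← C_mul_X_pow_eq_monomial, map_mul, map_pow]
    refine (hC c).mul _ ?_
    induction n with
    | zero =>
      rw [pow_zero]
      exact (ψ.comp C).isIntegralElem_one
    | succ n ih =>
      rw [pow_succ]
      exact ih.mul _ hX

/-- proof: `A` is integral over `L(t)[x]` because `pen F G` is monic in `y` -/
theorem cv_max {F G : L[X][X]} (h : Pencil F G) {A : Type} [CommRing A]
    {ψ : (RatFunc L)[X][X] →+* A} (H : Cv F G A ψ) (P : Ideal A) (hP : P.IsPrime)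
    (h0 : P ≠ ⊥) : P.IsMaximal := by
  have hdom := cv_domain h H
  have hint := cv_int h H
  let _ : Algebra (RatFunc L)[X] A := (ψ.comp C).toAlgebra
  have hI : Algebra.IsIntegral (RatFunc L)[X] A := ⟨hint⟩
  have h1 : P.comap (algebraMap (RatFunc L)[X] A) ≠ ⊥ := fun h2 =>
    h0 (Ideal.eq_bot_of_comap_eq_bot h2)
  have h3 : (P.comap (algebraMap (RatFunc L)[X] A)).IsMaximal :=
    IsPrime.to_maximal_ideal (hpi := hP.comap _) h1
  exact Ideal.isMaximal_of_isIntegral_of_isMaximal_comap P h3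

/-- proof: `P` contains a nonzero element of `L[x, y]` (`exists_den`), hence a prime element -/
theorem exists_elt {F G : L[X][X]} (h : Pencil F G) {A : Type} [CommRing A]
    {ψ : (RatFunc L)[X][X] →+* A} (H : Cv F G A ψ) (P : Ideal A) (hP : P.IsPrime)
    (h0 : P ≠ ⊥) (hG : ψ (up G) ∉ P) : ∃ π : L[X][X], Prime π ∧ ψ (up π) ∈ P := by
  have hdom := cv_domain h H
  obtain ⟨a, haP, ha0⟩ := Submodule.exists_mem_ne_zero_of_ne_bot h0
  obtain ⟨s, b, ⟨N, hN⟩, hs⟩ := exists_den H a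
  have hs0 : ψ (up s) ≠ 0 := by
    intro h1
    rw [h1, zero_dvd_iff] at hN
    exact hG (hP.mem_of_pow_mem N (hN ▸ P.zero_mem))
  have hb : b ∈ P.comap (ψ.comp up) := by
    rw [Ideal.mem_comap, RingHom.comp_apply, ← hs]
    exact P.mul_mem_left _ haP
  have hbot : P.comap (ψ.comp up) ≠ ⊥ := by
    intro h2
    rw [h2, Ideal.mem_bot] at hb
    rw [hb, map_zero, map_zero] at hs
    exact mul_ne_zero hs0 ha0 hs
  obtain ⟨π, hπP, hπ⟩ := Ideal.IsPrime.exists_mem_prime_of_ne_bot (hP.comap (ψ.comp up)) hbot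
  exact ⟨π, hπ, hπP⟩

/-- proof: `I = {a : ∃ N, π ∣ G^N a}` is a prime ideal (as in `gen` of `MP_1a0ddd_nt/Gen.lean`)
with `0 ≠ I ≤ P`, hence maximal (`cv_max`) and `I = P` -/
theorem loc_elt {F G : L[X][X]} (h : Pencil F G) {A : Type} [CommRing A]
    {ψ : (RatFunc L)[X][X] →+* A} (H : Cv F G A ψ) (P : Ideal A) (hP : P.IsPrime)
    (hG : ψ (up G) ∉ P) (π : L[X][X]) (hπ : Prime π) (hm : ψ (up π) ∈ P) (w : A) (hw : w ∈ P) :
    ∃ N : ℕ, ψ (up π) ∣ ψ (up G) ^ N * w := by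
  have hdom := cv_domain h H
  have hinj := up_injective h H
  have hgN : ∀ N : ℕ, ψ (up G) ^ N ∉ P := fun N hN => hG (hP.mem_of_pow_mem N hN)
  have hπ0 : ψ (up π) ≠ 0 := by
    intro h1
    apply hπ.ne_zero
    apply hinj
    change ψ (up π) = ψ (up 0)
    rw [h1, map_zero, map_zero]
  have key : ∀ a b : A, ψ (up π) ∣ a * b →
      (∃ N : ℕ, ψ (up π) ∣ ψ (up G) ^ N * a) ∨ ∃ N : ℕ, ψ (up π) ∣ ψ (up G) ^ N * b := by
    intro a b ⟨c, hc⟩
    obtain ⟨s, p, ⟨N, hN⟩, hs⟩ := exists_den H a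
    obtain ⟨s', q, ⟨N', hN'⟩, hs'⟩ := exists_den H b
    obtain ⟨s'', r, ⟨N'', hN''⟩, hs''⟩ := exists_den H c
    have e : s'' * (p * q) = π * (s * s' * r) := by
      apply hinj
      change ψ (up _) = ψ (up _)
      simp only [map_mul]
      rw [← hs, ← hs', ← hs'']
      linear_combination (ψ (up s'') * ψ (up s) * ψ (up s')) * hc
    have hd : π ∣ s'' * (p * q) := ⟨_, e⟩
    have hdv : ∀ r t : L[X][X], r ∣ t → ψ (up r) ∣ ψ (up t) := fun r t hrt =>
      _root_.map_dvd ψ (_root_.map_dvd up hrt)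
    rcases hπ.dvd_or_dvd hd with hd | hd
    · exfalso
      have h1 : ψ (up π) ∣ ψ (up G) ^ N'' := (hdv _ _ hd).trans hN''
      exact hgN N'' (P.mem_of_dvd h1 hm)
    · rcases hπ.dvd_or_dvd hd with hd | hd
      · left
        refine ⟨N, ?_⟩
        have h1 : ψ (up π) ∣ ψ (up s) * a := hs ▸ hdv _ _ hd
        exact h1.trans (mul_dvd_mul_right hN a)
      · right
        refine ⟨N', ?_⟩
        have h1 : ψ (up π) ∣ ψ (up s') * b := hs' ▸ hdv _ _ hd
        exact h1.trans (mul_dvd_mul_right hN' b)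
  -- the ideal
  let I : Ideal A :=
    { carrier := {a | ∃ N : ℕ, ψ (up π) ∣ ψ (up G) ^ N * a}
      add_mem' := by
        rintro a b ⟨N, hN⟩ ⟨M, hM⟩
        refine ⟨N + M, ?_⟩
        have e : ψ (up G) ^ (N + M) * (a + b) =
            ψ (up G) ^ M * (ψ (up G) ^ N * a) + ψ (up G) ^ N * (ψ (up G) ^ M * b) := by ring
        rw [e]
        exact dvd_add (hN.mul_left _) (hM.mul_left _)
      zero_mem' := ⟨0, by rw [mul_zero]; exact dvd_zero _⟩
      smul_mem' := by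
        rintro c a ⟨N, hN⟩
        refine ⟨N, ?_⟩
        have e : ψ (up G) ^ N * (c • a) = c * (ψ (up G) ^ N * a) := by
          rw [smul_eq_mul]
          ring
        rw [e]
        exact hN.mul_left _ }
  have hmem : ∀ a, a ∈ I ↔ ∃ N : ℕ, ψ (up π) ∣ ψ (up G) ^ N * a := fun _ => Iff.rfl
  have hIP : I ≤ P := by
    intro a ha
    obtain ⟨N, hN⟩ := (hmem a).1 ha
    exact (hP.mem_or_mem (P.mem_of_dvd hN hm)).resolve_left (hgN N)
  have hIprime : I.IsPrime := by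
    refine ⟨fun h1 => hP.ne_top (top_le_iff.1 (h1 ▸ hIP)), ?_⟩
    intro a b hab
    obtain ⟨N, hN⟩ := (hmem _).1 hab
    rw [← mul_assoc] at hN
    rcases key _ _ hN with ⟨M, hM⟩ | ⟨M, hM⟩
    · left
      refine (hmem a).2 ⟨M + N, ?_⟩
      rw [pow_add, mul_assoc]
      exact hM
    · right
      exact (hmem b).2 ⟨M, hM⟩
  have hI0 : I ≠ ⊥ := by
    intro h1
    have h2 : ψ (up π) ∈ I := (hmem _).2 ⟨0, by rw [pow_zero, one_mul]⟩
    rw [h1, Ideal.mem_bot] at h2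
    exact hπ0 h2
  have hImax := cv_max h H I hIprime hI0
  have hIeq : I = P := hImax.eq_of_le hP.ne_top hIP
  rw [← hIeq] at hw
  exact (hmem w).1 hw

/-- proof: as in `gen` of `MP_1a0ddd_nt/Gen.lean`: `π` from `exists_elt`, `(π) = P J`, and `loc_elt`
gives `G^N P ⊆ (π)` for some `N` because `P` is finitely generated -/
theorem gen {F G : L[X][X]} (h : Pencil F G) {A : Type} [CommRing A]
    [IsDedekindDomain A] {ψ : (RatFunc L)[X][X] →+* A} (H : Cv F G A ψ) (P : Ideal A)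
    (hP : P.IsPrime) (h0 : P ≠ ⊥) (hG : ψ (up G) ∉ P) :
    ∃ (J : Ideal A) (e : A), e ≠ 0 ∧ P * J = Ideal.span {e} ∧ ∃ N : ℕ, ψ (up G) ^ N ∈ J := by
  obtain ⟨π, hπ, hm⟩ := exists_elt h H P hP h0 hG
  have hinj := up_injective h H
  have hπ0 : ψ (up π) ≠ 0 := by
    intro h1
    apply hπ.ne_zero
    apply hinj
    change ψ (up π) = ψ (up 0)
    rw [h1, map_zero, map_zero]
  obtain ⟨J, hJ⟩ : P ∣ Ideal.span {ψ (up π)} := by
    rw [Ideal.dvd_iff_le, Ideal.span_singleton_le_iff_mem]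
    exact hm
  obtain ⟨S, hS⟩ := (isNoetherian_def.1 (inferInstance : IsNoetherian A A)) P
  have h1 : ∃ N : ℕ, ∀ a ∈ S, ψ (up π) ∣ ψ (up G) ^ N * a := by
    have h2 : ∀ a ∈ S, ∃ N : ℕ, ψ (up π) ∣ ψ (up G) ^ N * a := fun a ha =>
      loc_elt h H P hP hG π hπ hm a (hS ▸ Submodule.subset_span ha)
    choose! f hf using h2
    refine ⟨∑ a ∈ S, f a, fun a ha => (hf a ha).trans ?_⟩
    exact mul_dvd_mul_right (pow_dvd_pow _ (Finset.single_le_sum (fun _ _ => Nat.zero_le _) ha)) a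
  obtain ⟨N, hN⟩ := h1
  have hle : Ideal.span {ψ (up G) ^ N} * P ≤ Ideal.span {ψ (up π)} := by
    rw [← hS, Ideal.submodule_span_eq, Ideal.span_mul_span, Ideal.span_le]
    rintro x ⟨c, hc, a, ha, rfl⟩
    rw [Set.mem_singleton_iff] at hc
    rw [hc]
    exact Ideal.mem_span_singleton.2 (hN a ha)
  refine ⟨J, ψ (up π), hπ0, hJ.symm, N, ?_⟩
  rw [hJ, mul_comm P J, ← Ideal.dvd_iff_le] at hle
  have hP0 : P ≠ 0 := h0
  have h2 : J ∣ Ideal.span {ψ (up G) ^ N} := (mul_dvd_mul_iff_right hP0).1 hle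
  rw [Ideal.dvd_iff_le, Ideal.span_singleton_le_iff_mem] at h2
  exact h2

end Pool.Agent.Lib.MP_1a0ddd_nt.W
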