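import Pool.Agent.Lib.MP_1a0ddd_nt.W.Defs

/-! Named parts of the statement of `PlanePencils`. -/

set_option autoImplicit false

namespace Pool.Agent.Lib.MP_1a0ddd_nt.W

open Polynomial

/-- `F` is a `C_{ab}` polynomial, `a` and `b` are coprime, all monomials of `G ≠ 0` have smaller
weight, and generically no base point is singular on both `F = 0` and `G = 0` -/
structure CabPencil {R : Type} [CommRing R] (a b : ℕ) (F G : R[X][X]) : Prop where
  apos : 0 < a
  bpos : 0 < b
  cop : a.Coprime b
  cab : IsCab a b F
  low : Low a b G
  ne : G ≠ 0
  reg : Regular F G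

/-- The Tauberian mean of the averages is `-r`; over the fraction field `K` of `R` the affine
curve `F + t G = 0` over `K(t)` is smooth with Picard group finitely generated of rank `r`; and
over every field `L` containing `R` it is smooth with finitely generated Picard group. -/
structure Nagao {R : Type} [CommRing R] (F G : R[X][X]) (d r : ℕ) : Prop where
  mean : Quad.TauMean (avg F G d) (-(r : ℝ))
  rank : ∀ (K : Type) [Field K] [Algebra R K] [IsFractionRing R K],
    Module.finrank ℤ
      (Additive (CommRing.Pic (Crv (bc (algebraMap R K) F) (bc (algebraMap R K) G)))) = r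
  finite : ∀ (L : Type) [Field L] (φ : R →+* L), Function.Injective φ →
    IsDedekindDomain (Crv (bc φ F) (bc φ G)) ∧
      Module.Finite ℤ (Additive (CommRing.Pic (Crv (bc φ F) (bc φ G))))

end Pool.Agent.Lib.MP_1a0ddd_nt.W
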