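import Pool.Agent.Lib.MP_1a0ddd_nt.W.Den

/-! The forms `G^n q(-F/G)` in `L[x, y]`. -/

set_option autoImplicit false

namespace Pool.Agent.Lib.MP_1a0ddd_nt.W

open Polynomial

variable {L : Type} [Field L]

theorem hmg_mul (F G : L[X][X]) (m n : ℕ) (S T : L[X][X][X]) (hS : S.natDegree ≤ m)
    (hT : T.natDegree ≤ n) : hmg F G (m + n) (S * T) = hmg F G m S * hmg F G n T := by
  classical
  have key : hmg F G (m + n) (S * T) =
      ∑ x ∈ Finset.range (m + 1) ×ˢ Finset.range (n + 1),
        S.coeff x.1 * T.coeff x.2 * ((-F) ^ (x.1 + x.2) * G ^ (m + n - (x.1 + x.2))) := by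
    have hmaps : ∀ x ∈ Finset.range (m + 1) ×ˢ Finset.range (n + 1),
        x.1 + x.2 ∈ Finset.range (m + n + 1) := by
      intro x hx
      rw [Finset.mem_product, Finset.mem_range, Finset.mem_range] at hx
      rw [Finset.mem_range]
      omega
    rw [hmg, ← Finset.sum_fiberwise_of_maps_to hmaps]
    refine Finset.sum_congr rfl fun k _ => ?_
    rw [coeff_mul, mul_assoc, Finset.sum_mul]
    symm
    refine Finset.sum_subset_zero_on_sdiff ?_ ?_ ?_
    · intro x hx
      rw [Finset.mem_filter] at hx
      rw [Finset.HasAntidiagonal.mem_antidiagonal]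
      exact hx.2
    · intro x hx
      rw [Finset.mem_sdiff, Finset.HasAntidiagonal.mem_antidiagonal, Finset.mem_filter, Finset.mem_product,
        Finset.mem_range, Finset.mem_range] at hx
      obtain ⟨h1, h2⟩ := hx
      by_cases h3 : m < x.1
      · rw [coeff_eq_zero_of_natDegree_lt (lt_of_le_of_lt hS h3), zero_mul, zero_mul]
      · have h4 : n < x.2 := by
          by_contra h5
          exact h2 ⟨⟨by omega, by omega⟩, h1⟩
        rw [coeff_eq_zero_of_natDegree_lt (lt_of_le_of_lt hT h4), mul_zero, zero_mul]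
    · intro x hx
      rw [Finset.mem_filter] at hx
      rw [hx.2]
  rw [key, hmg, hmg, Finset.sum_mul_sum, Finset.sum_product]
  refine Finset.sum_congr rfl fun i hi => Finset.sum_congr rfl fun j hj => ?_
  rw [Finset.mem_range] at hi hj
  have h1 : m + n - (i + j) = (m - i) + (n - j) := by omega
  rw [h1, pow_add, pow_add]
  ring

private theorem hmg_add (F G : L[X][X]) (n : ℕ) (S T : L[X][X][X]) :
    hmg F G n (S + T) = hmg F G n S + hmg F G n T := by
  rw [hmg, hmg, hmg, ← Finset.sum_add_distrib]
  refine Finset.sum_congr rfl fun i _ => ?_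
  rw [coeff_add]
  ring

private theorem hmg_C (F G : L[X][X]) (n : ℕ) (u : L[X][X]) :
    hmg F G n (C u) = u * G ^ n := by
  rw [hmg, Finset.sum_eq_single 0]
  · rw [coeff_C_zero, pow_zero, mul_one, Nat.sub_zero]
  · intro i _ hi
    rw [coeff_C_of_ne_zero hi, zero_mul, zero_mul]
  · intro h
    exact absurd (Finset.mem_range.2 (Nat.succ_pos n)) h

private theorem hmg_rel (F G : L[X][X]) : hmg F G 1 (C F + X * C G) = 0 := by
  have h : (C F + X * C G : L[X][X][X]) = C F + C G * X := by rw [mul_comm (X : L[X][X][X])]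
  rw [h, hmg, Finset.sum_range_succ, Finset.sum_range_one, coeff_add, coeff_add, coeff_C_zero,
    coeff_C_mul, coeff_C_mul, coeff_X_zero, coeff_X_one, coeff_C_of_ne_zero one_ne_zero]
  ring

private theorem lft_coeff (c : L[X]) (i : ℕ) : (lft c).coeff i = C (C (c.coeff i)) := by
  rw [lft, coe_mapRingHom, coeff_map]
  rfl

private theorem lft_natDegree (c : L[X]) : (lft c).natDegree = c.natDegree := by
  rw [lft, coe_mapRingHom]
  apply natDegree_map_eq_of_injective
  exact C_injective.comp C_injective

private theorem hmg_lft (F G : L[X][X]) (c : L[X]) :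
    hmg F G c.natDegree (lft c) = C (C c.leadingCoeff) * (-F) ^ c.natDegree +
      ∑ i ∈ Finset.range c.natDegree, C (C (c.coeff i)) * (-F) ^ i * G ^ (c.natDegree - i) := by
  rw [hmg, Finset.sum_range_succ, add_comm]
  simp only [lft_coeff, Nat.sub_self, pow_zero, mul_one]
  rfl

/-- leading term in `y`: `± lc(c) y^(a n)`, `a` the `y`-degree of `F`, `n = deg c` -/
theorem hmg_lft_natDegree {F G : L[X][X]} (h : Pencil F G) (c : L[X]) (hc : c ≠ 0) :
    (hmg F G c.natDegree (lft c)).natDegree = F.natDegree * c.natDegree := by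
  rw [hmg_lft]
  have hlc : (C c.leadingCoeff : L[X]) ≠ 0 := by
    rw [Ne, C_eq_zero, leadingCoeff_eq_zero]
    exact hc
  have hF0 : -F ≠ 0 := neg_ne_zero.2 h.monic.ne_zero
  have h1 : (C (C c.leadingCoeff) * (-F) ^ c.natDegree).natDegree = F.natDegree * c.natDegree := by
    rw [natDegree_C_mul hlc, natDegree_pow, natDegree_neg, mul_comm]
  rcases Nat.eq_zero_or_pos c.natDegree with h0 | h0
  · rw [h0, Finset.range_zero, Finset.sum_empty, add_zero, pow_zero, mul_one, natDegree_C, mul_zero]
  · rw [← h1]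
    apply natDegree_add_eq_left_of_natDegree_lt
    rw [h1]
    have h2 : (∑ i ∈ Finset.range c.natDegree,
        C (C (c.coeff i)) * (-F) ^ i * G ^ (c.natDegree - i)).natDegree ≤
        F.natDegree * c.natDegree - 1 := by
      apply natDegree_sum_le_of_forall_le
      intro i hi
      rw [Finset.mem_range] at hi
      have h3 : (C (C (c.coeff i)) * (-F) ^ i * G ^ (c.natDegree - i)).natDegree ≤
          i * F.natDegree + (c.natDegree - i) * G.natDegree := by
        refine natDegree_mul_le.trans (add_le_add ?_ natDegree_pow_le)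
        refine natDegree_mul_le.trans ?_
        rw [natDegree_C, zero_add, ← natDegree_neg F]
        exact natDegree_pow_le
      have h4 := h.lt
      obtain ⟨d, hd⟩ : ∃ d, c.natDegree = i + (d + 1) := ⟨c.natDegree - i - 1, by omega⟩
      rw [hd] at h3 ⊢
      have h5 : i + (d + 1) - i = d + 1 := by omega
      rw [h5] at h3 ⊢
      have h6 : (d + 1) * G.natDegree + 1 ≤ (d + 1) * F.natDegree := by
        have : (d + 1) * (G.natDegree + 1) ≤ (d + 1) * F.natDegree := Nat.mul_le_mul_left _ h4
        nlinarith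
      have h7 : F.natDegree * (i + (d + 1)) = i * F.natDegree + (d + 1) * F.natDegree := by ring
      rw [h7]
      omega
    have h3 : 0 < F.natDegree * c.natDegree := Nat.mul_pos (by have := h.lt; omega) h0
    omega

/-- proof: a common prime divisor of `G` and of `hmg F G n (lft c)`, `n = deg c`, divides `F^n` -/
theorem hmg_lft_relPrime {F G : L[X][X]} (h : Pencil F G) (c : L[X]) (hc : c ≠ 0) (k : ℕ) :
    IsRelPrime (hmg F G c.natDegree (lft c)) (G ^ k) := by
  apply IsRelPrime.pow_right
  have h1 : hmg F G c.natDegree (lft c) = C (C c.leadingCoeff) * (-F) ^ c.natDegree +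
      G * ∑ i ∈ Finset.range c.natDegree,
        C (C (c.coeff i)) * (-F) ^ i * G ^ (c.natDegree - i - 1) := by
    have h2 : ∀ i ∈ Finset.range c.natDegree,
        C (C (c.coeff i)) * (-F) ^ i * G ^ (c.natDegree - i) =
        G * (C (C (c.coeff i)) * (-F) ^ i * G ^ (c.natDegree - i - 1)) := by
      intro i hi
      rw [Finset.mem_range] at hi
      obtain ⟨d, hd⟩ : ∃ d, c.natDegree - i = d + 1 := ⟨c.natDegree - i - 1, by omega⟩
      rw [hd, Nat.add_sub_cancel, pow_succ]
      generalize C (C (c.coeff i)) * (-F) ^ i = A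
      rw [mul_comm (G ^ d) G, mul_left_comm]
    rw [hmg_lft, Finset.sum_congr rfl h2, ← Finset.mul_sum]
  rw [h1]
  apply IsRelPrime.add_mul_left_left
  have hu : IsUnit (C (C c.leadingCoeff) : L[X][X]) := by
    rw [isUnit_C, isUnit_C]
    exact isUnit_iff_ne_zero.2 (leadingCoeff_ne_zero.2 hc)
  rw [isRelPrime_mul_unit_left_left hu]
  apply IsRelPrime.pow_left
  exact (rel_prime h).neg_left

/-! ### the ring `L[t][x, y]` -/

/-- `L[t][x][y] → L[x][y][t]` -/
private noncomputable def tau : L[X][X][X] →+* L[X][X][X] :=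
  eval₂RingHom (R := L[X][X]) (S := L[X][X][X])
    (eval₂RingHom (R := L[X]) (S := L[X][X][X]) lft (C (C X))) (C X)

private theorem tau_CC (r : L[X]) : tau (C (C r)) = lft r := by
  rw [tau, coe_eval₂RingHom, eval₂_C, coe_eval₂RingHom, eval₂_C]

private theorem tau_map (u : L[X][X]) : tau (u.map (mapRingHom C)) = C u := by
  have h : (tau (L := L)).comp (mapRingHom (mapRingHom C)) = C := by
    apply ringHom_ext'
    · apply ringHom_ext'
      · ext a
        simp only [RingHom.comp_apply, coe_mapRingHom, map_C]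
        rw [tau_CC, lft, coe_mapRingHom, map_C]
        rfl
      · simp only [RingHom.comp_apply, coe_mapRingHom, map_C, map_X]
        rw [tau, coe_eval₂RingHom, eval₂_C, coe_eval₂RingHom, eval₂_X]
    · rw [RingHom.comp_apply, coe_mapRingHom, map_X, tau, coe_eval₂RingHom, eval₂_X]
  exact congrArg (fun f => f u) h

/-- `L[t][x][y] → (L[t]/q)[x][y]` -/
private noncomputable def rho (q : L[X]) : L[X][X][X] →+* (AdjoinRoot q)[X][X] :=
  mapRingHom (mapRingHom (AdjoinRoot.mk q))

private theorem rho_surj (q : L[X]) : Function.Surjective (rho q) := by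
  have h1 : Function.Surjective (mapRingHom (AdjoinRoot.mk q)) :=
    map_surjective _ AdjoinRoot.mk_surjective
  exact map_surjective _ h1

private theorem rho_ker (q : L[X]) (E : L[X][X][X]) (h : rho q E = 0) :
    ∃ V, E = C (C q) * V := by
  have h1 : C (C q) ∣ E := by
    rw [C_dvd_iff_dvd_coeff]
    intro j
    rw [C_dvd_iff_dvd_coeff]
    intro i
    have h2 : ((rho q E).coeff j).coeff i = 0 := by rw [h, coeff_zero, coeff_zero]
    rw [rho, coe_mapRingHom, coeff_map, coe_mapRingHom, coeff_map, AdjoinRoot.mk_eq_zero] at h2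
    exact h2
  exact h1

private theorem sub_aux {A : Type} [CommRing A] (a b c : A) (h : a - b = c) : a = b + c := by
  rw [← h]
  ring

private theorem rho_ker' (q : L[X]) (A B : L[X][X][X]) (h : rho q A = rho q B) :
    ∃ V, A = B + C (C q) * V := by
  obtain ⟨V, hV⟩ := rho_ker q (A - B) ((_root_.map_sub (rho q) A B).trans (sub_eq_zero.2 h))
  exact ⟨V, sub_aux A B _ hV⟩

private theorem rho_map (q : L[X]) (u : L[X][X]) :
    rho q (u.map (mapRingHom C)) = u.map (mapRingHom (AdjoinRoot.of q)) := by
  rw [rho, coe_mapRingHom, map_map]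
  congr 1
  ext a <;> simp

private theorem rho_X (q : L[X]) : rho q (C (C X)) = C (C (AdjoinRoot.root q)) := by
  rw [rho, coe_mapRingHom, map_C, coe_mapRingHom, map_C, AdjoinRoot.mk_X]

/-- proof: write `Q` for this element and `θ` for the image of `t` in the field `k = L[t]/q`. By
`hm` the ring `k[x, y]/(F + θ G)` is a domain, and `Q`
maps to `G^n q(θ) = 0` there. If `Q ∣ u v` then for instance `u` maps to `0`, that is
`u ∈ (F + t G, q(t))` in `L[x, y][t]`; substituting `t = -F/G` (`hmg_mul`) gives `Q ∣ G^N u`, and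
`Q`, `G` are relatively prime (`hmg_lft_relPrime`) -/
theorem prime_hmg {F G : L[X][X]} (h : Pencil F G) (hm : IrrMembers F G) (q : L[X])
    (hq : Irreducible q) : Prime (hmg F G q.natDegree (lft q)) := by
  classical
  have hfact : Fact (Irreducible q) := ⟨hq⟩
  have hn : 0 < q.natDegree := hq.natDegree_pos
  have hdeg := hmg_lft_natDegree h q hq.ne_zero
  have hdeg0 : 0 < F.natDegree * q.natDegree := Nat.mul_pos (by have := h.lt; omega) hn
  set Q := hmg F G q.natDegree (lft q) with hQ
  set M := F.map (mapRingHom (AdjoinRoot.of q)) +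
    C (C (AdjoinRoot.root q)) * G.map (mapRingHom (AdjoinRoot.of q)) with hM
  have hprime : Prime M := (hm q hq).prime
  -- the claim: if `M` divides the image of `u` then `Q ∣ u`
  have claim : ∀ u : L[X][X], M ∣ u.map (mapRingHom (AdjoinRoot.of q)) → Q ∣ u := by
    rintro u ⟨w, hw⟩
    obtain ⟨W, rfl⟩ := rho_surj q w
    obtain ⟨V, hV⟩ := rho_ker' q (u.map (mapRingHom C))
      ((F.map (mapRingHom C) + C (C X) * G.map (mapRingHom C)) * W) (by
        rw [map_mul, map_add, map_mul, rho_map, rho_map, rho_map, rho_X, hw])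
    have h1 := congrArg tau hV
    rw [map_add, map_mul, map_mul, map_add, map_mul, tau_map, tau_map, tau_map, tau_CC,
      tau_CC] at h1
    have h2 : lft (X : L[X]) = X := by rw [lft, coe_mapRingHom, map_X]
    rw [h2, add_comm] at h1
    -- substitute `t = -F/G`
    set N := (tau W).natDegree + (tau V).natDegree with hN
    have h3 := congrArg (hmg F G (q.natDegree + 1 + N)) h1
    rw [hmg_C, hmg_add] at h3
    have e1 : hmg F G (q.natDegree + 1 + N) (lft q * tau V) =
        Q * hmg F G (1 + N) (tau V) := by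
      rw [add_assoc]
      exact hmg_mul F G _ _ _ _ (lft_natDegree q).le (by omega)
    have e2 : hmg F G (q.natDegree + 1 + N) ((C F + X * C G) * tau W) = 0 := by
      have h4 : q.natDegree + 1 + N = 1 + (q.natDegree + N) := by omega
      rw [h4, hmg_mul F G _ _ _ _ ?_ (by omega), hmg_rel, zero_mul]
      refine (natDegree_add_le _ _).trans (max_le (by rw [natDegree_C]; omega) ?_)
      refine natDegree_mul_le.trans ?_
      rw [natDegree_C, natDegree_X]
    rw [e1, e2, add_zero] at h3
    have h5 : Q ∣ u * G ^ (q.natDegree + 1 + N) := Dvd.intro _ h3.symm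
    exact (hmg_lft_relPrime h q hq.ne_zero _).dvd_of_dvd_mul_right h5
  -- `M` divides the image of `Q`
  have hMQ : M ∣ Q.map (mapRingHom (AdjoinRoot.of q)) := by
    set F' := F.map (mapRingHom (AdjoinRoot.of q)) with hF'
    set G' := G.map (mapRingHom (AdjoinRoot.of q)) with hG'
    set θ := AdjoinRoot.root q with hθ
    have e1 : Q.map (mapRingHom (AdjoinRoot.of q)) = ∑ i ∈ Finset.range (q.natDegree + 1),
        C (C (AdjoinRoot.of q (q.coeff i))) * (-F') ^ i * G' ^ (q.natDegree - i) := by
      rw [hQ, hmg, Polynomial.map_sum]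
      refine Finset.sum_congr rfl fun i _ => ?_
      rw [lft_coeff, Polynomial.map_mul, Polynomial.map_mul, Polynomial.map_pow,
        Polynomial.map_pow, Polynomial.map_neg, map_C, coe_mapRingHom, map_C]
    have e2 : ∑ i ∈ Finset.range (q.natDegree + 1),
        C (C (AdjoinRoot.of q (q.coeff i))) * (C (C θ) * G') ^ i * G' ^ (q.natDegree - i) = 0 := by
      have h1 : ∀ i ∈ Finset.range (q.natDegree + 1),
          C (C (AdjoinRoot.of q (q.coeff i))) * (C (C θ) * G') ^ i * G' ^ (q.natDegree - i) =
          C (C (AdjoinRoot.of q (q.coeff i) * θ ^ i)) * G' ^ q.natDegree := by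
        intro i hi
        rw [Finset.mem_range] at hi
        have h2 : q.natDegree = i + (q.natDegree - i) := by omega
        conv_rhs => rw [h2, pow_add]
        rw [mul_pow, C_mul, C_mul, C_pow, C_pow]
        ring
      rw [Finset.sum_congr rfl h1, ← Finset.sum_mul, ← map_sum, ← map_sum]
      have h2 : ∑ i ∈ Finset.range (q.natDegree + 1), AdjoinRoot.of q (q.coeff i) * θ ^ i = 0 := by
        rw [← eval₂_eq_sum_range]
        exact AdjoinRoot.eval₂_root q
      rw [h2, C_0, C_0, zero_mul]
    have e3 : Q.map (mapRingHom (AdjoinRoot.of q)) = ∑ i ∈ Finset.range (q.natDegree + 1),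
        (C (C (AdjoinRoot.of q (q.coeff i))) * (-F') ^ i * G' ^ (q.natDegree - i) -
        C (C (AdjoinRoot.of q (q.coeff i))) * (C (C θ) * G') ^ i * G' ^ (q.natDegree - i)) := by
      rw [Finset.sum_sub_distrib, ← e1, e2, sub_zero]
    rw [e3]
    apply Finset.dvd_sum
    intro i _
    have h1 : M ∣ (-F') ^ i - (C (C θ) * G') ^ i := by
      have h2 : M ∣ -F' - C (C θ) * G' := ⟨-1, by rw [hM]; ring⟩
      exact h2.trans (sub_dvd_pow_sub_pow _ _ i)
    have h2 : C (C (AdjoinRoot.of q (q.coeff i))) * (-F') ^ i * G' ^ (q.natDegree - i) -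
        C (C (AdjoinRoot.of q (q.coeff i))) * (C (C θ) * G') ^ i * G' ^ (q.natDegree - i) =
        ((-F') ^ i - (C (C θ) * G') ^ i) *
          (C (C (AdjoinRoot.of q (q.coeff i))) * G' ^ (q.natDegree - i)) := by ring
    rw [h2]
    exact Dvd.dvd.mul_right h1 _
  refine ⟨?_, ?_, ?_⟩
  · intro h0
    rw [h0, natDegree_zero] at hdeg
    omega
  · intro hu
    have := natDegree_eq_zero_of_isUnit hu
    omega
  · intro u v huv
    have h1 : M ∣ (u * v).map (mapRingHom (AdjoinRoot.of q)) :=
      hMQ.trans (by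
        obtain ⟨w, hw⟩ := huv
        rw [hw, Polynomial.map_mul]
        exact Dvd.intro _ rfl)
    rw [Polynomial.map_mul] at h1
    rcases hprime.dvd_or_dvd h1 with h2 | h2
    · exact Or.inl (claim u h2)
    · exact Or.inr (claim v h2)

end Pool.Agent.Lib.MP_1a0ddd_nt.W
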