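import Pool.Agent.Lib.MP_1a0ddd_nt.W.Defs

/-! `C_{ab}` polynomials over a field: weights.

The ring map `Λ : k[x][y] → k[Y][τ]`, `x ↦ τ^a`, `y ↦ Y τ^b`, is the main tool: degree in `τ` and
leading coefficient (in `k[Y]`) of `Λ P` are multiplicative. If `P` is a `C_{ab}` polynomial then
`Λ P` has degree `a b` and leading coefficient `Y^a + c` with `c ≠ 0`. If `P ≠ 0` has `y`-degree
less than `a` then the monomials `x^j y^i` of `P` have different weights `a j + b i` (`a`, `b` are
coprime), hence the leading coefficient of `Λ P` is a monomial `γ Y^i`, `γ ≠ 0`. Finally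
`(Y^a + c) s = γ Y^n` is impossible for `γ ≠ 0`, `a > 0` (`Y` is prime and does not divide
`Y^a + c`, which is not a unit). -/

set_option autoImplicit false

namespace Pool.Agent.Lib.MP_1a0ddd_nt.W

open Polynomial

/-- `x ↦ τ^a`, `y ↦ Y τ^b` -/
noncomputable def Lam {k : Type} [Field k] (a b : ℕ) : k[X][X] →+* k[X][X] :=
  eval₂RingHom (eval₂RingHom (C.comp C) (X ^ a)) (C X * X ^ b)

private theorem inner_eq {k : Type} [Field k] (a : ℕ) (p : k[X]) :
    (eval₂RingHom ((C.comp C : k →+* k[X][X])) (X ^ a)) p = expand k[X] a (p.map C) := by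
  rw [coe_eval₂RingHom, expand_eq_comp_X_pow, ← eval₂_map]
  rw [comp]

private theorem term_deg {k : Type} [Field k] {a : ℕ} (b i : ℕ) (p : k[X]) :
    ((expand k[X] a (p.map C)) * (C X * X ^ b) ^ i).natDegree ≤ a * p.natDegree + b * i := by
  have h1 : (C X * X ^ b : k[X][X]) ^ i = C (X ^ i) * X ^ (b * i) := by
    rw [mul_pow, ← C_pow, ← pow_mul]
  rw [h1]
  have h2 : (expand k[X] a (p.map C)).natDegree = a * p.natDegree := by
    rw [natDegree_expand, natDegree_map_eq_of_injective C_injective, mul_comm]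
  refine natDegree_mul_le.trans ?_
  rw [h2]
  have h3 : (C (X ^ i) * X ^ (b * i) : k[X][X]).natDegree ≤ b * i := natDegree_C_mul_X_pow_le _ _
  omega

private theorem term_coeff {k : Type} [Field k] {a : ℕ} (ha : 0 < a) (b i : ℕ) (p : k[X]) :
    ((expand k[X] a (p.map C)) * (C X * X ^ b) ^ i).coeff (a * p.natDegree + b * i) =
      C p.leadingCoeff * X ^ i := by
  have h1 : (C X * X ^ b : k[X][X]) ^ i = C (X ^ i) * X ^ (b * i) := by
    rw [mul_pow, ← C_pow, ← pow_mul]
  rw [h1, ← mul_assoc, coeff_mul_X_pow, coeff_mul_C, mul_comm a, coeff_expand_mul ha, coeff_map,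
    leadingCoeff]

private theorem lam_eq {k : Type} [Field k] (a b : ℕ) (P : k[X][X]) :
    Lam a b P = ∑ i ∈ P.support, (expand k[X] a ((P.coeff i).map C)) * (C X * X ^ b) ^ i := by
  rw [Lam, coe_eval₂RingHom, eval₂_eq_sum, Polynomial.sum]
  refine Finset.sum_congr rfl fun i _ => ?_
  rw [inner_eq]

private theorem lam_natDegree_le {k : Type} [Field k] {a b N : ℕ} {P : k[X][X]}
    (h : ∀ i ∈ P.support, a * (P.coeff i).natDegree + b * i ≤ N) :
    (Lam a b P).natDegree ≤ N := by
  rw [lam_eq]
  exact natDegree_sum_le_of_forall_le _ _ fun i hi => (term_deg b i _).trans (h i hi)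

private theorem lam_coeff {k : Type} [Field k] {a b N : ℕ} {P : k[X][X]} (ha : 0 < a)
    (h : ∀ i ∈ P.support, a * (P.coeff i).natDegree + b * i ≤ N) :
    (Lam a b P).coeff N = ∑ i ∈ P.support.filter (fun i => a * (P.coeff i).natDegree + b * i = N),
      C (P.coeff i).leadingCoeff * X ^ i := by
  rw [lam_eq, finsetSum_coeff, Finset.sum_filter]
  refine Finset.sum_congr rfl fun i hi => ?_
  split_ifs with h1
  · conv_lhs => rw [← h1]
    exact term_coeff ha b i _
  · exact coeff_eq_zero_of_natDegree_lt ((term_deg b i _).trans_lt (lt_of_le_of_ne (h i hi) h1))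

private theorem xa_ne {k : Type} [Field k] {a : ℕ} (ha : 0 < a) (c : k) :
    (X ^ a + C c : k[X]) ≠ 0 := (monic_X_pow_add_C c ha.ne').ne_zero

theorem lam_cab {k : Type} [Field k] {a b : ℕ} {P : k[X][X]} (ha : 0 < a) (hb : 0 < b)
    (h : IsCab a b P) : ∃ c : k, c ≠ 0 ∧ (Lam a b P).natDegree = a * b ∧
      (Lam a b P).leadingCoeff = X ^ a + C c := by
  have h00 : P.coeff 0 ≠ 0 := by
    intro h0
    have := h.zero
    rw [h0, natDegree_zero] at this
    omega
  have haa : P.coeff a = 1 := by
    have := h.monic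
    rw [Monic, leadingCoeff, h.deg] at this
    exact this
  have hle : ∀ i ∈ P.support, a * (P.coeff i).natDegree + b * i ≤ a * b := by
    intro i hi
    have hi' : i ≤ a := h.deg ▸ le_natDegree_of_mem_supp i hi
    rcases Nat.eq_zero_or_pos i with h0 | h0
    · subst h0
      rw [h.zero]; omega
    · rcases Nat.lt_or_ge i a with h1 | h1
      · exact (h.lt i h0 h1).le
      · have : i = a := le_antisymm hi' h1
        subst this
        rw [haa, natDegree_one, mul_zero, zero_add, mul_comm]
  have hf : P.support.filter (fun i => a * (P.coeff i).natDegree + b * i = a * b) = {0, a} := by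
    ext i
    simp only [Finset.mem_filter, mem_support_iff, Finset.mem_insert, Finset.mem_singleton]
    constructor
    · rintro ⟨h1, h2⟩
      by_contra hc
      push Not at hc
      have hi' : i ≤ a := h.deg ▸ le_natDegree_of_ne_zero h1
      exact absurd h2 (h.lt i (Nat.pos_of_ne_zero hc.1) (lt_of_le_of_ne hi' hc.2)).ne
    · rintro (rfl | rfl)
      · exact ⟨h00, by rw [h.zero]; omega⟩
      · refine ⟨by rw [haa]; exact one_ne_zero, ?_⟩
        rw [haa, natDegree_one, mul_zero, zero_add, mul_comm]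
  have hco : (Lam a b P).coeff (a * b) = X ^ a + C (P.coeff 0).leadingCoeff := by
    rw [lam_coeff ha hle, hf, Finset.sum_pair ha.ne, haa]
    simp [add_comm]
  have hdeg : (Lam a b P).natDegree = a * b := by
    refine natDegree_eq_of_le_of_coeff_ne_zero (lam_natDegree_le hle) ?_
    rw [hco]
    exact xa_ne ha _
  refine ⟨(P.coeff 0).leadingCoeff, leadingCoeff_ne_zero.2 h00, hdeg, ?_⟩
  rw [leadingCoeff, hdeg, hco]

theorem lam_red {k : Type} [Field k] {a b : ℕ} {P : k[X][X]} (hab : a.Coprime b)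
    (h0 : P ≠ 0) (h : P.natDegree < a) :
    Lam a b P ≠ 0 ∧ ∃ (c : k) (i : ℕ), c ≠ 0 ∧ (Lam a b P).leadingCoeff = C c * X ^ i := by
  have ha : 0 < a := by omega
  obtain ⟨i0, hi0, hmax⟩ := Finset.exists_max_image P.support
    (fun i => a * (P.coeff i).natDegree + b * i) (nonempty_support_iff.2 h0)
  have hc0 : P.coeff i0 ≠ 0 := mem_support_iff.1 hi0
  have hf : P.support.filter (fun i => a * (P.coeff i).natDegree + b * i =
      a * (P.coeff i0).natDegree + b * i0) = {i0} := by
    ext i
    simp only [Finset.mem_filter, Finset.mem_singleton]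
    constructor
    · rintro ⟨h1, h2⟩
      have hi : i < a := (le_natDegree_of_mem_supp i h1).trans_lt h
      have hi0' : i0 < a := (le_natDegree_of_mem_supp i0 hi0).trans_lt h
      have hm : b * i ≡ b * i0 [MOD a] := by
        have h3 : (a * (P.coeff i).natDegree + b * i) % a =
            (a * (P.coeff i0).natDegree + b * i0) % a := by rw [h2]
        rwa [Nat.mul_add_mod, Nat.mul_add_mod] at h3
      have hm2 : i ≡ i0 [MOD a] := Nat.ModEq.cancel_left_of_coprime hab hm
      exact Nat.ModEq.eq_of_lt_of_lt hm2 hi hi0'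
    · rintro rfl
      exact ⟨hi0, rfl⟩
  have hco := lam_coeff ha hmax
  rw [hf, Finset.sum_singleton] at hco
  have hne : C (P.coeff i0).leadingCoeff * X ^ i0 ≠ (0 : k[X]) :=
    mul_ne_zero (C_ne_zero.2 (leadingCoeff_ne_zero.2 hc0)) (pow_ne_zero _ X_ne_zero)
  have hdeg : (Lam a b P).natDegree = a * (P.coeff i0).natDegree + b * i0 := by
    refine natDegree_eq_of_le_of_coeff_ne_zero (lam_natDegree_le hmax) ?_
    rw [hco]
    exact hne
  refine ⟨?_, (P.coeff i0).leadingCoeff, i0, leadingCoeff_ne_zero.2 hc0, ?_⟩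
  · intro hz
    rw [hz, coeff_zero] at hco
    exact hne hco.symm
  · rw [leadingCoeff, hdeg, hco]

theorem no_monomial {k : Type} [Field k] {a : ℕ} (ha : 0 < a) (c : k) (hc : c ≠ 0) (s : k[X])
    (γ : k) (hγ : γ ≠ 0) (n : ℕ) : (X ^ a + C c) * s ≠ C γ * X ^ n := by
  intro h
  have hcop : IsCoprime (X ^ a + C c : k[X]) X := by
    refine ⟨C c⁻¹, - C c⁻¹ * X ^ (a - 1), ?_⟩
    have h1 : (X : k[X]) ^ a = X ^ (a - 1) * X := by
      rw [← pow_succ, Nat.sub_add_cancel ha]
    have h2 : C c⁻¹ * C c = (1 : k[X]) := by rw [← C_mul, inv_mul_cancel₀ hc, C_1]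
    rw [mul_add, h2, h1]
    ring
  have hdvd : (X ^ a + C c : k[X]) ∣ C γ * X ^ n := ⟨s, h.symm⟩
  have h3 : (X ^ a + C c : k[X]) ∣ C γ := (hcop.pow_right).dvd_of_dvd_mul_right hdvd
  have h4 : IsUnit (X ^ a + C c : k[X]) := isUnit_of_dvd_unit h3 (isUnit_C.2 (isUnit_iff_ne_zero.2 hγ))
  have h5 := natDegree_eq_zero_of_isUnit h4
  rw [natDegree_X_pow_add_C] at h5
  omega

/-- proof: in a factorisation of the monic polynomial `P` in two nonunits both factors have
`y`-degree less than `a` (a factor of `y`-degree `0` is a unit); look at the leading coefficients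
of the images under `Λ` -/
theorem cab_irreducible {k : Type} [Field k] {a b : ℕ} {P : k[X][X]} (ha : 0 < a) (hb : 0 < b)
    (hab : a.Coprime b) (h : IsCab a b P) : Irreducible P := by
  have hP1 : P ≠ 1 := by
    intro h1
    have := h.deg
    rw [h1, natDegree_one] at this
    omega
  rw [irreducible_of_monic h.monic hP1]
  intro f g hf hg hfg
  by_contra hc
  push Not at hc
  have hf0 : f.natDegree ≠ 0 := fun h0 => hc.1 (hf.natDegree_eq_zero.1 h0)
  have hg0 : g.natDegree ≠ 0 := fun h0 => hc.2 (hg.natDegree_eq_zero.1 h0)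
  have hd : f.natDegree + g.natDegree = a := by
    rw [← hf.natDegree_mul hg, hfg, h.deg]
  obtain ⟨c, hc0, -, hlc⟩ := lam_cab ha hb h
  obtain ⟨-, c1, i1, hc1, h1⟩ := lam_red hab hf.ne_zero (by omega : f.natDegree < a)
  obtain ⟨-, c2, i2, hc2, h2⟩ := lam_red hab hg.ne_zero (by omega : g.natDegree < a)
  rw [← hfg, map_mul, leadingCoeff_mul, h1, h2] at hlc
  refine no_monomial ha c hc0 1 (c1 * c2) (mul_ne_zero hc1 hc2) (i1 + i2) ?_
  rw [mul_one, ← hlc, C_mul, pow_add]
  ring

/-- proof: if `u v = 1 + P s` with `s ≠ 0` then `Λ(P) Λ(s)` has positive degree in `τ`, hence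
`Λ(u) Λ(v)` and `Λ(P) Λ(s)` have the same leading coefficient, a monomial; hence `s = 0` -/
theorem cab_unit {k : Type} [Field k] {a b : ℕ} {P u v : k[X][X]} (ha : 0 < a) (hb : 0 < b)
    (hab : a.Coprime b) (h : IsCab a b P) (hu : u.natDegree < a) (hv : v.natDegree < a)
    (huv : P ∣ u * v - 1) : ∃ c : k, u = C (C c) := by
  obtain ⟨s, hs⟩ := huv
  by_cases hs0 : s = 0
  · rw [hs0, mul_zero, sub_eq_zero] at hs
    have hun : IsUnit u := IsUnit.of_mul_eq_one v hs
    obtain ⟨r, hr, rfl⟩ := isUnit_iff.1 hun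
    obtain ⟨c, _, rfl⟩ := isUnit_iff.1 hr
    exact ⟨c, rfl⟩
  · exfalso
    have hsd : s.natDegree < a := by
      have h1 : (P * s).natDegree = a + s.natDegree := by
        rw [h.monic.natDegree_mul' hs0, h.deg]
      have h2 : (u * v - 1).natDegree ≤ u.natDegree + v.natDegree := by
        refine (natDegree_sub_le _ _).trans ?_
        rw [natDegree_one]
        exact max_le natDegree_mul_le (Nat.zero_le _)
      rw [hs, h1] at h2
      omega
    obtain ⟨c, hc0, hdeg, hlc⟩ := lam_cab ha hb h
    obtain ⟨hs1, -⟩ := lam_red hab hs0 hsd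
    have hP0 : Lam a b P ≠ 0 := by
      intro h0
      rw [h0, natDegree_zero] at hdeg
      have := Nat.mul_pos ha hb
      omega
    have he : Lam a b u * Lam a b v = Lam a b P * Lam a b s + 1 := by
      rw [← map_mul, ← map_mul, ← hs, map_sub, map_one, sub_add_cancel]
    have hdPs : 0 < (Lam a b P * Lam a b s).natDegree := by
      rw [natDegree_mul hP0 hs1, hdeg]
      have := Nat.mul_pos ha hb
      omega
    have hl : (Lam a b u * Lam a b v).leadingCoeff = (Lam a b P * Lam a b s).leadingCoeff := by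
      rw [he]
      refine leadingCoeff_add_of_degree_lt' ?_
      rw [degree_one]
      exact natDegree_pos_iff_degree_pos.1 hdPs
    have hne : Lam a b u * Lam a b v ≠ 0 := by
      intro h0
      rw [h0, leadingCoeff_zero] at hl
      exact (leadingCoeff_ne_zero.2 (mul_ne_zero hP0 hs1)) hl.symm
    have hu0 : u ≠ 0 := by
      rintro rfl
      rw [map_zero, zero_mul] at hne
      exact hne rfl
    have hv0 : v ≠ 0 := by
      rintro rfl
      rw [map_zero, mul_zero] at hne
      exact hne rfl
    obtain ⟨-, c1, i1, hc1, h1⟩ := lam_red hab hu0 hu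
    obtain ⟨-, c2, i2, hc2, h2⟩ := lam_red hab hv0 hv
    rw [leadingCoeff_mul, leadingCoeff_mul, h1, h2, hlc] at hl
    refine no_monomial ha c hc0 _ (c1 * c2) (mul_ne_zero hc1 hc2) (i1 + i2) (hl.symm.trans ?_)
    rw [C_mul, pow_add]
    ring

theorem low_natDegree {R : Type} [CommRing R] {a b : ℕ} {G : R[X][X]} (ha : 0 < a)
    (hG : Low a b G) : G.natDegree < a := by
  by_cases h0 : G = 0
  · rw [h0, natDegree_zero]; exact ha
  · have h1 := hG G.natDegree (by rw [coeff_natDegree]; exact leadingCoeff_ne_zero.2 h0)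
    have h2 : b * G.natDegree < b * a := by
      rw [mul_comm b a]; omega
    exact Nat.lt_of_mul_lt_mul_left h2

theorem cab_add {R : Type} [CommRing R] {a b : ℕ} {F G : R[X][X]} (ha : 0 < a) (hb : 0 < b)
    (hF : IsCab a b F) (hG : Low a b G) (r : R) : IsCab a b (F + C (C r) * G) := by
  have hGd : (C (C r) * G).natDegree < F.natDegree := by
    rw [hF.deg]
    exact (natDegree_C_mul_le _ _).trans_lt (low_natDegree ha hG)
  have hco : ∀ i, (F + C (C r) * G).coeff i = F.coeff i + C r * G.coeff i := by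
    intro i
    rw [coeff_add, coeff_C_mul]
  refine ⟨?_, ?_, ?_, ?_⟩
  · refine hF.monic.add_of_left ?_
    exact degree_lt_degree hGd
  · rw [natDegree_add_eq_left_of_natDegree_lt hGd, hF.deg]
  · rw [hco, natDegree_add_eq_left_of_natDegree_lt, hF.zero]
    rw [hF.zero]
    by_cases h0 : G.coeff 0 = 0
    · rw [h0, mul_zero, natDegree_zero]; exact hb
    · have h1 := hG 0 h0
      rw [mul_zero, add_zero] at h1
      exact (natDegree_C_mul_le _ _).trans_lt (Nat.lt_of_mul_lt_mul_left h1)
  · intro i hi hia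
    rw [hco]
    have h1 := hF.lt i hi hia
    by_cases h0 : G.coeff i = 0
    · rw [h0, mul_zero, add_zero]; exact h1
    · have h2 := hG i h0
      have h3 : (F.coeff i + C r * G.coeff i).natDegree ≤
          max (F.coeff i).natDegree (G.coeff i).natDegree :=
        (natDegree_add_le _ _).trans (max_le_max le_rfl (natDegree_C_mul_le _ _))
      rcases le_total (F.coeff i).natDegree (G.coeff i).natDegree with h4 | h4
      · rw [max_eq_right h4] at h3
        have := Nat.mul_le_mul_left a h3
        omega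
      · rw [max_eq_left h4] at h3
        have := Nat.mul_le_mul_left a h3
        omega

theorem cab_map {R S : Type} [CommRing R] [CommRing S] (φ : R →+* S)
    (hφ : Function.Injective φ) {a b : ℕ} {F : R[X][X]} (h : IsCab a b F) :
    IsCab a b (F.map (mapRingHom φ)) := by
  have hinj : Function.Injective (mapRingHom φ) := map_injective φ hφ
  refine ⟨h.monic.map _, ?_, ?_, ?_⟩
  · rw [natDegree_map_eq_of_injective hinj, h.deg]
  · rw [coeff_map, coe_mapRingHom, natDegree_map_eq_of_injective hφ, h.zero]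
  · intro i hi hia
    rw [coeff_map, coe_mapRingHom, natDegree_map_eq_of_injective hφ]
    exact h.lt i hi hia

theorem low_map {R S : Type} [CommRing R] [CommRing S] (φ : R →+* S) {a b : ℕ} {G : R[X][X]}
    (h : Low a b G) : Low a b (G.map (mapRingHom φ)) := by
  intro i hi
  rw [coeff_map] at hi ⊢
  have h0 : G.coeff i ≠ 0 := by
    intro h1
    rw [h1, map_zero] at hi
    exact hi rfl
  have h1 := h i h0
  have h2 : ((mapRingHom φ) (G.coeff i)).natDegree ≤ (G.coeff i).natDegree := by
    rw [coe_mapRingHom]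
    exact natDegree_map_le
  have := Nat.mul_le_mul_left a h2
  omega

end Pool.Agent.Lib.MP_1a0ddd_nt.W
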